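import Pool.Agent.Run7.h606.Gram2

namespace Run7.h606

/-! ### A continuous choice of frames with prescribed Gram data -/

noncomputable def hR (u v w : ℝ) : ℝ := Real.sqrt (2*(u+v+w)-3)
noncomputable def h1a (u v w : ℝ) : ℝ := (u+v-1) / hR u v w
noncomputable def h2a (u v w : ℝ) : ℝ := (u+w-1) / hR u v w
noncomputable def hP11 (u v w : ℝ) : ℝ := 1 + h1a u v w ^ 2
noncomputable def hP12 (u v w : ℝ) : ℝ := -u + h1a u v w * h2a u v w
noncomputable def hs (u v w : ℝ) : ℝ := Real.sqrt (Tt u v w / (hR u v w ^ 2 * hP11 u v w))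
noncomputable def hF1 (u v w : ℝ) : V4 := ![h1a u v w, Real.sqrt (hP11 u v w), 0, 0]
noncomputable def hF2 (u v w : ℝ) : V4 :=
  ![h2a u v w, hP12 u v w / Real.sqrt (hP11 u v w), hs u v w, 0]
noncomputable def hF3 (u v w : ℝ) : V4 := ![hR u v w, 0, 0, 0] - hF1 u v w - hF2 u v w
noncomputable def hF0 (p q r u v w : ℝ) : V4 :=
  be1 u v w p q r • hF1 u v w + be2 u v w p q r • hF2 u v w + be3 u v w p q r • hF3 u v w +
    Real.sqrt (- PG p q r u v w / Tt u v w) • ![0, 0, 0, 1]

noncomputable def hFr (p q r u v w : ℝ) : Fr :=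
  ![hF0 p q r u v w, hF1 u v w, hF2 u v w, hF3 u v w]

lemma hR_sq {u v w : ℝ} (hu : 1 ≤ u) (hv : 1 ≤ v) (hw : 1 ≤ w) :
    hR u v w ^ 2 = 2*(u+v+w)-3 := Real.sq_sqrt (by linarith)
lemma hR_pos {u v w : ℝ} (hu : 1 ≤ u) (hv : 1 ≤ v) (hw : 1 ≤ w) : 0 < hR u v w :=
  Real.sqrt_pos.mpr (by linarith)
lemma hP11_pos (u v w : ℝ) : 0 < hP11 u v w := by unfold hP11; positivity

lemma hF_products {u v w : ℝ} (hu : 1 ≤ u) (hv : 1 ≤ v) (hw : 1 ≤ w) :
    form (hF1 u v w) (hF1 u v w) = 1 ∧ form (hF2 u v w) (hF2 u v w) = 1 ∧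
    form (hF3 u v w) (hF3 u v w) = 1 ∧ form (hF1 u v w) (hF2 u v w) = -u ∧
    form (hF1 u v w) (hF3 u v w) = -v ∧ form (hF2 u v w) (hF3 u v w) = -w := by
  have hR2 := hR_sq hu hv hw
  have hRp := hR_pos hu hv hw
  have hPp := hP11_pos u v w
  have hsP : Real.sqrt (hP11 u v w) ^ 2 = hP11 u v w := Real.sq_sqrt hPp.le
  have hsPp : 0 < Real.sqrt (hP11 u v w) := Real.sqrt_pos.mpr hPp
  have hT := Tt_pos hu hv hw
  have hs2 : hs u v w ^ 2 = Tt u v w / (hR u v w ^ 2 * hP11 u v w) :=
    Real.sq_sqrt (by positivity)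
  have a1 : h1a u v w * hR u v w = u + v - 1 := by unfold h1a; field_simp
  have a2 : h2a u v w * hR u v w = u + w - 1 := by unfold h2a; field_simp
  have e11 : form (hF1 u v w) (hF1 u v w) = 1 := by
    simp [form, hF1]
    have : Real.sqrt (hP11 u v w) * Real.sqrt (hP11 u v w) = hP11 u v w := by
      rw [← sq]; exact hsP
    rw [this]; unfold hP11; ring
  have e12 : form (hF1 u v w) (hF2 u v w) = -u := by
    simp [form, hF1, hF2]
    rw [mul_div_cancel₀ _ hsPp.ne']
    unfold hP12; ring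
  have e22 : form (hF2 u v w) (hF2 u v w) = 1 := by
    simp only [form, hF2, Matrix.cons_val_zero, Matrix.cons_val_one, Matrix.cons_val,
      mul_zero, add_zero]
    have h1 : hP12 u v w / Real.sqrt (hP11 u v w) * (hP12 u v w / Real.sqrt (hP11 u v w))
        = hP12 u v w ^ 2 / hP11 u v w := by
      rw [div_mul_div_comm, ← sq, ← sq, hsP]
    have h2 : hs u v w * hs u v w = Tt u v w / (hR u v w ^ 2 * hP11 u v w) := by
      rw [← sq]; exact hs2
    rw [h1, h2]
    have h3 : (1 + h2a u v w ^ 2) * hP11 u v w * hR u v w ^ 2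
        = hP12 u v w ^ 2 * hR u v w ^ 2 + Tt u v w := by
      have h4 : (1 + h2a u v w ^ 2) * hP11 u v w * hR u v w ^ 2
          - hP12 u v w ^ 2 * hR u v w ^ 2 =
          hR u v w ^ 2 + (h1a u v w * hR u v w)^2 + (h2a u v w * hR u v w)^2
          - u^2 * hR u v w ^ 2 + 2 * u * (h1a u v w * hR u v w) * (h2a u v w * hR u v w) := by
        unfold hP11 hP12; ring
      rw [a1, a2, hR2] at h4
      rw [hR2]
      unfold Tt
      linarith [h4]
    have h5 : hP12 u v w ^ 2 / hP11 u v w + Tt u v w / (hR u v w ^ 2 * hP11 u v w)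
        = 1 + h2a u v w ^ 2 := by
      rw [div_add_div _ _ hPp.ne' (by positivity), div_eq_iff (by positivity)]
      linear_combination (-hP11 u v w) * h3
    linarith [h5]
  have c1 : form ![hR u v w, 0, 0, 0] (hF1 u v w) = -(u + v - 1) := by
    rw [← a1]; simp [form, hF1]; ring
  have c2 : form ![hR u v w, 0, 0, 0] (hF2 u v w) = -(u + w - 1) := by
    rw [← a2]; simp [form, hF2]; ring
  have cc : form ![hR u v w, 0, 0, 0] ![hR u v w, 0, 0, 0] = -(2*(u+v+w)-3) := by
    rw [← hR2]; simp [form]; ring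
  refine ⟨e11, e22, ?_, e12, ?_, ?_⟩
  · unfold hF3
    simp only [form_sub_left, form_sub_right, e11, e22, e12, c1, c2, cc,
      form_comm (hF2 u v w) (hF1 u v w), form_comm (hF1 u v w) ![hR u v w, 0, 0, 0],
      form_comm (hF2 u v w) ![hR u v w, 0, 0, 0]]
    ring
  · unfold hF3
    simp only [form_sub_right, e11, e12, c1,
      form_comm (hF1 u v w) ![hR u v w, 0, 0, 0]]
    ring
  · unfold hF3
    simp only [form_sub_right, e22, e12, c2, form_comm (hF2 u v w) (hF1 u v w),
      form_comm (hF2 u v w) ![hR u v w, 0, 0, 0]]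
    ring

lemma gm_hFr {p q r u v w : ℝ} (hu : 1 ≤ u) (hv : 1 ≤ v) (hw : 1 ≤ w)
    (hP : PG p q r u v w < 0) :
    gm (hFr p q r u v w) = !![-1, p, q, r; p, -1, u, v; q, u, -1, w; r, v, w, -1] := by
  obtain ⟨e11, e22, e33, e12, e13, e23⟩ := hF_products hu hv hw
  have hT := Tt_pos hu hv hw
  have n1 : form ![0, 0, 0, 1] (hF1 u v w) = 0 := by simp [form, hF1]
  have n2 : form ![0, 0, 0, 1] (hF2 u v w) = 0 := by simp [form, hF2]
  have n3 : form ![0, 0, 0, 1] (hF3 u v w) = 0 := by
    unfold hF3; rw [form_sub_right, form_sub_right, n1, n2]; simp [form]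
  have nn : form ![0, 0, 0, 1] ![0, 0, 0, 1] = 1 := by simp [form]
  have r1 := be_row1 hT p q r
  have r2 := be_row2 hT p q r
  have r3 := be_row3 hT p q r
  have r4 := be_dot hT p q r
  have f1 : form (hF0 p q r u v w) (hF1 u v w) = -p := by
    unfold hF0
    simp only [form_add_left, form_smul_left, e11, n1, form_comm (hF2 u v w) (hF1 u v w), e12,
      form_comm (hF3 u v w) (hF1 u v w), e13]
    linear_combination (-1 : ℝ) * r1
  have f2 : form (hF0 p q r u v w) (hF2 u v w) = -q := by
    unfold hF0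
    simp only [form_add_left, form_smul_left, e22, n2, e12,
      form_comm (hF3 u v w) (hF2 u v w), e23]
    linear_combination (-1 : ℝ) * r2
  have f3 : form (hF0 p q r u v w) (hF3 u v w) = -r := by
    unfold hF0
    simp only [form_add_left, form_smul_left, e33, n3, e13, e23]
    linear_combination (-1 : ℝ) * r3
  have f0n : form (hF0 p q r u v w) ![0, 0, 0, 1] =
      Real.sqrt (- PG p q r u v w / Tt u v w) := by
    rw [form_comm]
    unfold hF0
    simp only [form_add_right, form_smul_right, nn, n1, n2, n3]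
    ring
  have hk : Real.sqrt (- PG p q r u v w / Tt u v w) ^ 2 = - PG p q r u v w / Tt u v w :=
    Real.sq_sqrt (div_nonneg (by linarith) hT.le)
  have f0 : form (hF0 p q r u v w) (hF0 p q r u v w) = 1 := by
    conv_lhs => rw [hF0.eq_1 p q r u v w]
    simp only [form_add_left, form_smul_left]
    rw [form_comm (hF1 u v w), form_comm (hF2 u v w), form_comm (hF3 u v w),
      form_comm ![0, 0, 0, 1]]
    have f1' := f1
    have f2' := f2
    have f3' := f3
    have f4' := f0n
    have : form (hF0 p q r u v w) (hF1 u v w) = -p := f1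
    simp only [← hF0.eq_1 p q r u v w]
    rw [f1, f2, f3, f0n]
    linear_combination (-1 : ℝ) * r4 + hk
  ext i j
  fin_cases i <;> fin_cases j <;>
    simp [hFr, f0, f1, f2, f3, e11, e22, e33, e12, e13, e23,
      form_comm (hF1 u v w) (hF0 p q r u v w), form_comm (hF2 u v w) (hF0 p q r u v w),
      form_comm (hF3 u v w) (hF0 p q r u v w), form_comm (hF2 u v w) (hF1 u v w),
      form_comm (hF3 u v w) (hF1 u v w), form_comm (hF3 u v w) (hF2 u v w)]

/-- The frame attached to Gram data. -/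
noncomputable def hat (b : Matrix (Fin 4) (Fin 4) ℝ) : Fr :=
  hFr (b 0 1) (b 0 2) (b 0 3) (b 1 2) (b 1 3) (b 2 3)

lemma gm_hat {b : Matrix (Fin 4) (Fin 4) ℝ} (hb : GD b) : gm (hat b) = b := by
  have hP := hb.det_neg
  rw [det_eq_PG hb.diag hb.symm] at hP
  unfold hat
  rw [gm_hFr (hb.one_le _ _ (by decide)) (hb.one_le _ _ (by decide))
    (hb.one_le _ _ (by decide)) hP]
  ext i j
  fin_cases i <;> fin_cases j <;>
    simp [hb.diag, hb.symm 1 0, hb.symm 2 0, hb.symm 3 0, hb.symm 2 1, hb.symm 3 1, hb.symm 3 2]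

lemma isFr_hat {b : Matrix (Fin 4) (Fin 4) ℝ} (hb : GD b) : IsFr (hat b) := by
  have hg : GD (gm (hat b)) := by rw [gm_hat hb]; exact hb
  refine ⟨hg, ?_⟩
  have h11 : form (hat b 1) (hat b 1) = 1 := by have := hg.diag 1; simp at this; linarith
  have h22 : form (hat b 2) (hat b 2) = 1 := by have := hg.diag 2; simp at this; linarith
  have h12 : form (hat b 1) (hat b 2) ≤ -1 := by
    have := hg.one_le 1 2 (by decide); simp at this; linarith
  have hcf : CF (hat b 1 + hat b 2) := by
    refine ⟨?_, ?_⟩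
    · rw [form_add_left, form_add_right, form_add_right, h11, h22,
        form_comm (hat b 2) (hat b 1)]; linarith
    · have hu := hb.one_le 1 2 (by decide)
      have hv := hb.one_le 1 3 (by decide)
      have hw := hb.one_le 2 3 (by decide)
      have hR := hR_pos hu hv hw
      have e1 : hat b 1 0 = h1a (b 1 2) (b 1 3) (b 2 3) := rfl
      have e2 : hat b 2 0 = h2a (b 1 2) (b 1 3) (b 2 3) := rfl
      rw [Pi.add_apply, e1, e2]
      unfold h1a h2a
      have p1 : 0 < (b 1 2 + b 1 3 - 1) := by linarith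
      have p2 : 0 < (b 1 2 + b 2 3 - 1) := by linarith
      positivity
  refine tl_of_form_neg hcf hg.form_sum_neg ?_
  rw [form_add_left]
  have := hg.form_sum_le 1; have := hg.form_sum_le 2; linarith

lemma continuous_hat {X : Type*} [TopologicalSpace X] {b : X → Matrix (Fin 4) (Fin 4) ℝ}
    (hc : Continuous b) (hb : ∀ x, GD (b x)) : Continuous fun x => hat (b x) := by
  have cp : Continuous fun x => b x 0 1 := hc.matrix_elem 0 1
  have cq : Continuous fun x => b x 0 2 := hc.matrix_elem 0 2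
  have cr : Continuous fun x => b x 0 3 := hc.matrix_elem 0 3
  have cu : Continuous fun x => b x 1 2 := hc.matrix_elem 1 2
  have cv : Continuous fun x => b x 1 3 := hc.matrix_elem 1 3
  have cw : Continuous fun x => b x 2 3 := hc.matrix_elem 2 3
  have hu : ∀ x, 1 ≤ b x 1 2 := fun x => (hb x).one_le 1 2 (by decide)
  have hv : ∀ x, 1 ≤ b x 1 3 := fun x => (hb x).one_le 1 3 (by decide)
  have hw : ∀ x, 1 ≤ b x 2 3 := fun x => (hb x).one_le 2 3 (by decide)
  have cT : Continuous fun x => Tt (b x 1 2) (b x 1 3) (b x 2 3) := by unfold Tt; fun_prop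
  have hT : ∀ x, Tt (b x 1 2) (b x 1 3) (b x 2 3) ≠ 0 := fun x =>
    (Tt_pos (hu x) (hv x) (hw x)).ne'
  have cR : Continuous fun x => hR (b x 1 2) (b x 1 3) (b x 2 3) := by unfold hR; fun_prop
  have hR0 : ∀ x, hR (b x 1 2) (b x 1 3) (b x 2 3) ≠ 0 := fun x =>
    (hR_pos (hu x) (hv x) (hw x)).ne'
  have c1 : Continuous fun x => h1a (b x 1 2) (b x 1 3) (b x 2 3) := by
    unfold h1a; exact Continuous.div (by fun_prop) cR hR0
  have c2 : Continuous fun x => h2a (b x 1 2) (b x 1 3) (b x 2 3) := by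
    unfold h2a; exact Continuous.div (by fun_prop) cR hR0
  have cP : Continuous fun x => hP11 (b x 1 2) (b x 1 3) (b x 2 3) := by
    unfold hP11; fun_prop
  have hP0 : ∀ x, hP11 (b x 1 2) (b x 1 3) (b x 2 3) ≠ 0 := fun x => (hP11_pos _ _ _).ne'
  have cP12 : Continuous fun x => hP12 (b x 1 2) (b x 1 3) (b x 2 3) := by
    unfold hP12; fun_prop
  have csP : Continuous fun x => Real.sqrt (hP11 (b x 1 2) (b x 1 3) (b x 2 3)) := cP.sqrt
  have hsP0 : ∀ x, Real.sqrt (hP11 (b x 1 2) (b x 1 3) (b x 2 3)) ≠ 0 := fun x =>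
    (Real.sqrt_pos.mpr (hP11_pos _ _ _)).ne'
  have cs : Continuous fun x => hs (b x 1 2) (b x 1 3) (b x 2 3) := by
    unfold hs
    refine (Continuous.div cT ((cR.pow 2).mul cP) fun x => ?_).sqrt
    exact mul_ne_zero (pow_ne_zero _ (hR0 x)) (hP0 x)
  have cF1 : Continuous fun x => hF1 (b x 1 2) (b x 1 3) (b x 2 3) := by
    refine continuous_pi fun i => ?_
    fin_cases i
    · exact c1
    · exact csP
    · exact continuous_const
    · exact continuous_const
  have cF2 : Continuous fun x => hF2 (b x 1 2) (b x 1 3) (b x 2 3) := by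
    refine continuous_pi fun i => ?_
    fin_cases i
    · exact c2
    · exact cP12.div csP hsP0
    · exact cs
    · exact continuous_const
  have cRv : Continuous fun x => (![hR (b x 1 2) (b x 1 3) (b x 2 3), 0, 0, 0] : V4) := by
    refine continuous_pi fun i => ?_
    fin_cases i
    · exact cR
    · exact continuous_const
    · exact continuous_const
    · exact continuous_const
  have cF3 : Continuous fun x => hF3 (b x 1 2) (b x 1 3) (b x 2 3) := by
    unfold hF3; exact (cRv.sub cF1).sub cF2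
  have cb1 : Continuous fun x => be1 (b x 1 2) (b x 1 3) (b x 2 3) (b x 0 1) (b x 0 2)
      (b x 0 3) := by unfold be1; exact Continuous.div (by fun_prop) cT hT
  have cb2 : Continuous fun x => be2 (b x 1 2) (b x 1 3) (b x 2 3) (b x 0 1) (b x 0 2)
      (b x 0 3) := by unfold be2; exact Continuous.div (by fun_prop) cT hT
  have cb3 : Continuous fun x => be3 (b x 1 2) (b x 1 3) (b x 2 3) (b x 0 1) (b x 0 2)
      (b x 0 3) := by unfold be3; exact Continuous.div (by fun_prop) cT hT
  have cPG : Continuous fun x => PG (b x 0 1) (b x 0 2) (b x 0 3) (b x 1 2) (b x 1 3)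
      (b x 2 3) := by unfold PG; fun_prop
  have cF0 : Continuous fun x => hF0 (b x 0 1) (b x 0 2) (b x 0 3) (b x 1 2) (b x 1 3)
      (b x 2 3) := by
    unfold hF0
    exact (((cb1.smul cF1).add (cb2.smul cF2)).add (cb3.smul cF3)).add
      (((cPG.neg.div cT hT).sqrt).smul continuous_const)
  refine continuous_pi fun i => ?_
  fin_cases i
  · exact cF0
  · exact cF1
  · exact cF2
  · exact cF3

/-! ### Isometries between frames with the same Gram data -/

/-- The linear map sending the frame `F` to `F'`. -/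
noncomputable def isoFr (F F' : Fr) (hF : (fmat F).det ≠ 0) (hF' : (fmat F').det ≠ 0) :
    V4 ≃ₗ[ℝ] V4 where
  toFun x := comb F' (coord F x)
  map_add' x y := by rw [coord_add, comb_add]
  map_smul' c x := by simp only [RingHom.id_apply]; rw [coord_smul, comb_smul]
  invFun x := comb F (coord F' x)
  left_inv x := by
    show comb F (coord F' (comb F' (coord F x))) = x
    rw [coord_comb hF', comb_coord hF]
  right_inv x := by
    show comb F' (coord F (comb F (coord F' x))) = x
    rw [coord_comb hF, comb_coord hF']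

lemma isoFr_apply (F F' : Fr) (hF : (fmat F).det ≠ 0) (hF' : (fmat F').det ≠ 0) (x : V4) :
    isoFr F F' hF hF' x = comb F' (coord F x) := rfl

lemma isoFr_frame (F F' : Fr) (hF : (fmat F).det ≠ 0) (hF' : (fmat F').det ≠ 0) (i : Fin 4) :
    isoFr F F' hF hF' (F i) = F' i := by
  rw [isoFr_apply, coord_self hF, comb_single]

lemma isoFr_form (F F' : Fr) (hF : (fmat F).det ≠ 0) (hF' : (fmat F').det ≠ 0)
    (h : gm F = gm F') (x y : V4) :
    form (isoFr F F' hF hF' x) (isoFr F F' hF hF' y) = form x y := by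
  rw [isoFr_apply, isoFr_apply, form_comb_comb, ← h, ← form_comb_comb, comb_coord hF,
    comb_coord hF]

/-- A linear map is determined by its values on a frame. -/
lemma linear_ext_frame {F : Fr} (hF : (fmat F).det ≠ 0) {g g' : V4 →ₗ[ℝ] V4}
    (h : ∀ i, g (F i) = g' (F i)) : g = g' := by
  refine LinearMap.ext fun x => ?_
  rw [← comb_coord hF x, comb, map_sum, map_sum]
  exact Finset.sum_congr rfl fun i _ => by rw [map_smul, map_smul, h]

end Run7.h606
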