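import Pool.Agent.Run7.h606.State

namespace Run7.h606

open Filter Topology

/-! ### The octahedral reflections -/

lemma IsOct.coord_nm {F : Fr} (hF : IsOct F) (i : Fin 4) (y : V4) :
    form y (nm F (false, i)) = -2 * coord F y i := by
  conv_lhs => rw [← comb_coord hF.fr.det_ne y]
  rw [comb, form_sum_left, Finset.sum_eq_single i]
  · rw [form_smul_left]
    have := hF.nm_tf i i
    rw [nm_true, if_pos rfl] at this
    rw [this]; ring
  · intro k _ hk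
    have := hF.nm_tf k i
    rw [nm_true, if_neg hk] at this
    rw [form_smul_left, this, mul_zero]
  · simp

lemma oct_frel {F : Fr} (hF : IsOct F) (s : Gn) : Frel s F (refl (nm F s) ∘ F) := by
  obtain ⟨b, i⟩ := s
  cases b
  · rw [frel_false]
    refine ⟨fun k hk => ?_, ?_⟩
    · refine refl_of_orth ?_
      have := hF.nm_tf k i
      rwa [nm_true, if_neg hk] at this
    · have h1 : form (F i) (nm F (false, i)) = -2 := by
        have := hF.nm_tf i i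
        rwa [nm_true, if_pos rfl] at this
      show coord F (refl (nm F (false, i)) (F i)) i < 0
      have h2 := hF.coord_nm i (refl (nm F (false, i)) (F i))
      have h3 : form (refl (nm F (false, i)) (F i)) (nm F (false, i)) = 2 := by
        unfold refl
        rw [form_sub_left, form_smul_left, hF.nm_unit, h1]; norm_num
      rw [h3] at h2
      linarith
  · rw [frel_true, nm_true]

lemma stt_zero {T : Set Fr} (hT : IsMirroredTessellation T) (F : State T) (w : W) :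
    (stt hT F w).f 0 = ap (phi (F.f 0) F.isOct w) (F.f 0) := by
  refine cs.simple_induction_right
    (p := fun w => (stt hT F w).f 0 = ap (phi (F.f 0) F.isOct w) (F.f 0)) w ?_ ?_
  · rw [stt_one, map_one]; rfl
  · intro w s ih
    rw [stt_mul]
    set G := (stt hT F w).f 0 with hG
    have hGo : IsOct G := (stt hT F w).isOct
    have h1 : ap (phi (F.f 0) F.isOct (w * cs.simple s)) (F.f 0) = refl (nm G s) ∘ G := by
      rw [map_mul, ap_mul, phi_simple, ap_reflI]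
      funext k
      show ((phi (F.f 0) F.isOct w : Iso3) : V4 ≃ₗ[ℝ] V4) (refl (nm (F.f 0) s) (F.f 0 k)) = _
      rw [Iso3.refl, ← nm_ap, ← ih]
      show refl (nm G s) (ap (phi (F.f 0) F.isOct w) (F.f 0) k) = refl (nm G s) (G k)
      rw [← ih]
    rw [h1]
    refine frel_unique_gm hGo.fr (mv_rel hT s _ 0) (oct_frel hGo s) ?_
    rw [(mv hT s (stt hT F w)).isOct.gm]
    exact (hGo.ap (reflI (nm G s) (hGo.nm_unit s))).gm.symm

lemma IsOct.form_frame {F : Fr} (hF : IsOct F) (y : V4) (i : Fin 4) :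
    form y (F i) = 2 * coord F y i - ∑ k, coord F y k := by
  have := sv_coord hF.fr y i
  rw [hF.gm, sv_apply, ← Finset.add_sum_erase _ _ (Finset.mem_univ i)] at this
  have h2 : ∑ x ∈ Finset.univ.erase i, b0 i x * coord F y x =
      ∑ x ∈ Finset.univ.erase i, coord F y x :=
    Finset.sum_congr rfl fun k hk => by
      simp [b0, (Finset.ne_of_mem_erase hk).symm]
  rw [h2] at this
  have h3 := Finset.add_sum_erase Finset.univ (fun k => coord F y k) (Finset.mem_univ i)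
  simp [b0] at this h3
  linarith

lemma IsOct.form_self_y {F : Fr} (hF : IsOct F) (y : V4) :
    form y y = 2 * ∑ i, coord F y i ^ 2 - (∑ i, coord F y i) ^ 2 := by
  have h1 : form y y = ∑ i, coord F y i * form y (F i) := by
    conv_lhs => rw [← comb_coord hF.fr.det_ne y]
    conv_lhs => rw [comb.eq_1 F (coord F y)]
    rw [form_sum_right]
    refine Finset.sum_congr rfl fun i _ => ?_
    rw [form_smul_right]
    congr 1
    conv_rhs => rw [← comb_coord hF.fr.det_ne y]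
    rfl
  rw [h1]
  simp only [hF.form_frame]
  simp only [Fin.sum_univ_four]
  ring

lemma fin4_cases (i : Fin 4) : i = 0 ∨ i = 1 ∨ i = 2 ∨ i = 3 := by decide +revert

lemma two_zero (a : Fin 4 → ℝ) {i j : Fin 4} (hij : i ≠ j) (hi : a i = 0) (hj : a j = 0) :
    (∑ i, a i) ^ 2 ≤ 2 * ∑ i, a i ^ 2 := by
  simp only [Fin.sum_univ_four]
  rcases fin4_cases i with rfl | rfl | rfl | rfl <;>
    rcases fin4_cases j with rfl | rfl | rfl | rfl <;>
    first
    | exact absurd rfl hij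
    | (rw [hi, hj]; nlinarith [sq_nonneg (a 0 - a 1), sq_nonneg (a 0 - a 2),
          sq_nonneg (a 0 - a 3), sq_nonneg (a 1 - a 2),
          sq_nonneg (a 1 - a 3), sq_nonneg (a 2 - a 3)])

lemma IsOct.cell_iff {F : Fr} (hF : IsOct F) (y : V4) : Cell F y ↔ y ∈ Ch F := by
  constructor
  · intro h
    refine ⟨h.isH, ?_⟩
    rintro ⟨b, i⟩
    cases b
    · rw [hF.coord_nm]; linarith [h.nn i]
    · rw [nm_true]; exact h.sn i
  · rintro ⟨h1, h2⟩
    have hnn : ∀ i, 0 ≤ coord F y i := by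
      intro i
      have := h2 (false, i)
      rw [hF.coord_nm] at this; linarith
    refine ⟨h1, hnn, fun i => ?_, fun i j hij => ?_⟩
    · have := h2 (true, i); rwa [nm_true] at this
    · by_contra hc
      push Not at hc
      have hi : coord F y i = 0 := le_antisymm hc.1 (hnn i)
      have hj : coord F y j = 0 := le_antisymm hc.2 (hnn j)
      have h3 := hF.form_self_y y
      rw [h1.1] at h3
      have h4 := two_zero (coord F y) hij hi hj
      linarith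

lemma IsOct.ht_zero_iff {F : Fr} (hF : IsOct F) (y : V4) (s : Gn) :
    form y (nm F s) = 0 ↔ ht F s y = 0 := by
  obtain ⟨b, i⟩ := s
  cases b
  · rw [hF.coord_nm, ht_false]; constructor <;> intro h <;> linarith
  · rw [nm_true, ht_true]; constructor <;> intro h <;> linarith

lemma phi_ap {F : Fr} (hF : IsOct F) (g : Iso3) (w : W) :
    phi (ap g F) (hF.ap g) w = g * phi F hF w * g⁻¹ := by
  refine cs.simple_induction_right
    (p := fun w => phi (ap g F) (hF.ap g) w = g * phi F hF w * g⁻¹) w ?_ ?_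
  · rw [map_one, map_one]; group
  intro w s ih
  rw [map_mul, map_mul, ih, phi_simple, phi_simple]
  have : reflI (nm (ap g F) s) ((hF.ap g).nm_unit s) = g * reflI (nm F s) (hF.nm_unit s) * g⁻¹ := by
    apply Subtype.ext
    ext1 x
    show refl (nm (ap g F) s) x = (g : V4 ≃ₗ[ℝ] V4) (refl (nm F s)
      (((g⁻¹ : Iso3) : V4 ≃ₗ[ℝ] V4) x))
    rw [Iso3.refl, nm_ap]
    congr 1
    exact ((g : V4 ≃ₗ[ℝ] V4).apply_symm_apply x).symm
  rw [this]; group

/-! ### The standard octahedron -/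

/-- The sign vectors. -/
def mE (s : Gn) : V4 :=
  if s.1 = true then
    ![![1, 1, 1, 1], ![1, 1, -1, -1], ![1, -1, 1, -1], ![1, -1, -1, 1]] s.2
  else ![![1, -1, -1, -1], ![1, -1, 1, 1], ![1, 1, -1, 1], ![1, 1, 1, -1]] s.2

/-- The standard octahedral frame. -/
noncomputable def E0 : Fr := fun j => (Real.sqrt 2)⁻¹ • mE (true, j)

lemma sqrt2_inv_sq : (Real.sqrt 2)⁻¹ * (Real.sqrt 2)⁻¹ = 1 / 2 := by
  rw [← mul_inv, Real.mul_self_sqrt (by norm_num)]; norm_num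

lemma gm_E0 : gm E0 = b0 := by
  ext i j
  show - form ((Real.sqrt 2)⁻¹ • mE (true, i)) ((Real.sqrt 2)⁻¹ • mE (true, j)) = b0 i j
  rw [form_smul_left, form_smul_right, ← mul_assoc, sqrt2_inv_sq]
  fin_cases i <;> fin_cases j <;> simp [mE, form, b0] <;> norm_num

lemma isOct_E0 : IsOct E0 := by
  have hgd : GD b0 := by
    have hs : ∀ i j, b0 i j = b0 j i := by
      intro i j
      by_cases h : i = j
      · rw [h]
      · simp [b0, h, Ne.symm h]
    refine ⟨fun i => by simp [b0], hs, fun i j h => by simp [b0, h], ?_⟩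
    rw [det_eq_PG (fun i => by simp [b0]) hs]
    simp [b0, PG]; norm_num
  have hgd' : GD (gm E0) := by rw [gm_E0]; exact hgd
  refine ⟨⟨hgd', hgd'.form_sum_neg, ?_⟩, gm_E0⟩
  have : 0 < (Real.sqrt 2)⁻¹ := by positivity
  simp only [Fin.sum_univ_four, E0, Pi.add_apply, Pi.smul_apply, smul_eq_mul, mE]
  simp
  linarith

lemma nm_E0 (s : Gn) : nm E0 s = (Real.sqrt 2)⁻¹ • mE s := by
  obtain ⟨b, i⟩ := s
  cases b
  · rw [nm_false, Fin.sum_univ_four]
    unfold E0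
    ext k
    fin_cases i <;> fin_cases k <;> simp [mE] <;> ring
  · rw [nm_true]; rfl

lemma refl_E0 (s : Gn) (x : V4) : refl (nm E0 s) x = x - form x (mE s) • mE s := by
  unfold refl
  rw [nm_E0, form_smul_right, smul_smul]
  congr 2
  have := sqrt2_inv_sq
  linear_combination (2 * form x (mE s)) * this

lemma isInt_mE (s : Gn) : IsInt (mE s) := by
  obtain ⟨b, i⟩ := s
  intro k
  cases b <;> fin_cases i <;> fin_cases k <;>
    first
    | (refine ⟨1, ?_⟩; simp [mE]; done)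
    | (refine ⟨-1, ?_⟩; simp [mE]; done)

lemma IsInt.form {x y : V4} (hx : IsInt x) (hy : IsInt y) : ∃ n : ℤ, form x y = n := by
  obtain ⟨a0, h0⟩ := hx 0
  obtain ⟨a1, h1⟩ := hx 1
  obtain ⟨a2, h2⟩ := hx 2
  obtain ⟨a3, h3⟩ := hx 3
  obtain ⟨b0, k0⟩ := hy 0
  obtain ⟨b1, k1⟩ := hy 1
  obtain ⟨b2, k2⟩ := hy 2
  obtain ⟨b3, k3⟩ := hy 3
  refine ⟨-(a0 * b0) + a1 * b1 + a2 * b2 + a3 * b3, ?_⟩
  unfold Run7.h606.form
  rw [h0, h1, h2, h3, k0, k1, k2, k3]; push_cast; ring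

lemma IsInt.refl_E0 {x : V4} (hx : IsInt x) (s : Gn) : IsInt (refl (nm E0 s) x) := by
  rw [Run7.h606.refl_E0]
  intro k
  obtain ⟨n, hn⟩ := hx.form (isInt_mE s)
  obtain ⟨m, hm⟩ := isInt_mE s k
  obtain ⟨a, ha⟩ := hx k
  refine ⟨a - n * m, ?_⟩
  rw [Pi.sub_apply, Pi.smul_apply, smul_eq_mul, hn, hm, ha]; push_cast; ring

lemma phi_E0_int (w : W) : ∀ x, IsInt x → IsInt ((phi E0 isOct_E0 w : V4 ≃ₗ[ℝ] V4) x) := by
  refine cs.simple_induction_left
    (p := fun w => ∀ x, IsInt x → IsInt ((phi E0 isOct_E0 w : V4 ≃ₗ[ℝ] V4) x)) w ?_ ?_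
  · intro x hx; rw [map_one]; exact hx
  · intro w s ih x hx
    rw [map_mul, phi_simple]
    exact (ih x hx).refl_E0 s

lemma phi_inv_apply {F : Fr} (hF : IsOct F) (w : W) (x : V4) :
    (phi F hF w⁻¹ : V4 ≃ₗ[ℝ] V4) ((phi F hF w : V4 ≃ₗ[ℝ] V4) x) = x := by
  have : phi F hF w⁻¹ * phi F hF w = 1 := by rw [← map_mul, inv_mul_cancel, map_one]
  exact congrArg (fun g : Iso3 => (g : V4 ≃ₗ[ℝ] V4) x) this

lemma phi_apply_inv {F : Fr} (hF : IsOct F) (w : W) (x : V4) :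
    (phi F hF w : V4 ≃ₗ[ℝ] V4) ((phi F hF w⁻¹ : V4 ≃ₗ[ℝ] V4) x) = x := by
  have : phi F hF w * phi F hF w⁻¹ = 1 := by rw [← map_mul, mul_inv_cancel, map_one]
  exact congrArg (fun g : Iso3 => (g : V4 ≃ₗ[ℝ] V4) x) this

lemma phi_E0_int_iff (w : W) (x : V4) :
    IsInt ((phi E0 isOct_E0 w : V4 ≃ₗ[ℝ] V4) x) ↔ IsInt x := by
  refine ⟨fun h => ?_, phi_E0_int w x⟩
  have := phi_E0_int w⁻¹ _ h
  rwa [phi_inv_apply] at this

/-- The centre of the standard octahedron. -/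
def ce : V4 := ![1, 0, 0, 0]

lemma isH_ce : IsH ce := by constructor <;> simp [ce, form]
lemma isInt_ce : IsInt ce := by
  intro k; fin_cases k
  · exact ⟨1, by simp [ce]⟩
  · exact ⟨0, by simp [ce]⟩
  · exact ⟨0, by simp [ce]⟩
  · exact ⟨0, by simp [ce]⟩

lemma form_ce_mE (s : Gn) : form ce (mE s) = -1 := by
  obtain ⟨b, i⟩ := s
  cases b <;> fin_cases i <;> simp [mE, form, ce]

lemma finite_int_box (N : ℝ) : {v : V4 | IsInt v ∧ ∀ i, |v i| ≤ N}.Finite := by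
  have h1 : (Set.pi Set.univ (fun _ : Fin 4 => Set.Icc (-(⌈N⌉)) ⌈N⌉)).Finite :=
    Set.Finite.pi fun _ => Set.finite_Icc _ _
  refine (h1.image fun n : Fin 4 → ℤ => (fun i => (n i : ℝ) : V4)).subset ?_
  rintro v ⟨hv, hb⟩
  choose n hn using hv
  refine ⟨n, ?_, by funext i; exact (hn i).symm⟩
  intro i _
  have h2 := hb i
  rw [hn i, abs_le] at h2
  have h3 := Int.le_ceil N
  constructor
  · have : (-(⌈N⌉ : ℝ)) ≤ n i := by linarith
    exact_mod_cast this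
  · have : (n i : ℝ) ≤ ⌈N⌉ := by linarith
    exact_mod_cast this

lemma finite_int_H {x : V4} (hx : IsH x) (R : ℝ) :
    {v : V4 | IsInt v ∧ IsH v ∧ - form x v ≤ R}.Finite := by
  obtain ⟨r, hr, hxr⟩ : ∃ r : ℝ, 0 < r ∧ ∀ v, IsH v → r * v 0 ≤ - form x v := by
    set n := Real.sqrt (x 1 ^ 2 + x 2 ^ 2 + x 3 ^ 2) with hn
    have hn2 : n ^ 2 = x 1 ^ 2 + x 2 ^ 2 + x 3 ^ 2 := Real.sq_sqrt (by positivity)
    have hn0 : 0 ≤ n := Real.sqrt_nonneg _
    have hx0 : x 0 ^ 2 = n ^ 2 + 1 := by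
      have := hx.1; unfold form at this; rw [hn2]; linarith
    have hlt : n < x 0 := by nlinarith [hx.2]
    refine ⟨x 0 - n, by linarith, fun v hv => ?_⟩
    have hv0 : v 1 ^ 2 + v 2 ^ 2 + v 3 ^ 2 ≤ v 0 ^ 2 := by
      have := hv.1; unfold form at this; linarith
    have hCS : (x 1 * v 1 + x 2 * v 2 + x 3 * v 3) ^ 2 ≤
      (x 1 ^ 2 + x 2 ^ 2 + x 3 ^ 2) * (v 1 ^ 2 + v 2 ^ 2 + v 3 ^ 2) := by
      nlinarith [sq_nonneg (x 1 * v 2 - x 2 * v 1), sq_nonneg (x 1 * v 3 - x 3 * v 1),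
        sq_nonneg (x 2 * v 3 - x 3 * v 2)]
    have h2 : (x 1 * v 1 + x 2 * v 2 + x 3 * v 3) ^ 2 ≤ (n * v 0) ^ 2 := by
      calc _ ≤ (x 1 ^ 2 + x 2 ^ 2 + x 3 ^ 2) * (v 1 ^ 2 + v 2 ^ 2 + v 3 ^ 2) := hCS
        _ ≤ (x 1 ^ 2 + x 2 ^ 2 + x 3 ^ 2) * v 0 ^ 2 := by
            apply mul_le_mul_of_nonneg_left hv0; positivity
        _ = (n * v 0) ^ 2 := by rw [← hn2]; ring
    have h3 := abs_le_of_sq_le_sq h2 (mul_nonneg hn0 hv.2.le)
    have h4 := (abs_le.mp h3).2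
    unfold form
    linarith
  refine (finite_int_box (R / r)).subset ?_
  rintro v ⟨hv, hH, hR⟩
  refine ⟨hv, fun i => ?_⟩
  have h1 : v 0 ≤ R / r := by
    rw [le_div_iff₀ hr]
    have := hxr v hH
    linarith
  have h2 : v i ^ 2 ≤ v 0 ^ 2 := by
    have := hH.1
    unfold form at this
    fin_cases i
    · exact le_refl _
    · show v 1 ^ 2 ≤ _; nlinarith [sq_nonneg (v 2), sq_nonneg (v 3)]
    · show v 2 ^ 2 ≤ _; nlinarith [sq_nonneg (v 1), sq_nonneg (v 3)]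
    · show v 3 ^ 2 ≤ _; nlinarith [sq_nonneg (v 2), sq_nonneg (v 1)]
  exact (abs_le_of_sq_le_sq h2 hH.2.le |> fun h => (abs_le.mpr (abs_le.mp h))).trans h1

/-- The octahedra cover hyperbolic space. -/
lemma cover_E0 {x : V4} (hx : IsH x) :
    ∃ w : W, (phi E0 isOct_E0 w⁻¹ : V4 ≃ₗ[ℝ] V4) x ∈ Ch E0 := by
  set S : Set V4 := {v | ∃ w : W, v = (phi E0 isOct_E0 w : V4 ≃ₗ[ℝ] V4) ce} with hS
  set S' : Set V4 := {v | v ∈ S ∧ - form x v ≤ - form x ce} with hS'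
  have hfin : S'.Finite := by
    refine (finite_int_H hx (- form x ce)).subset ?_
    rintro v ⟨⟨w, rfl⟩, hR⟩
    exact ⟨phi_E0_int w _ isInt_ce, (Iso3.isH_iff _ _).mpr isH_ce, hR⟩
  have hne : S'.Nonempty := ⟨ce, ⟨1, by rw [map_one]; rfl⟩, le_refl _⟩
  obtain ⟨v, ⟨⟨w, rfl⟩, hR⟩, hmin⟩ := Set.exists_min_image S' (fun v => - form x v) hfin hne
  refine ⟨w, (Iso3.isH_iff _ _).mpr hx, fun s => ?_⟩
  have h1 : - form x ((phi E0 isOct_E0 w : V4 ≃ₗ[ℝ] V4) ce) ≤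
      - form x ((phi E0 isOct_E0 (w * cs.simple s) : V4 ≃ₗ[ℝ] V4) ce) := by
    by_cases hc : - form x ((phi E0 isOct_E0 (w * cs.simple s) : V4 ≃ₗ[ℝ] V4) ce) ≤
      - form x ce
    · exact hmin _ ⟨⟨_, rfl⟩, hc⟩
    · push Not at hc
      exact hR.trans hc.le
  have h2 : (phi E0 isOct_E0 (w * cs.simple s) : V4 ≃ₗ[ℝ] V4) ce =
      (phi E0 isOct_E0 w : V4 ≃ₗ[ℝ] V4) (ce + mE s) := by
    rw [map_mul, phi_simple]
    show (phi E0 isOct_E0 w : V4 ≃ₗ[ℝ] V4) (refl (nm E0 s) ce) = _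
    rw [refl_E0, form_ce_mE]
    congr 1; module
  rw [h2] at h1
  have h3 : ∀ z, form x ((phi E0 isOct_E0 w : V4 ≃ₗ[ℝ] V4) z) =
      form ((phi E0 isOct_E0 w⁻¹ : V4 ≃ₗ[ℝ] V4) x) z := by
    intro z
    rw [← Iso3.form_eq (phi E0 isOct_E0 w) ((phi E0 isOct_E0 w⁻¹ : V4 ≃ₗ[ℝ] V4) x) z,
      phi_apply_inv]
  rw [h3, h3, form_add_right] at h1
  rw [nm_E0, form_smul_right]
  have : 0 ≤ (Real.sqrt 2)⁻¹ := by positivity
  nlinarith

lemma cover_oct {F : Fr} (hF : IsOct F) {x : V4} (hx : IsH x) :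
    ∃ w : W, Cell (ap (phi F hF w) F) x := by
  -- the isometry from the standard octahedron
  set g := isoI E0 F isOct_E0.fr hF.fr (by rw [gm_E0, hF.gm]) with hg
  have hgF : ap g E0 = F := ap_isoI _ _ _ _ _
  obtain ⟨w, hw⟩ := cover_E0 ((Iso3.isH_iff g⁻¹ x).mpr hx)
  refine ⟨w, ?_⟩
  have h1 : Cell E0 ((phi E0 isOct_E0 w⁻¹ : V4 ≃ₗ[ℝ] V4) (((g⁻¹ : Iso3) : V4 ≃ₗ[ℝ] V4) x)) :=
    (isOct_E0.cell_iff _).mpr hw
  have h2 := h1.ap isOct_E0.fr (g * phi E0 isOct_E0 w)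
  have h3 : ((g * phi E0 isOct_E0 w : Iso3) : V4 ≃ₗ[ℝ] V4)
      ((phi E0 isOct_E0 w⁻¹ : V4 ≃ₗ[ℝ] V4) (((g⁻¹ : Iso3) : V4 ≃ₗ[ℝ] V4) x)) = x := by
    have : g * phi E0 isOct_E0 w * (phi E0 isOct_E0 w⁻¹ * g⁻¹) = 1 := by
      rw [map_inv]; group
    exact congrArg (fun g : Iso3 => (g : V4 ≃ₗ[ℝ] V4) x) this
  rw [h3] at h2
  have h4 : ap (phi F hF w) F = ap (g * phi E0 isOct_E0 w) E0 := by
    have h5 : ∀ (G : Fr) (hG : IsOct G), G = ap g E0 →
        ap (phi G hG w) G = ap (g * phi E0 isOct_E0 w) E0 := by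
      rintro G hG rfl
      rw [phi_ap isOct_E0 g w, ← ap_mul]; congr 1; group
    exact h5 F hF hgF.symm
  rw [h4]; exact h2

/-- Every state orbit covers hyperbolic space at time `0`. -/
lemma stt_cover {T : Set Fr} (hT : IsMirroredTessellation T) (F : State T) {x : V4}
    (hx : IsH x) : ∃ w : W, Cell ((stt hT F w).f 0) x := by
  obtain ⟨w, hw⟩ := cover_oct F.isOct hx
  exact ⟨w, by rw [stt_zero]; exact hw⟩

/-- The well-definedness of the developing map. -/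
lemma TR_well {T : Set Fr} (hT : IsMirroredTessellation T) (F : State T) {x : V4} {w w' : W}
    (hw : Cell ((stt hT F w).f 0) x) (hw' : Cell ((stt hT F w').f 0) x) (t : unitInterval) :
    TR ((stt hT F w').f 0) ((stt hT F w').f t) x =
      TR ((stt hT F w).f 0) ((stt hT F w).f t) x := by
  set F0 := F.f 0 with hF0
  have hO : IsOct F0 := F.isOct
  set y := (phi F0 hO w⁻¹ : V4 ≃ₗ[ℝ] V4) x with hy
  have hx1 : (phi F0 hO w : V4 ≃ₗ[ℝ] V4) y = x := phi_apply_inv hO w x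
  have hyC : y ∈ Ch F0 := by
    rw [← hO.cell_iff]
    rw [stt_zero] at hw
    have := hw.ap (hO.fr.ap _) (phi F0 hO w⁻¹)
    rw [← ap_mul, ← map_mul, inv_mul_cancel, map_one, ap_one] at this
    exact this
  have hx2 : (phi F0 hO (w'⁻¹ * w) : V4 ≃ₗ[ℝ] V4) y = (phi F0 hO w'⁻¹ : V4 ≃ₗ[ℝ] V4) x := by
    rw [map_mul, ← hx1]; rfl
  have hyC' : (phi F0 hO (w'⁻¹ * w) : V4 ≃ₗ[ℝ] V4) y ∈ Ch F0 := by
    rw [hx2, ← hO.cell_iff]
    rw [stt_zero] at hw'
    have := hw'.ap (hO.fr.ap _) (phi F0 hO w'⁻¹)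
    rw [← ap_mul, ← map_mul, inv_mul_cancel, map_one, ap_one] at this
    exact this
  have key := tits F0 hO (P := fun u => (phi F0 hO u : V4 ≃ₗ[ℝ] V4) y = y ∧
    Cell ((stt hT F (w * u⁻¹)).f 0) x ∧
    TR ((stt hT F (w * u⁻¹)).f 0) ((stt hT F (w * u⁻¹)).f t) x =
      TR ((stt hT F w).f 0) ((stt hT F w).f t) x) hyC ?_ ?_ _ (w'⁻¹ * w) rfl hyC'
  · have h1 : w * (w'⁻¹ * w)⁻¹ = w' := by group
    have h2 := key.2.2.2
    rwa [h1] at h2
  · refine ⟨by rw [map_one]; rfl, ?_, ?_⟩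
    · rw [inv_one, mul_one]; exact hw
    · rw [inv_one, mul_one]
  · rintro s u hs ⟨h1, h2, h3⟩
    have h4 : w * (cs.simple s * u)⁻¹ = w * u⁻¹ * cs.simple s := by
      rw [mul_inv_rev, cs.inv_simple, mul_assoc]
    have h5 : ht ((stt hT F (w * u⁻¹)).f 0) s x = 0 := by
      rw [← (stt hT F (w * u⁻¹)).isOct.ht_zero_iff, stt_zero, nm_ap]
      have h6 : x = (phi F0 hO (w * u⁻¹) : V4 ≃ₗ[ℝ] V4) y := by
        rw [← hx1, map_mul]
        show _ = (phi F0 hO w : V4 ≃ₗ[ℝ] V4) ((phi F0 hO u⁻¹ : V4 ≃ₗ[ℝ] V4) y)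
        congr 1
        conv_rhs => rw [← h1]
        rw [phi_inv_apply]
      conv_lhs => rw [h6]
      rw [Iso3.form_eq]; exact hs
    refine ⟨?_, ?_, ?_⟩
    · rw [map_mul, phi_simple]
      show refl (nm F0 s) ((phi F0 hO u : V4 ≃ₗ[ℝ] V4) y) = y
      rw [h1, refl_of_orth hs]
    · rw [h4, stt_mul]
      exact (frel_cell (State.fr _ 0) (State.fr _ 0) (mv_rel hT s _ 0) h2 h5).1
    · rw [h4, stt_mul, ← h3]
      exact frel_TR (State.fr _ 0) (State.fr _ 0) (State.fr _ t) (State.fr _ t)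
        (mv_rel hT s _ 0) (mv_rel hT s _ t) h2 h5

end Run7.h606
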