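import Pool.Agent.Run7.h606.Base

namespace Run7.h606

open Filter Topology

/-! ### Isometries -/

lemma Iso3.form_eq (g : Iso3) (x y : V4) :
    form ((g : V4 ≃ₗ[ℝ] V4) x) ((g : V4 ≃ₗ[ℝ] V4) y) = form x y := g.2.1 x y

lemma Iso3.isH_iff (g : Iso3) (x : V4) : IsH ((g : V4 ≃ₗ[ℝ] V4) x) ↔ IsH x := g.2.2 x

lemma smul_val (g : Iso3) (x : H3) : ((g • x : H3) : V4) = (g : V4 ≃ₗ[ℝ] V4) x := rfl

lemma TL.exists_smul {x : V4} (hx : TL x) : ∃ c : ℝ, 0 < c ∧ ∃ y, IsH y ∧ x = c • y := by
  refine ⟨Real.sqrt (- form x x), Real.sqrt_pos.mpr (by linarith [hx.1]), nrm x, isH_nrm hx, ?_⟩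
  unfold nrm
  rw [smul_smul, mul_inv_cancel₀ (Real.sqrt_pos.mpr (by linarith [hx.1])).ne', one_smul]

lemma Iso3.tl (g : Iso3) {x : V4} (hx : TL x) : TL ((g : V4 ≃ₗ[ℝ] V4) x) := by
  obtain ⟨c, hc, y, hy, rfl⟩ := hx.exists_smul
  rw [map_smul]
  exact ((Iso3.isH_iff g y).mpr hy).tl.smul hc

/-- Apply an isometry to a quadruple. -/
def ap (g : Iso3) (F : Fr) : Fr := fun i => (g : V4 ≃ₗ[ℝ] V4) (F i)

lemma ap_apply (g : Iso3) (F : Fr) (i : Fin 4) : ap g F i = (g : V4 ≃ₗ[ℝ] V4) (F i) := rfl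
lemma ap_one (F : Fr) : ap 1 F = F := rfl
lemma ap_mul (g h : Iso3) (F : Fr) : ap (g * h) F = ap g (ap h F) := rfl
lemma ap_comp (g : Iso3) (F : Fr) (π : Equiv.Perm (Fin 4)) : ap g (F ∘ π) = ap g F ∘ π := rfl
lemma ap_inv_ap (g : Iso3) (F : Fr) : ap g⁻¹ (ap g F) = F := by
  rw [← ap_mul, inv_mul_cancel, ap_one]

lemma gm_ap (g : Iso3) (F : Fr) : gm (ap g F) = gm F := by
  ext i j; simp only [gm_apply, ap_apply]; rw [Iso3.form_eq g]

lemma sum_ap (g : Iso3) (F : Fr) : ∑ i, ap g F i = (g : V4 ≃ₗ[ℝ] V4) (∑ i, F i) := by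
  rw [map_sum]; rfl

lemma IsFr.ap {F : Fr} (hF : IsFr F) (g : Iso3) : IsFr (ap g F) :=
  ⟨by rw [gm_ap]; exact hF.gd, by rw [sum_ap]; exact Iso3.tl g hF.fut⟩

lemma comb_ap (g : Iso3) (F : Fr) (a : Fin 4 → ℝ) :
    comb (ap g F) a = (g : V4 ≃ₗ[ℝ] V4) (comb F a) := by
  simp only [comb, map_sum, map_smul]; rfl

lemma coord_ap {F : Fr} (hF : IsFr F) (g : Iso3) (x : V4) :
    coord (ap g F) ((g : V4 ≃ₗ[ℝ] V4) x) = coord F x := by
  have h1 : comb (ap g F) (coord F x) = (g : V4 ≃ₗ[ℝ] V4) x := by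
    rw [comb_ap, comb_coord hF.det_ne]
  rw [← h1, coord_comb (hF.ap g).det_ne]

/-- The isometry between two frames with the same Gram data. -/
noncomputable def isoI (F F' : Fr) (hF : IsFr F) (hF' : IsFr F') (h : gm F = gm F') : Iso3 :=
  ⟨isoFr F F' hF.det_ne hF'.det_ne, isoFr_form F F' hF.det_ne hF'.det_ne h, fun x => by
    have hsum : ∀ (G G' : Fr) (hG : (fmat G).det ≠ 0) (hG' : (fmat G').det ≠ 0),
        isoFr G G' hG hG' (∑ i, G i) = ∑ i, G' i := by
      intro G G' hG hG'
      rw [map_sum]; exact Finset.sum_congr rfl fun i _ => isoFr_frame _ _ _ _ _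
    constructor
    · intro hx
      have h2 : x = isoFr F' F hF'.det_ne hF.det_ne (isoFr F F' hF.det_ne hF'.det_ne x) := by
        rw [isoFr_apply, isoFr_apply, coord_comb hF'.det_ne, comb_coord hF.det_ne]
      have h3 : form x x = -1 := by
        rw [← isoFr_form F F' hF.det_ne hF'.det_ne h]; exact hx.1
      refine ⟨h3, (tl_of_form_neg hF.fut.cf (by rw [h3]; norm_num) ?_).2⟩
      rw [h2, ← hsum F' F hF'.det_ne hF.det_ne, isoFr_form _ _ _ _ h.symm, form_comm]
      exact form_neg_of_TL_CF hx.tl hF'.fut.cf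
    · intro hx
      have h3 : form (isoFr F F' hF.det_ne hF'.det_ne x) (isoFr F F' hF.det_ne hF'.det_ne x)
        = -1 := by rw [isoFr_form F F' hF.det_ne hF'.det_ne h]; exact hx.1
      refine ⟨h3, (tl_of_form_neg hF'.fut.cf (by rw [h3]; norm_num) ?_).2⟩
      rw [← hsum F F' hF.det_ne hF'.det_ne, isoFr_form _ _ _ _ h, form_comm]
      exact form_neg_of_TL_CF hx.tl hF.fut.cf⟩

lemma ap_isoI (F F' : Fr) (hF : IsFr F) (hF' : IsFr F') (h : gm F = gm F') :
    ap (isoI F F' hF hF' h) F = F' := by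
  funext i; exact isoFr_frame F F' hF.det_ne hF'.det_ne i

lemma iso_ext {F : Fr} (hF : IsFr F) {g g' : Iso3} (h : ap g F = ap g' F) : g = g' := by
  have h1 : ((g : V4 ≃ₗ[ℝ] V4) : V4 →ₗ[ℝ] V4) = ((g' : V4 ≃ₗ[ℝ] V4) : V4 →ₗ[ℝ] V4) :=
    linear_ext_frame hF.det_ne fun i => congrFun h i
  exact Subtype.ext (LinearEquiv.toLinearMap_injective h1)

/-- Reflections as isometries. -/
def reflI (u : V4) (hu : form u u = 1) : Iso3 :=
  ⟨{ toFun := refl u
     map_add' := refl_add u
     map_smul' := fun c x => refl_smul u c x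
     invFun := refl u
     left_inv := refl_refl hu
     right_inv := refl_refl hu }, fun x y => form_refl hu x y, fun x => by
      constructor
      · intro h
        have := isH_refl hu h
        change IsH (refl u (refl u x)) at this
        rwa [refl_refl hu] at this
      · intro h; exact isH_refl hu h⟩

lemma reflI_apply (u : V4) (hu : form u u = 1) (x : V4) :
    ((reflI u hu : Iso3) : V4 ≃ₗ[ℝ] V4) x = refl u x := rfl

lemma reflI_mul_self (u : V4) (hu : form u u = 1) : reflI u hu * reflI u hu = 1 := by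
  apply Subtype.ext
  ext1 x
  exact refl_refl hu x

lemma reflI_comm {u v : V4} (hu : form u u = 1) (hv : form v v = 1) (huv : form u v = 0) :
    reflI u hu * reflI v hv = reflI v hv * reflI u hu := by
  apply Subtype.ext
  ext1 x
  show refl u (refl v x) = refl v (refl u x)
  unfold refl
  rw [form_sub_left, form_sub_left, form_smul_left, form_smul_left, huv, form_comm v u, huv]
  module

/-! ### The right-angled Coxeter group of the octahedron -/

/-- The generators: `(false, i)` is the face opposite to the vertex `i` of the tetrahedron,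
`(true, i)` the truncation face at the vertex `i`. -/
abbrev Gn := Bool × Fin 4

/-- The Coxeter matrix of the right-angled ideal octahedron. -/
def cm : CoxeterMatrix Gn where
  M := Matrix.of fun s s' => if s = s' then 1 else if s.1 ≠ s'.1 ∧ s.2 ≠ s'.2 then 2 else 0
  isSymm := by
    ext s s'
    simp only [Matrix.transpose_apply, Matrix.of_apply]
    by_cases h : s = s'
    · rw [h]
    · rw [if_neg h, if_neg (Ne.symm h)]
      congr 1
      exact propext ⟨fun h => ⟨h.1.symm, h.2.symm⟩, fun h => ⟨h.1.symm, h.2.symm⟩⟩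
  diagonal := fun i => by simp
  off_diagonal := fun i j h => by simp [h]; split_ifs <;> simp

abbrev W := cm.Group
abbrev cs : CoxeterSystem cm W := cm.toCoxeterSystem

lemma liftable {G : Type*} [Group G] (f : Gn → G) (h1 : ∀ s, f s * f s = 1)
    (h2 : ∀ s s' : Gn, s.1 ≠ s'.1 → s.2 ≠ s'.2 → f s * f s' = f s' * f s) :
    cm.IsLiftable f := by
  intro s s'
  show (f s * f s') ^ (if s = s' then 1 else if s.1 ≠ s'.1 ∧ s.2 ≠ s'.2 then 2 else 0) = 1
  split_ifs with h h'
  · rw [h, h1, one_pow]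
  · rw [pow_two]
    calc f s * f s' * (f s * f s') = f s * (f s' * f s) * f s' := by group
      _ = f s * (f s * f s') * f s' := by rw [h2 s s' h'.1 h'.2]
      _ = (f s * f s) * (f s' * f s') := by group
      _ = 1 := by rw [h1, h1, one_mul]
  · exact pow_zero _

/-- The Gram data of the regular ideal octahedron. -/
def b0 : Matrix (Fin 4) (Fin 4) ℝ := Matrix.of fun i j => if i = j then -1 else 1

lemma bt_zero (b : Matrix (Fin 4) (Fin 4) ℝ) : bt 0 b = b0 := by
  ext i j; simp [bt, b0]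

/-- Octahedral frames. -/
structure IsOct (F : Fr) : Prop where
  fr : IsFr F
  gm : gm F = b0

lemma IsOct.ap {F : Fr} (hF : IsOct F) (g : Iso3) : IsOct (ap g F) :=
  ⟨hF.fr.ap g, by rw [gm_ap]; exact hF.gm⟩

lemma IsOct.form_self {F : Fr} (hF : IsOct F) (i : Fin 4) : form (F i) (F i) = 1 := by
  have := congrFun (congrFun hF.gm i) i
  simp [b0] at this; linarith

lemma IsOct.form_ne {F : Fr} (hF : IsOct F) {i j : Fin 4} (h : i ≠ j) :
    form (F i) (F j) = -1 := by
  have := congrFun (congrFun hF.gm i) j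
  simp [b0, h] at this; linarith

lemma IsOct.form_sum {F : Fr} (hF : IsOct F) (i : Fin 4) : form (∑ k, F k) (F i) = -2 := by
  rw [form_sum_left, ← Finset.add_sum_erase _ _ (Finset.mem_univ i), hF.form_self]
  rw [Finset.sum_congr rfl fun j hj => hF.form_ne (Finset.ne_of_mem_erase hj),
    Finset.sum_const, Finset.card_erase_of_mem (Finset.mem_univ i)]
  simp; norm_num

lemma IsOct.form_sum_sum {F : Fr} (hF : IsOct F) : form (∑ k, F k) (∑ k, F k) = -8 := by
  rw [form_sum_right, Finset.sum_congr rfl fun i _ => hF.form_sum i]; simp; norm_num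

/-- The unit normal vectors of the faces of the octahedron. -/
noncomputable def nm (F : Fr) (s : Gn) : V4 :=
  if s.1 = true then F s.2 else (1/2 : ℝ) • (∑ k, F k) - F s.2

lemma nm_true (F : Fr) (i : Fin 4) : nm F (true, i) = F i := by simp [nm]
lemma nm_false (F : Fr) (i : Fin 4) : nm F (false, i) = (1/2 : ℝ) • (∑ k, F k) - F i := by
  simp [nm]

lemma nm_ap (F : Fr) (g : Iso3) (s : Gn) : nm (ap g F) s = (g : V4 ≃ₗ[ℝ] V4) (nm F s) := by
  rcases s with ⟨_ | _, i⟩
  · rw [nm_false, nm_false, sum_ap, map_sub, map_smul]; rfl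
  · rw [nm_true, nm_true]; rfl

lemma IsOct.nm_unit {F : Fr} (hF : IsOct F) (s : Gn) : form (nm F s) (nm F s) = 1 := by
  rcases s with ⟨_ | _, i⟩
  · rw [nm_false, form_sub_left, form_sub_right, form_sub_right, form_smul_left,
      form_smul_left, form_smul_right, form_smul_right, hF.form_sum_sum, hF.form_sum,
      form_comm (F i), hF.form_sum, hF.form_self]; norm_num
  · rw [nm_true, hF.form_self]

lemma IsOct.nm_tf {F : Fr} (hF : IsOct F) (i j : Fin 4) :
    form (nm F (true, i)) (nm F (false, j)) = if i = j then -2 else 0 := by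
  rw [nm_true, nm_false, form_sub_right, form_smul_right, form_comm, hF.form_sum]
  split_ifs with h
  · rw [h, hF.form_self]; norm_num
  · rw [hF.form_ne h]; norm_num

lemma IsOct.nm_ff {F : Fr} (hF : IsOct F) {i j : Fin 4} (h : i ≠ j) :
    form (nm F (false, i)) (nm F (false, j)) = -1 := by
  rw [nm_false, nm_false, form_sub_left, form_sub_right, form_sub_right, form_smul_left,
      form_smul_left, form_smul_right, form_smul_right, hF.form_sum_sum, hF.form_sum,
      form_comm (F i), hF.form_sum, hF.form_ne h]; norm_num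

lemma IsOct.nm_orth {F : Fr} (hF : IsOct F) (s s' : Gn) (h1 : s.1 ≠ s'.1) (h2 : s.2 ≠ s'.2) :
    form (nm F s) (nm F s') = 0 := by
  rcases s with ⟨_ | _, i⟩ <;> rcases s' with ⟨_ | _, j⟩
  · exact absurd rfl h1
  · rw [form_comm, hF.nm_tf, if_neg (Ne.symm h2)]
  · rw [hF.nm_tf, if_neg h2]
  · exact absurd rfl h1

lemma IsOct.nm_sum {F : Fr} (hF : IsOct F) (s : Gn) : form (∑ k, F k) (nm F s) = -2 := by
  rcases s with ⟨_ | _, i⟩
  · rw [nm_false, form_sub_right, form_smul_right, hF.form_sum_sum, hF.form_sum]; norm_num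
  · rw [nm_true, hF.form_sum]

lemma IsOct.nm_le {F : Fr} (hF : IsOct F) (s s' : Gn) (h : s ≠ s')
    (h' : ¬ (s.1 ≠ s'.1 ∧ s.2 ≠ s'.2)) : form (nm F s) (nm F s') ≤ -1 := by
  rcases s with ⟨_ | _, i⟩ <;> rcases s' with ⟨_ | _, j⟩
  · have : i ≠ j := fun e => h (by rw [e])
    rw [hF.nm_ff this]
  · have : i = j := by by_contra e; exact h' ⟨by simp, e⟩
    rw [form_comm, hF.nm_tf, if_pos this.symm]; norm_num
  · have : i = j := by by_contra e; exact h' ⟨by simp, e⟩
    rw [hF.nm_tf, if_pos this]; norm_num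
  · have : i ≠ j := fun e => h (by rw [e])
    rw [nm_true, nm_true, hF.form_ne this]

lemma IsOct.nm_cf {F : Fr} (hF : IsOct F) (s s' : Gn) (h : s ≠ s')
    (h' : ¬ (s.1 ≠ s'.1 ∧ s.2 ≠ s'.2)) : CF (nm F s + nm F s') := by
  refine cf_of_form_neg hF.fr.fut ?_ ?_
  · rw [form_add_left, form_add_right, form_add_right, hF.nm_unit, hF.nm_unit,
      form_comm (nm F s')]
    linarith [hF.nm_le s s' h h']
  · rw [form_add_right, hF.nm_sum, hF.nm_sum]; norm_num

/-- The geometric representation. -/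
noncomputable def phi (F : Fr) (hF : IsOct F) : W →* Iso3 :=
  cs.lift ⟨fun s => reflI (nm F s) (hF.nm_unit s), liftable _
    (fun s => reflI_mul_self _ _) fun s s' h1 h2 => reflI_comm _ _ (hF.nm_orth s s' h1 h2)⟩

lemma phi_simple (F : Fr) (hF : IsOct F) (s : Gn) :
    phi F hF (cs.simple s) = reflI (nm F s) (hF.nm_unit s) := cs.lift_apply_simple _ s

/-- The chamber: the octahedron. -/
def Ch (F : Fr) : Set V4 := {x | IsH x ∧ ∀ s, form x (nm F s) ≤ 0}

lemma sign_lemma (F : Fr) (hF : IsOct F) : ∀ (n : ℕ) (w : W), cs.length w = n → ∀ s,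
    cs.length (cs.simple s * w) = cs.length w + 1 → ∀ x ∈ Ch F,
    form ((phi F hF w : V4 ≃ₗ[ℝ] V4) x) (nm F s) ≤ 0 := by
  intro n
  induction n using Nat.strong_induction_on with
  | _ n ih =>
    intro w hw s hs x hx
    by_cases hw1 : w = 1
    · subst hw1; rw [map_one]; exact hx.2 s
    obtain ⟨t, ht⟩ := cs.exists_leftDescent_of_ne_one hw1
    have ht' := cs.isLeftDescent_iff.mp ht
    set w' := cs.simple t * w with hw'
    have hwt : w = cs.simple t * w' := by
      rw [hw', cs.simple_mul_simple_cancel_left]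
    have hlen : cs.length w' + 1 = cs.length w := ht'
    have hst : s ≠ t := by
      intro e
      rw [e, ← hw'] at hs
      omega
    have hphi : (phi F hF w : V4 ≃ₗ[ℝ] V4) x = refl (nm F t) ((phi F hF w' : V4 ≃ₗ[ℝ] V4) x) := by
      rw [hwt, map_mul, phi_simple]; rfl
    have hy : IsH ((phi F hF w' : V4 ≃ₗ[ℝ] V4) x) := (Iso3.isH_iff _ _).mpr hx.1
    by_cases hc : s.1 ≠ t.1 ∧ s.2 ≠ t.2
    · -- commuting case
      have horth := hF.nm_orth s t hc.1 hc.2
      have hlen2 : cs.length (cs.simple s * w') = cs.length w' + 1 := by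
        rcases cs.length_simple_mul w' s with h | h
        · exact h
        · exfalso
          have hcomm : cs.simple s * cs.simple t = cs.simple t * cs.simple s := by
            have h2 : (cs.simple s * cs.simple t) ^ 2 = 1 := by
              have := cs.simple_mul_simple_pow s t
              have hM : cm s t = 2 := by
                show (if s = t then 1 else if s.1 ≠ t.1 ∧ s.2 ≠ t.2 then 2 else 0) = 2
                rw [if_neg hst, if_pos hc]
              rwa [hM] at this
            rw [pow_two] at h2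
            have h3 : cs.simple s * cs.simple t = (cs.simple s * cs.simple t)⁻¹ :=
              eq_inv_of_mul_eq_one_left h2
            rw [mul_inv_rev, cs.inv_simple, cs.inv_simple] at h3
            exact h3
          have h4 : cs.simple s * w = cs.simple t * (cs.simple s * w') := by
            rw [hwt, ← mul_assoc, hcomm, mul_assoc]
          have h5 := cs.length_mul_le (cs.simple t) (cs.simple s * w')
          rw [← h4, cs.length_simple] at h5
          omega
      have := ih (cs.length w') (by omega) w' rfl s hlen2 x hx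
      rw [hphi]
      unfold refl
      rw [form_sub_left, form_smul_left, form_comm (nm F t), horth]; linarith
    · have h1 := ih (cs.length w') (by omega) w' rfl t (by rw [← hwt]; omega) x hx
      have hcf := hF.nm_cf t s (Ne.symm hst) (fun h => hc ⟨h.1.symm, h.2.symm⟩)
      have hyr : IsH (refl (nm F t) ((phi F hF w' : V4 ≃ₗ[ℝ] V4) x)) := isH_refl (hF.nm_unit t) hy
      rw [hphi]
      refine (half_spaces hcf hyr.tl ?_).le
      unfold refl
      rw [form_sub_left, form_smul_left, hF.nm_unit]; linarith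

/-- Tits' lemma: points of the chamber moved into the chamber are fixed. -/
lemma tits (F : Fr) (hF : IsOct F) {P : W → Prop} {x : V4} (hx : x ∈ Ch F) (h1 : P 1)
    (hs : ∀ s w, form x (nm F s) = 0 → P w → P (cs.simple s * w)) :
    ∀ (n : ℕ) (w : W), cs.length w = n → (phi F hF w : V4 ≃ₗ[ℝ] V4) x ∈ Ch F →
    (phi F hF w : V4 ≃ₗ[ℝ] V4) x = x ∧ P w := by
  intro n
  induction n with
  | zero =>
    intro w hw _
    rw [cs.length_eq_zero_iff.mp hw]
    exact ⟨by rw [map_one]; rfl, h1⟩
  | succ n ih =>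
    intro w hw hwx
    have hw1 : w ≠ 1 := by
      rintro rfl; rw [cs.length_one] at hw; omega
    obtain ⟨s, hs'⟩ := cs.exists_leftDescent_of_ne_one hw1
    have hs'' := cs.isLeftDescent_iff.mp hs'
    set w' := cs.simple s * w with hw'
    have hwt : w = cs.simple s * w' := by
      rw [hw', cs.simple_mul_simple_cancel_left]
    have hphi : (phi F hF w : V4 ≃ₗ[ℝ] V4) x = refl (nm F s) ((phi F hF w' : V4 ≃ₗ[ℝ] V4) x) := by
      rw [hwt, map_mul, phi_simple]; rfl
    have h2 := sign_lemma F hF (cs.length w') w' rfl s (by rw [← hwt]; omega) x hx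
    have h3 := hwx.2 s
    rw [hphi] at h3
    have h4 : form ((phi F hF w' : V4 ≃ₗ[ℝ] V4) x) (nm F s) = 0 := by
      unfold refl at h3
      rw [form_sub_left, form_smul_left, hF.nm_unit] at h3
      linarith
    have h5 : (phi F hF w : V4 ≃ₗ[ℝ] V4) x = (phi F hF w' : V4 ≃ₗ[ℝ] V4) x := by
      rw [hphi, refl_of_orth h4]
    obtain ⟨h6, h7⟩ := ih w' (by omega) (by rw [← h5]; exact hwx)
    refine ⟨by rw [h5, h6], ?_⟩
    rw [hwt]
    exact hs s w' (by rw [← h6]; exact h4) h7

end Run7.h606
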