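import Pool.Agent.Run7.h606.Statement

/-!
Working versions of the definitions, in terms of the subgroup `Iso3` itself.
-/

namespace Run7.h606

open Topology

/-- The isometry group of hyperbolic 3-space: the linear automorphisms of Minkowski space that
preserve the Lorentz form and the upper sheet. -/
def Iso3 : Subgroup (V4 ≃ₗ[ℝ] V4) where
  carrier := {g | (∀ x y, form (g x) (g y) = form x y) ∧ ∀ x, IsH (g x) ↔ IsH x}
  mul_mem' {a b} ha hb := by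
    refine ⟨fun x y => ?_, fun x => ?_⟩
    · rw [LinearEquiv.mul_apply, LinearEquiv.mul_apply, ha.1, hb.1]
    · rw [LinearEquiv.mul_apply, ha.2, hb.2]
  one_mem' := ⟨fun x y => by simp, fun x => by simp⟩
  inv_mem' {a} ha := by
    have h : ∀ x, a (a⁻¹ x) = x := fun x => a.apply_symm_apply x
    refine ⟨fun x y => ?_, fun x => ?_⟩
    · rw [← ha.1, h, h]
    · rw [← ha.2, h]

/-- The action on hyperbolic 3-space. -/
instance : MulAction Iso3 H3 where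
  smul g x := ⟨(g : V4 ≃ₗ[ℝ] V4) x, (g.2.2 x).mpr x.2⟩
  one_smul x := by ext; rfl
  mul_smul g h x := by ext; rfl

/-- The orientation preserving isometries. -/
noncomputable def OrPres : Subgroup Iso3 := (LinearEquiv.det.comp Iso3.subtype).ker

/-- The group `SO₀(3,1;ℤ)`. -/
noncomputable def IntPts : Subgroup Iso3 where
  carrier := {g | g ∈ OrPres ∧ ∀ x, IsInt ((g : V4 ≃ₗ[ℝ] V4) x) ↔ IsInt x}
  mul_mem' {a b} ha hb := by
    refine ⟨mul_mem ha.1 hb.1, fun x => ?_⟩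
    rw [Subgroup.coe_mul, LinearEquiv.mul_apply, ha.2, hb.2]
  one_mem' := ⟨one_mem _, fun x => by simp⟩
  inv_mem' {a} ha := by
    refine ⟨inv_mem ha.1, fun x => ?_⟩
    rw [← ha.2]
    have h : (a : V4 ≃ₗ[ℝ] V4) (((a⁻¹ : Iso3) : V4 ≃ₗ[ℝ] V4) x) = x :=
      (a : V4 ≃ₗ[ℝ] V4).apply_symm_apply x
    rw [h]

structure IsClosedManifoldGroup (Γ : Subgroup Iso3) : Prop where
  orientation : Γ ≤ OrPres
  torsionFree : ∀ g ∈ Γ, ∀ n : ℕ, 0 < n → g ^ n = 1 → g = 1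
  cocompact : ∃ K : Set H3, IsCompact K ∧ ∀ x, ∃ g ∈ Γ, g • x ∈ K

structure IsIntegralManifoldGroup (Γ : Subgroup Iso3) : Prop where
  orientation : Γ ≤ OrPres
  torsionFree : ∀ g ∈ Γ, ∀ n : ℕ, 0 < n → g ^ n = 1 → g = 1
  integral : ∃ h : Iso3, Γ.map (MulAut.conj h).toMonoidHom ≤ IntPts ∧
    (Γ.map (MulAut.conj h).toMonoidHom).relIndex IntPts ≠ 0

structure IsGeodesicLink (Γ : Subgroup Iso3) (L : Set (Set H3)) : Prop where
  line : ∀ l ∈ L, IsLine l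
  invariant : ∀ g ∈ Γ, ∀ l ∈ L, (fun x => g • x) '' l ∈ L
  disjoint : ∀ l ∈ L, ∀ l' ∈ L, l ≠ l' → Disjoint l l'
  closed : ∀ l ∈ L, ∃ g ∈ Γ, g ≠ 1 ∧ (fun x => g • x) '' l = l
  finite : ∃ S : Set (Set H3), S.Finite ∧ S ⊆ L ∧ ∀ l ∈ L, ∃ g ∈ Γ, ∃ l' ∈ S,
    l = (fun x => g • x) '' l'

structure IsGeometricFilling (ΓN ΓM : Subgroup Iso3) (ρ : unitInterval → ΓN →* Iso3)
    (D : unitInterval → H3 → H3) (L : Set (Set H3)) : Prop where
  continuous : Continuous fun p : unitInterval × H3 => D p.1 p.2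
  continuous_holonomy : ∀ (g : ΓN) (x : H3), Continuous fun t => ρ t g • x
  orientation : ∀ t g, ρ t g ∈ OrPres
  localHomeo : ∀ t, IsLocalHomeomorph (D t)
  equivariant : ∀ t (g : ΓN) x, D t ((g : Iso3) • x) = ρ t g • D t x
  start : ∀ x, D 0 x = x
  start_holonomy : ∀ g : ΓN, ρ 0 g = g
  link : IsGeodesicLink ΓM L
  end_holonomy : ∀ g, ρ 1 g ∈ ΓM
  end_range : Set.range (D 1) = (⋃₀ L)ᶜ
  end_injective : ∀ x y, (∃ γ ∈ ΓM, γ • D 1 x = D 1 y) → ∃ g ∈ ΓN, g • x = y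

def ObtainedGeometrically (ΓN ΓM : Subgroup Iso3) : Prop :=
  ∃ ρ D L, IsGeometricFilling ΓN ΓM ρ D L

end Run7.h606
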