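import Pool.Agent.Run7.h606.Cover

namespace Run7.h606

open Filter Topology

/-! ### General topology -/

lemma continuousAt_of_cover {ι X Y : Type*} [Finite ι] [TopologicalSpace X] [TopologicalSpace Y]
    {f : X → Y} {x0 : X} (A : ι → Set X) (hcov : ∀ᶠ x in 𝓝 x0, ∃ q, x ∈ A q)
    (h : ∀ q, (∀ᶠ x in 𝓝 x0, x ∉ A q) ∨ ContinuousWithinAt f (A q) x0) :
    ContinuousAt f x0 := by
  have h1 : ContinuousWithinAt f (⋃ q, A q) x0 := by
    unfold ContinuousWithinAt
    rw [nhdsWithin_iUnion, tendsto_iSup]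
    intro q
    rcases h q with h | h
    · have : 𝓝[A q] x0 = ⊥ := by
        rw [nhdsWithin, inf_principal_eq_bot]
        exact h
      rw [this]; exact tendsto_bot
    · exact h
  have h2 : (⋃ q, A q) ∈ 𝓝 x0 := by
    filter_upwards [hcov] with x hx
    exact Set.mem_iUnion.mpr hx
  exact h1.continuousAt h2

lemma isLocalHomeomorph_of {X Y : Type*} [TopologicalSpace X] [TopologicalSpace Y] {f : X → Y}
    (hf : Continuous f) (h : ∀ x0, ∃ E : Y → X, ContinuousAt E (f x0) ∧ E (f x0) = x0 ∧
      (∀ᶠ y in 𝓝 (f x0), f (E y) = y) ∧ ∀ᶠ x in 𝓝 x0, E (f x) = x) :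
    IsLocalHomeomorph f := by
  have hopen : IsOpenMap f := by
    rw [isOpenMap_iff_nhds_le]
    intro x0 V hV
    obtain ⟨E, h1, h2, h3, _⟩ := h x0
    have h4 : ∀ᶠ y in 𝓝 (f x0), E y ∈ f ⁻¹' V := by
      have := h1.tendsto
      rw [h2] at this
      exact this hV
    filter_upwards [h3, h4] with y hy1 hy2
    have : f (E y) ∈ V := hy2
    rwa [hy1] at this
  rw [isLocalHomeomorph_iff_isOpenEmbedding_restrict]
  intro x0
  obtain ⟨E, _, _, _, h4⟩ := h x0
  obtain ⟨U, hU1, hU2, hU3⟩ := mem_nhds_iff.mp h4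
  refine ⟨U, hU2.mem_nhds hU3, ?_⟩
  refine IsOpenEmbedding.of_continuous_injective_isOpenMap (hf.comp continuous_subtype_val) ?_
    (hopen.domRestrict hU2)
  intro a b hab
  have h5 : f a = f b := hab
  have h6 : E (f a) = a := hU1 a.2
  have h7 : E (f b) = b := hU1 b.2
  apply Subtype.ext
  rw [← h6, ← h7, h5]

/-! ### Neighbourhoods of points of a cell -/

lemma continuous_ht (F : Fr) (s : Gn) : Continuous (ht F s) := by
  obtain ⟨b, i⟩ := s
  cases b
  · have : ht F (false, i) = fun y => coord F y i := by funext y; rw [ht_false]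
    rw [this]
    exact (continuous_apply i).comp (continuous_coord_right F)
  · have : ht F (true, i) = fun y => - form y (F i) := by funext y; rw [ht_true]
    rw [this]
    exact (continuous_form continuous_id continuous_const).neg

lemma frel_ratio {s : Gn} {F F' : Fr} (hF : IsFr F) (hF' : IsFr F') (h : Frel s F F') :
    ∃ c : ℝ, 0 < c ∧ ∀ y, ht F s y = -(c * ht F' s y) := by
  obtain ⟨b, i⟩ := s
  cases b
  · rw [frel_false] at h
    refine ⟨- coord F (F' i) i, by linarith [h.2], fun y => ?_⟩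
    rw [ht_false, ht_false, coord_change hF hF' h.1 y]; ring
  · rw [frel_true] at h
    refine ⟨1, one_pos, fun y => ?_⟩
    rw [ht_true, ht_true, h]
    show _ = -(1 * -form y (refl (F i) (F i)))
    rw [refl_self (hF.unit i), form_neg_right]; ring

lemma Cell.ht_nonneg {F : Fr} {y : V4} (hy : Cell F y) (s : Gn) : 0 ≤ ht F s y := by
  obtain ⟨b, i⟩ := s
  cases b
  · rw [ht_false]; exact hy.nn i
  · rw [ht_true]; linarith [hy.sn i]

/-- All faces other than `s`, `s'` are at positive distance. -/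
structure Spec (F : Fr) (s s' : Gn) (x : V4) : Prop where
  c1 : s.1 ≠ s'.1
  c2 : s.2 ≠ s'.2
  cell : Cell F x
  pos : ∀ u, u ≠ s → u ≠ s' → 0 < ht F u x

lemma Spec.symm {F : Fr} {s s' : Gn} {x : V4} (h : Spec F s s' x) : Spec F s' s x :=
  ⟨h.c1.symm, h.c2.symm, h.cell, fun u h1 h2 => h.pos u h2 h1⟩

lemma exists_spec {F : Fr} (hF : IsFr F) {x : V4} (hx : Cell F x) :
    ∃ i j, Spec F (false, i) (true, j) x := by
  obtain ⟨i, hi⟩ := exists_special hx.nn hx.a2
  obtain ⟨j, hj⟩ := exists_special (a := fun k => - form x (F k))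
    (fun k => by linarith [hx.sn k]) fun k l h => by
      rcases hx.s2 hF h with h | h
      · left; linarith
      · right; linarith
  have key : ∀ i j : Fin 4, i ≠ j → (∀ k, k ≠ i → 0 < coord F x k) →
      (∀ k, k ≠ j → 0 < - form x (F k)) → Spec F (false, i) (true, j) x := by
    intro i j hij h1 h2
    refine ⟨by simp, hij, hx, ?_⟩
    rintro ⟨b, k⟩ hk1 hk2
    cases b
    · rw [ht_false]; exact h1 k fun e => hk1 (by rw [e])
    · rw [ht_true]; exact h2 k fun e => hk2 (by rw [e])
  by_cases hij : i = j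
  · subst hij
    obtain ⟨k, hk, _⟩ := exists_ne_ne i i
    rcases (hx.nn i).lt_or_eq with h | h
    · refine ⟨k, i, key k i hk (fun l _ => ?_) hj⟩
      by_cases hl : l = i
      · rw [hl]; exact h
      · exact hi l hl
    · refine ⟨i, k, key i k hk.symm hi fun l _ => ?_⟩
      by_cases hl : l = i
      · rw [hl]
        have h1 := sv_ge hF.gd hx.nn i
        rw [sv_coord hF, ← h] at h1
        linarith [hx.sum_pos]
      · exact hj l hl
  · exact ⟨i, j, key i j hij hi hj⟩

lemma Spec.nbhd {F : Fr} {s s' : Gn} {x : V4} (hx : Spec F s s' x) :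
    ∀ᶠ y in 𝓝 x, IsH y → 0 ≤ ht F s y → 0 ≤ ht F s' y → Cell F y := by
  have h1 : ∀ᶠ y in 𝓝 x, ∀ u, u ≠ s → u ≠ s' → 0 < ht F u y := by
    rw [eventually_all]
    intro u
    by_cases h : u = s
    · exact Eventually.of_forall fun y h' => absurd h h'
    by_cases h2 : u = s'
    · exact Eventually.of_forall fun y _ h' => absurd h2 h'
    have := (continuous_ht F u).continuousAt.eventually (lt_mem_nhds (hx.pos u h h2))
    filter_upwards [this] with y hy _ _
    exact hy
  filter_upwards [h1] with y hy hH hs hs'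
  have hall : ∀ u, 0 ≤ ht F u y := by
    intro u
    by_cases h : u = s
    · rw [h]; exact hs
    by_cases h2 : u = s'
    · rw [h2]; exact hs'
    exact (hy u h h2).le
  refine ⟨hH, fun i => ?_, fun i => ?_, fun i j hij => ?_⟩
  · have := hall (false, i); rwa [ht_false] at this
  · have := hall (true, i); rw [ht_true] at this; linarith
  · by_cases h1 : (false, i) = s
    · right
      have h2 : ((false, j) : Gn) ≠ s := by
        rw [← h1]; intro e; exact hij (by simpa using e.symm)
      have h3 : ((false, j) : Gn) ≠ s' := by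
        intro e
        apply hx.c1
        rw [← h1, ← e]
      have := hy _ h2 h3; rwa [ht_false] at this
    by_cases h1' : (false, i) = s'
    · right
      have h2 : ((false, j) : Gn) ≠ s' := by
        rw [← h1']; intro e; exact hij (by simpa using e.symm)
      have h3 : ((false, j) : Gn) ≠ s := by
        intro e
        apply hx.c1
        rw [← h1', ← e]
      have := hy _ h3 h2; rwa [ht_false] at this
    left
    have := hy _ h1 h1'; rwa [ht_false] at this

lemma Spec.step {F F1 : Fr} {s s' : Gn} {x : V4} (hF : IsFr F) (hF1 : IsFr F1)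
    (hx : Spec F s s' x) (h : Frel s F F1) (h0 : ht F s x = 0) : Spec F1 s s' x := by
  obtain ⟨h1, _, h3⟩ := frel_cell hF hF1 h hx.cell h0
  exact ⟨hx.c1, hx.c2, h1, fun u hu hu' => h3 u (hx.pos u hu hu')⟩

lemma Spec.zero_or {F : Fr} {s s' : Gn} {x : V4} (hx : Spec F s s' x) (u : Gn) :
    ht F u x = 0 ∨ ∀ᶠ y in 𝓝 x, 0 < ht F u y := by
  rcases (hx.cell.ht_nonneg u).lt_or_eq with h | h
  · exact Or.inr ((continuous_ht F u).continuousAt.eventually (lt_mem_nhds h))
  · exact Or.inl h.symm

lemma Spec.nbhd1 {F F1 : Fr} {s s' : Gn} {x : V4} (hF : IsFr F) (hF1 : IsFr F1)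
    (hx : Spec F s s' x) (h : Frel s F F1) :
    ∀ᶠ y in 𝓝 x, IsH y → ht F s y ≤ 0 → 0 ≤ ht F s' y → Cell F1 y := by
  rcases hx.zero_or s with h0 | h0
  · filter_upwards [(hx.step hF hF1 h h0).nbhd] with y hy hH h1 h2
    exact hy hH (frel_sign hF hF1 h y h1) (by
      rw [frel_comm_ht hF hF1 h hx.c1 hx.c2]; exact h2)
  · filter_upwards [h0] with y hy _ h1
    exact absurd h1 (not_le.mpr hy)

lemma Spec.nbhd2 {F F1 F12 : Fr} {s s' : Gn} {x : V4} (hF : IsFr F) (hF1 : IsFr F1)
    (hF12 : IsFr F12) (hx : Spec F s s' x) (h : Frel s F F1) (h' : Frel s' F1 F12) :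
    ∀ᶠ y in 𝓝 x, IsH y → ht F s y ≤ 0 → ht F s' y ≤ 0 → Cell F12 y := by
  rcases hx.zero_or s with h0 | h0
  · filter_upwards [(hx.step hF hF1 h h0).symm.nbhd1 hF1 hF12 h'] with y hy hH h1 h2
    exact hy hH (by rw [frel_comm_ht hF hF1 h hx.c1 hx.c2]; exact h2)
      (frel_sign hF hF1 h y h1)
  · filter_upwards [h0] with y hy _ h1
    exact absurd h1 (not_le.mpr hy)

/-! ### The four states around an edge of the octahedron -/

section
variable {T : Set Fr} (hT : IsMirroredTessellation T)

/-- The four states around an edge. -/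
noncomputable def sq (s s' : Gn) (F : State T) (q : Bool × Bool) : State T :=
  match q with
  | (false, false) => F
  | (true, false) => mv hT s F
  | (false, true) => mv hT s' F
  | (true, true) => mv hT s' (mv hT s F)

lemma star_cover {s s' : Gn} {F : State T} {t : unitInterval} {x : V4}
    (hx : Spec (F.f t) s s' x) :
    ∀ᶠ y in 𝓝 x, IsH y → ∃ q, Cell ((sq hT s s' F q).f t) y := by
  filter_upwards [hx.nbhd, hx.nbhd1 (F.fr t) (State.fr _ t) (mv_rel hT s F t),
    hx.symm.nbhd1 (F.fr t) (State.fr _ t) (mv_rel hT s' F t),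
    hx.nbhd2 (F.fr t) (State.fr _ t) (State.fr _ t) (mv_rel hT s F t)
      (mv_rel hT s' (mv hT s F) t)] with y h1 h2 h3 h4 hH
  rcases le_total 0 (ht (F.f t) s y) with a | a <;>
    rcases le_total 0 (ht (F.f t) s' y) with b | b
  · exact ⟨(false, false), h1 hH a b⟩
  · exact ⟨(false, true), h3 hH b a⟩
  · exact ⟨(true, false), h2 hH a b⟩
  · exact ⟨(true, true), h4 hH a b⟩

lemma cell_sign {s : Gn} {F : State T} {t : unitInterval} {y : V4}
    (hy : 0 ≤ ht ((mv hT s F).f t) s y) : ht (F.f t) s y ≤ 0 := by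
  obtain ⟨c, hc, h⟩ := frel_ratio (F.fr t) (State.fr _ t) (mv_rel hT s F t)
  rw [h]
  nlinarith

lemma star_closed {s s' : Gn} {F : State T} {t : unitInterval} {x : V4}
    (hx : Spec (F.f t) s s' x) (q : Bool × Bool) :
    Cell ((sq hT s s' F q).f t) x ∨ ∀ᶠ y in 𝓝 x, ¬ Cell ((sq hT s s' F q).f t) y := by
  rcases q with ⟨_ | _, _ | _⟩
  · exact Or.inl hx.cell
  · rcases hx.zero_or s' with h0 | h0
    · exact Or.inl (hx.symm.step (F.fr t) (State.fr _ t) (mv_rel hT s' F t) h0).cell
    · right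
      filter_upwards [h0] with y hy hc
      exact absurd (cell_sign hT (hc.ht_nonneg s')) (not_le.mpr hy)
  · rcases hx.zero_or s with h0 | h0
    · exact Or.inl (hx.step (F.fr t) (State.fr _ t) (mv_rel hT s F t) h0).cell
    · right
      filter_upwards [h0] with y hy hc
      exact absurd (cell_sign hT (hc.ht_nonneg s)) (not_le.mpr hy)
  · have hcomm : ∀ y, ht ((mv hT s F).f t) s' y = ht (F.f t) s' y := fun y =>
      frel_comm_ht (F.fr t) (State.fr _ t) (mv_rel hT s F t) hx.c1 hx.c2 y
    have hcomm2 : ∀ y, ht ((mv hT s' (mv hT s F)).f t) s y = ht ((mv hT s F).f t) s y :=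
      fun y => frel_comm_ht (State.fr _ t) (State.fr _ t) (mv_rel hT s' _ t) hx.c1.symm
        hx.c2.symm y
    rcases hx.zero_or s with h0 | h0
    · rcases hx.zero_or s' with h0' | h0'
      · left
        have h1 := (hx.step (F.fr t) (State.fr _ t) (mv_rel hT s F t) h0)
        exact (h1.symm.step (State.fr _ t) (State.fr _ t) (mv_rel hT s' _ t)
          (by rw [hcomm]; exact h0')).cell
      · right
        filter_upwards [h0'] with y hy hc
        have := cell_sign hT (hc.ht_nonneg s')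
        rw [hcomm] at this
        exact absurd this (not_le.mpr hy)
    · right
      filter_upwards [h0] with y hy hc
      have h2 := hc.ht_nonneg s
      have h3 : 0 ≤ ht ((mv hT s F).f t) s y := by rw [← hcomm2]; exact h2
      exact absurd (cell_sign hT h3) (not_le.mpr hy)

lemma agree1 (s : Gn) (F : State T) {t t' : unitInterval} {y : V4} (h : Cell (F.f t) y)
    (h' : Cell ((mv hT s F).f t) y) :
    TR ((mv hT s F).f t) ((mv hT s F).f t') y = TR (F.f t) (F.f t') y := by
  have h0 : ht (F.f t) s y = 0 :=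
    le_antisymm (cell_sign hT (h'.ht_nonneg s)) (h.ht_nonneg s)
  exact frel_TR (F.fr t) (State.fr _ t) (F.fr t') (State.fr _ t') (mv_rel hT s F t)
    (mv_rel hT s F t') h h0

lemma agree2 {s s' : Gn} (c1 : s.1 ≠ s'.1) (c2 : s.2 ≠ s'.2) (F : State T)
    {t t' : unitInterval} {y : V4} (h : Cell (F.f t) y)
    (h' : Cell ((mv hT s' (mv hT s F)).f t) y) :
    TR ((mv hT s' (mv hT s F)).f t) ((mv hT s' (mv hT s F)).f t') y =
      TR (F.f t) (F.f t') y := by
  have hcomm2 : ht ((mv hT s' (mv hT s F)).f t) s y = ht ((mv hT s F).f t) s y :=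
    frel_comm_ht (State.fr _ t) (State.fr _ t) (mv_rel hT s' _ t) c1.symm c2.symm y
  have h0 : ht (F.f t) s y = 0 := by
    refine le_antisymm (cell_sign hT ?_) (h.ht_nonneg s)
    rw [← hcomm2]; exact h'.ht_nonneg s
  have h1 := (frel_cell (F.fr t) (State.fr _ t) (mv_rel hT s F t) h h0).1
  rw [agree1 hT s' _ h1 h', agree1 hT s _ h h1]

lemma star_agree {s s' : Gn} (c1 : s.1 ≠ s'.1) (c2 : s.2 ≠ s'.2) (F : State T)
    {t t' : unitInterval} {y : V4} (q r : Bool × Bool)
    (h : Cell ((sq hT s s' F q).f t) y) (h' : Cell ((sq hT s s' F r).f t) y) :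
    TR ((sq hT s s' F q).f t) ((sq hT s s' F q).f t') y =
      TR ((sq hT s s' F r).f t) ((sq hT s s' F r).f t') y := by
  have e1 : mv hT s' (mv hT s F) = mv hT s (mv hT s' F) := (mv_comm hT c1 c2 F).symm
  have e2 : mv hT s' F = mv hT s' (mv hT s (mv hT s F)) := by rw [mv_mv]
  rcases q with ⟨_ | _, _ | _⟩ <;> rcases r with ⟨_ | _, _ | _⟩ <;>
    simp only [sq] at h h' ⊢
  · exact (agree1 hT s' F h h').symm
  · exact (agree1 hT s F h h').symm
  · exact (agree2 hT c1 c2 F h h').symm
  · exact agree1 hT s' F h' h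
  · rw [e2] at h ⊢; exact agree2 hT c1 c2 (mv hT s F) h' h
  · rw [e1] at h' ⊢; exact (agree1 hT s _ h h').symm
  · exact agree1 hT s F h' h
  · rw [e2] at h' ⊢; exact (agree2 hT c1 c2 (mv hT s F) h h').symm
  · exact (agree1 hT s' _ h h').symm
  · exact agree2 hT c1 c2 F h' h
  · rw [e1] at h ⊢; exact agree1 hT s _ h' h
  · exact agree1 hT s' _ h' h

/-! ### The developing maps -/

variable (F0 : State T)

/-- The states of the orbit of the base state. -/
def InS (G : State T) : Prop := ∃ w π, G = (stt hT F0 w).comp hT π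

lemma inS_stt (w : W) : InS hT F0 (stt hT F0 w) :=
  ⟨w, 1, State.ext' fun t => by rw [comp_f]; rfl⟩

variable {F0}

lemma InS.mv {G : State T} (h : InS hT F0 G) (s : Gn) : InS hT F0 (Run7.h606.mv hT s G) := by
  obtain ⟨w, π, rfl⟩ := h
  obtain ⟨b, i⟩ := s
  rw [mv_comp, ← stt_mul]
  exact ⟨_, _, rfl⟩

lemma InS.comp {G : State T} (h : InS hT F0 G) (π : Equiv.Perm (Fin 4)) :
    InS hT F0 (G.comp hT π) := by
  obtain ⟨w, π', rfl⟩ := h
  exact ⟨w, π' * π, State.ext' fun t => by rw [comp_f, comp_f, comp_f]; rfl⟩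

lemma InS.sq {G : State T} (h : InS hT F0 G) (s s' : Gn) (q : Bool × Bool) :
    InS hT F0 (Run7.h606.sq hT s s' G q) := by
  rcases q with ⟨_ | _, _ | _⟩
  · exact h
  · exact h.mv hT s'
  · exact h.mv hT s
  · exact (h.mv hT s).mv hT s'

variable (F0)

lemma exists_cell (x : H3) : ∃ w : W, Cell ((stt hT F0 w).f 0) (x : V4) :=
  stt_cover hT F0 x.2

/-- The developing maps. -/
noncomputable def Dv (t : unitInterval) (x : H3) : H3 :=
  ⟨TR ((stt hT F0 (exists_cell hT F0 x).choose).f 0)
    ((stt hT F0 (exists_cell hT F0 x).choose).f t) x,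
    (TR_cell (State.fr _ 0) (State.fr _ t) (exists_cell hT F0 x).choose_spec).isH⟩

variable {F0}

lemma Dv_eq {G : State T} (hG : InS hT F0 G) (t : unitInterval) {x : H3}
    (hx : Cell (G.f 0) (x : V4)) : (Dv hT F0 t x : V4) = TR (G.f 0) (G.f t) x := by
  obtain ⟨w, π, rfl⟩ := hG
  have h1 : Cell ((stt hT F0 w).f 0) (x : V4) := by
    have := hx.comp (State.fr _ 0) π⁻¹
    rw [comp_f] at this
    have h2 : ((stt hT F0 w).f 0 ∘ π) ∘ (π⁻¹ : Equiv.Perm (Fin 4)) = (stt hT F0 w).f 0 := by
      funext k; simp [Function.comp]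
    rwa [h2] at this
  rw [comp_f, comp_f, TR_comp (State.fr _ 0) (State.fr _ t) h1]
  exact TR_well hT F0 h1 (exists_cell hT F0 x).choose_spec t

lemma Dv_cell {G : State T} (hG : InS hT F0 G) (t : unitInterval) {x : H3}
    (hx : Cell (G.f 0) (x : V4)) : Cell (G.f t) (Dv hT F0 t x : V4) := by
  rw [Dv_eq hT hG t hx]; exact TR_cell (State.fr _ 0) (State.fr _ t) hx

lemma Dv_zero (x : H3) : Dv hT F0 0 x = x := by
  obtain ⟨w, hw⟩ := exists_cell hT F0 x
  apply Subtype.ext
  rw [Dv_eq hT (inS_stt hT F0 w) 0 hw, TR_self (State.fr _ 0) hw]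

lemma star_cover' {s s' : Gn} {F : State T} {t : unitInterval} {x : H3}
    (hx : Spec (F.f t) s s' (x : V4)) :
    ∀ᶠ y : H3 in 𝓝 x, ∃ q, Cell ((sq hT s s' F q).f t) (y : V4) := by
  have := (continuous_subtype_val (p := IsH)).continuousAt.eventually (star_cover hT hx)
  filter_upwards [this] with y hy
  exact hy y.2

lemma star_closed' {s s' : Gn} {F : State T} {t : unitInterval} {x : H3}
    (hx : Spec (F.f t) s s' (x : V4)) (q : Bool × Bool) :
    Cell ((sq hT s s' F q).f t) (x : V4) ∨
      ∀ᶠ y : H3 in 𝓝 x, ¬ Cell ((sq hT s s' F q).f t) (y : V4) := by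
  rcases star_closed hT hx q with h | h
  · exact Or.inl h
  · exact Or.inr ((continuous_subtype_val (p := IsH)).continuousAt.eventually h)

lemma continuous_Dv : Continuous fun p : unitInterval × H3 => Dv hT F0 p.1 p.2 := by
  rw [continuous_iff_continuousAt]
  rintro ⟨t0, x0⟩
  obtain ⟨w, hw⟩ := exists_cell hT F0 x0
  set F := stt hT F0 w with hF
  have hFS : InS hT F0 F := inS_stt hT F0 w
  obtain ⟨i, j, hsp⟩ := exists_spec (F.fr 0) hw
  refine tendsto_subtype_rng.mpr ?_
  refine continuousAt_of_cover (ι := Bool × Bool)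
    (fun q => {p : unitInterval × H3 |
      Cell ((sq hT (false, i) (true, j) F q).f 0) (p.2 : V4)}) ?_ ?_
  · exact continuous_snd.continuousAt.eventually (star_cover' hT hsp)
  · intro q
    rcases star_closed' hT hsp q with h | h
    · right
      set G := sq hT (false, i) (true, j) F q with hG
      have hGS : InS hT F0 G := hFS.sq hT _ _ q
      have h1 : ContinuousOn (fun p : unitInterval × H3 => TR (G.f 0) (G.f p.1) (p.2 : V4))
          {p : unitInterval × H3 | Cell (G.f 0) (p.2 : V4)} := by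
        refine continuousOn_TR.comp (f := fun p : unitInterval × H3 =>
          ((G.f 0, G.f p.1, (p.2 : V4)) : Fr × Fr × V4)) ?_ ?_
        · exact (continuous_const.prodMk ((G.cont.comp continuous_fst).prodMk
            (continuous_subtype_val.comp continuous_snd))).continuousOn
        · intro p hp
          exact ⟨G.fr 0, G.fr p.1, hp⟩
      have h2 := h1 (t0, x0) h
      refine h2.congr (fun p hp => ?_) ?_
      · exact Dv_eq hT hGS p.1 hp
      · exact Dv_eq hT hGS t0 h
    · left
      have hsnd : Tendsto (fun p : unitInterval × H3 => p.2) (𝓝 (t0, x0)) (𝓝 x0) :=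
        continuous_snd.continuousAt
      exact hsnd.eventually h

lemma continuous_Dv' (t : unitInterval) : Continuous (Dv hT F0 t) := by
  have h : Continuous fun x : H3 => ((t, x) : unitInterval × H3) :=
    continuous_const.prodMk continuous_id
  have h2 := Continuous.comp (g := fun p : unitInterval × H3 => Dv hT F0 p.1 p.2)
    (f := fun x : H3 => ((t, x) : unitInterval × H3)) (continuous_Dv hT) h
  exact h2

/-- The heights of the image point. -/
lemma spec_Dv {G : State T} (hG : InS hT F0 G) (t : unitInterval) {x : H3} {s s' : Gn}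
    (hx : Spec (G.f 0) s s' (x : V4)) : Spec (G.f t) s s' (Dv hT F0 t x : V4) := by
  have hc := Dv_cell hT hG t hx.cell
  refine ⟨hx.c1, hx.c2, hc, fun u hu hu' => ?_⟩
  refine lt_of_le_of_ne (hc.ht_nonneg u) fun h0 => ?_
  have h1 := hx.pos u hu hu'
  rw [Dv_eq hT hG t hx.cell] at h0
  obtain ⟨b, i⟩ := u
  cases b
  · rw [ht_false] at h0 h1
    exact h1.ne' ((TR_coord_zero (G.fr 0) (G.fr t) hx.cell i).mp h0.symm)
  · rw [ht_true] at h0 h1
    have h2 := (TR_form_zero (G.fr 0) (G.fr t) hx.cell i).mp (by linarith)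
    rw [h2] at h1; linarith

lemma Dv_localHomeo (t : unitInterval) : IsLocalHomeomorph (Dv hT F0 t) := by
  classical
  refine isLocalHomeomorph_of (continuous_Dv' hT t) fun x0 => ?_
  obtain ⟨w, hw⟩ := exists_cell hT F0 x0
  set F := stt hT F0 w with hF
  have hFS : InS hT F0 F := inS_stt hT F0 w
  obtain ⟨i, j, hsp⟩ := exists_spec (F.fr 0) hw
  have hsp' := spec_Dv hT hFS t hsp
  set G : Bool × Bool → State T := fun q => sq hT (false, i) (true, j) F q with hG
  have hGS : ∀ q, InS hT F0 (G q) := fun q => hFS.sq hT _ _ q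
  set E : H3 → H3 := fun y => if h : ∃ q, Cell ((G q).f t) (y : V4) then
    ⟨TR ((G h.choose).f t) ((G h.choose).f 0) y,
      (TR_cell (State.fr _ t) (State.fr _ 0) h.choose_spec).isH⟩ else y with hE
  have hEeq : ∀ (q) (y : H3), Cell ((G q).f t) (y : V4) →
      (E y : V4) = TR ((G q).f t) ((G q).f 0) y := by
    intro q y hy
    have h : ∃ q, Cell ((G q).f t) (y : V4) := ⟨q, hy⟩
    have h1 : (E y : V4) = TR ((G h.choose).f t) ((G h.choose).f 0) y := by
      rw [hE]
      exact congrArg Subtype.val (dif_pos h)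
    rw [h1]
    exact star_agree (t := t) (t' := 0) hT hsp.c1 hsp.c2 F h.choose q h.choose_spec hy
  have hED : ∀ (q) (x : H3), Cell ((G q).f 0) (x : V4) → E (Dv hT F0 t x) = x := by
    intro q x hx
    have h1 := Dv_cell hT (hGS q) t hx
    apply Subtype.ext
    rw [hEeq q _ h1, Dv_eq hT (hGS q) t hx, TR_TR (State.fr _ 0) (State.fr _ t) hx]
  have hDE : ∀ (q) (y : H3), Cell ((G q).f t) (y : V4) → Dv hT F0 t (E y) = y := by
    intro q y hy
    have h1 : Cell ((G q).f 0) (E y : V4) := by
      rw [hEeq q y hy]; exact TR_cell (State.fr _ t) (State.fr _ 0) hy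
    apply Subtype.ext
    rw [Dv_eq hT (hGS q) t h1, hEeq q y hy, TR_TR (State.fr _ t) (State.fr _ 0) hy]
  refine ⟨E, ?_, hED (false, false) x0 hw, ?_, ?_⟩
  · refine tendsto_subtype_rng.mpr ?_
    refine continuousAt_of_cover (ι := Bool × Bool)
      (fun q => {y : H3 | Cell ((G q).f t) (y : V4)}) (star_cover' hT hsp') ?_
    intro q
    rcases star_closed' hT hsp' q with h | h
    · right
      have h1 : ContinuousOn (fun y : H3 => TR ((G q).f t) ((G q).f 0) (y : V4))
          {y : H3 | Cell ((G q).f t) (y : V4)} := by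
        refine continuousOn_TR.comp (f := fun y : H3 =>
          (((G q).f t, (G q).f 0, (y : V4)) : Fr × Fr × V4)) ?_ ?_
        · exact (continuous_const.prodMk (continuous_const.prodMk
            continuous_subtype_val)).continuousOn
        · intro y hy
          exact ⟨(G q).fr t, (G q).fr 0, hy⟩
      exact (h1 _ h).congr (fun y hy => hEeq q y hy) (hEeq q _ h)
    · exact Or.inl h
  · filter_upwards [star_cover' hT hsp'] with y hy
    obtain ⟨q, hq⟩ := hy
    exact hDE q y hq
  · filter_upwards [star_cover' hT hsp] with x hx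
    obtain ⟨q, hq⟩ := hx
    exact hED q x hq

end

end Run7.h606
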