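import Pool.Agent.Run7.h606.Main

namespace Run7.h606

open Topology

/-- The two descriptions of the isometry group agree. -/
lemma isom_eq : Isom = ↥Iso3 := rfl

lemma mem_OrPres' (g : Isom) : (show Iso3 from g) ∈ OrPres ↔ g.Orient := by
  rw [Isom.orient_iff]
  exact mem_OrPres

lemma intPts_eq : (show Subgroup Isom from IntPts) = IntGroup := by
  ext g
  constructor
  · rintro ⟨h1, h2⟩
    exact ⟨(mem_OrPres' g).mp h1, h2⟩
  · rintro ⟨h1, h2⟩
    exact ⟨(mem_OrPres' g).mpr h1, h2⟩

theorem final (Γ : Subgroup Isom) (hΓ : ClosedManifoldGroup Γ) (T : Set (Fin 4 → V4))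
    (hT : IsMirroredTessellation T) (hinv : ∀ γ ∈ Γ, ∀ e ∈ T, (fun i => γ.lin (e i)) ∈ T) :
    ∃ ΓN : Subgroup Isom, ArithmeticManifoldGroup ΓN ∧ ObtainedGeom ΓN Γ := by
  have h1 : IsClosedManifoldGroup (show Subgroup Iso3 from Γ) :=
    ⟨fun g hg => (mem_OrPres' g).mpr (hΓ.orientation g hg), hΓ.torsionFree, hΓ.cocompact⟩
  obtain ⟨ΓN, hN, ρ, D, L, hF⟩ := main Γ h1 T hT hinv
  refine ⟨ΓN, ⟨hN.torsionFree, fun g hg => (mem_OrPres' g).mp (hN.orientation hg), ?_⟩,
    ρ, D, L, ?_⟩
  · obtain ⟨h, h2, h3⟩ := hN.integral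
    refine ⟨h, ?_, ?_⟩
    · rw [← intPts_eq]; exact h2
    · rw [← intPts_eq]; exact h3
  · exact {
      continuous := hF.continuous
      continuous_holonomy := hF.continuous_holonomy
      orientation := fun t g => (mem_OrPres' _).mp (hF.orientation t g)
      localHomeo := hF.localHomeo
      equivariant := hF.equivariant
      start := hF.start
      start_holonomy := hF.start_holonomy
      link := ⟨hF.link.line, hF.link.invariant, hF.link.disjoint, hF.link.closed,
        hF.link.finite⟩
      end_holonomy := hF.end_holonomy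
      end_range := hF.end_range
      end_injective := hF.end_injective }

end Run7.h606
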