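import Mathlib

namespace Run7.h606

/-- The determinant of the Gram matrix with diagonal `1` and off-diagonal entries
`-p, -q, -r, -u, -v, -w`. -/
def PG (p q r u v w : ℝ) : ℝ :=
  1 - (p^2+q^2+r^2+u^2+v^2+w^2) + (p^2*w^2+q^2*v^2+r^2*u^2)
    - 2*(p*q*u+p*r*v+q*r*w+u*v*w) - 2*(p*q*v*w+p*r*u*w+q*r*u*v)

/-- The logarithmic-type derivative of `PG` along rays from the regular ideal octahedron. -/
def EG (p q r u v w : ℝ) : ℝ :=
  -2*((p*(1-w^2)+u*q+v*r+w*(u*r+v*q))*(p-1) + (q*(1-v^2)+p*u+r*w+v*(p*w+u*r))*(q-1)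
    + (r*(1-u^2)+p*v+q*w+u*(p*w+q*v))*(r-1) + (u*(1-r^2)+p*q+v*w+r*(p*w+q*v))*(u-1)
    + (v*(1-q^2)+p*r+u*w+q*(p*w+r*u))*(v-1) + (w*(1-p^2)+q*r+u*v+p*(q*v+u*r))*(w-1))

lemma null_sign {p q r u v w v0 v1 v2 v3 : ℝ} (hp : 1 ≤ p) (hq : 1 ≤ q) (hr : 1 ≤ r)
    (hu : 1 ≤ u) (hv : 1 ≤ v) (hw : 1 ≤ w) (n0 : v0 < 0) (n1 : v1 ≠ 0) (n2 : v2 ≠ 0)
    (n3 : v3 ≠ 0) (e0 : v0 = p*v1 + q*v2 + r*v3) (e1 : v1 = p*v0 + u*v2 + v*v3)
    (e2 : v2 = q*v0 + u*v1 + w*v3) (e3 : v3 = r*v0 + v*v1 + w*v2) :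
    (v0+v1+v2+v3)^2 - 2*(v0^2+v1^2+v2^2+v3^2) < 0 := by
  have M : ∀ {x y : ℝ}, 1 ≤ x → y < 0 → x * y ≤ y := fun hx hy => by nlinarith
  have M' : ∀ {x y : ℝ}, 1 ≤ x → 0 < y → y ≤ x * y := fun hx hy => by nlinarith
  rcases lt_or_gt_of_ne n1 with a1 | a1 <;> rcases lt_or_gt_of_ne n2 with a2 | a2 <;>
      rcases lt_or_gt_of_ne n3 with a3 | a3
  · exfalso
    have := M hp a1; have := M hq a2; have := M hr a3
    have := M hp n0; have := M hu a2; have := M hv a3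
    have := M hq n0; have := M hu a1; have := M hw a3
    have := M hr n0; have := M hv a1; have := M hw a2
    linarith
  · exfalso
    have := M hr n0; have := M hv a1; have := M hw a2
    linarith
  · exfalso
    have := M hq n0; have := M hu a1; have := M hw a3
    linarith
  · nlinarith [mul_pos (neg_pos.mpr (add_neg n0 a1)) (add_pos a2 a3), sq_nonneg (v0 - v1),
        sq_nonneg (v2 - v3)]
  · exfalso
    have := M hp n0; have := M hu a2; have := M hv a3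
    linarith
  · nlinarith [mul_pos (neg_pos.mpr (add_neg n0 a2)) (add_pos a1 a3), sq_nonneg (v0 - v2),
        sq_nonneg (v1 - v3)]
  · nlinarith [mul_pos (neg_pos.mpr (add_neg n0 a3)) (add_pos a1 a2), sq_nonneg (v0 - v3),
        sq_nonneg (v1 - v2)]
  · exfalso
    have := M' hp a1; have := M' hq a2; have := M' hr a3
    linarith

lemma EG_pos {p q r u v w : ℝ} (hp : 1 ≤ p) (hq : 1 ≤ q) (hr : 1 ≤ r) (hu : 1 ≤ u)
    (hv : 1 ≤ v) (hw : 1 ≤ w) (h0 : PG p q r u v w = 0) : 0 < EG p q r u v w := by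
  obtain ⟨v0, hv0⟩ : ∃ x, x = 1 - u^2 - v^2 - w^2 - 2*u*v*w := ⟨_, rfl⟩
  obtain ⟨v1, hv1⟩ : ∃ x, x = p*(1-w^2)+u*q+v*r+w*(u*r+v*q) := ⟨_, rfl⟩
  obtain ⟨v2, hv2⟩ : ∃ x, x = q*(1-v^2)+p*u+r*w+v*(p*w+u*r) := ⟨_, rfl⟩
  obtain ⟨v3, hv3⟩ : ∃ x, x = r*(1-u^2)+p*v+q*w+u*(p*w+q*v) := ⟨_, rfl⟩
  have n0 : v0 < 0 := by
    rw [hv0]; nlinarith [mul_nonneg (mul_nonneg (by linarith : (0:ℝ) ≤ u)
      (by linarith : (0:ℝ) ≤ v)) (by linarith : (0:ℝ) ≤ w)]
  have c1 : 1 - q^2 - r^2 - w^2 - 2*q*r*w < 0 := by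
    nlinarith [mul_nonneg (mul_nonneg (by linarith : (0:ℝ) ≤ q)
      (by linarith : (0:ℝ) ≤ r)) (by linarith : (0:ℝ) ≤ w)]
  have c2 : 1 - p^2 - r^2 - v^2 - 2*p*r*v < 0 := by
    nlinarith [mul_nonneg (mul_nonneg (by linarith : (0:ℝ) ≤ p)
      (by linarith : (0:ℝ) ≤ r)) (by linarith : (0:ℝ) ≤ v)]
  have c3 : 1 - p^2 - q^2 - u^2 - 2*p*q*u < 0 := by
    nlinarith [mul_nonneg (mul_nonneg (by linarith : (0:ℝ) ≤ p)
      (by linarith : (0:ℝ) ≤ q)) (by linarith : (0:ℝ) ≤ u)]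
  -- squares of the null vector
  have s1 : v1^2 = v0 * (1 - q^2 - r^2 - w^2 - 2*q*r*w) := by
    have : v1^2 - v0 * (1 - q^2 - r^2 - w^2 - 2*q*r*w) = -(PG p q r u v w) * (1 - w^2) := by
      rw [hv0, hv1]; unfold PG; ring
    rw [h0] at this; linarith
  have s2 : v2^2 = v0 * (1 - p^2 - r^2 - v^2 - 2*p*r*v) := by
    have : v2^2 - v0 * (1 - p^2 - r^2 - v^2 - 2*p*r*v) = -(PG p q r u v w) * (1 - v^2) := by
      rw [hv0, hv2]; unfold PG; ring
    rw [h0] at this; linarith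
  have s3 : v3^2 = v0 * (1 - p^2 - q^2 - u^2 - 2*p*q*u) := by
    have : v3^2 - v0 * (1 - p^2 - q^2 - u^2 - 2*p*q*u) = -(PG p q r u v w) * (1 - u^2) := by
      rw [hv0, hv3]; unfold PG; ring
    rw [h0] at this; linarith
  have n1 : v1 ≠ 0 := by
    intro h; rw [h] at s1; nlinarith [mul_pos_of_neg_of_neg n0 c1]
  have n2 : v2 ≠ 0 := by
    intro h; rw [h] at s2; nlinarith [mul_pos_of_neg_of_neg n0 c2]
  have n3 : v3 ≠ 0 := by
    intro h; rw [h] at s3; nlinarith [mul_pos_of_neg_of_neg n0 c3]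
  -- null vector equations
  have e0 : v0 = p*v1 + q*v2 + r*v3 := by
    have : v0 - (p*v1 + q*v2 + r*v3) = PG p q r u v w := by
      rw [hv0, hv1, hv2, hv3]; unfold PG; ring
    rw [h0] at this; linarith
  have e1 : v1 = p*v0 + u*v2 + v*v3 := by rw [hv0, hv1, hv2, hv3]; ring
  have e2 : v2 = q*v0 + u*v1 + w*v3 := by rw [hv0, hv1, hv2, hv3]; ring
  have e3 : v3 = r*v0 + v*v1 + w*v2 := by rw [hv0, hv1, hv2, hv3]; ring
  -- the value of `EG`
  have hE : v0 * EG p q r u v w = (v0+v1+v2+v3)^2 - 2*(v0^2+v1^2+v2^2+v3^2) := by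
    have : v0 * EG p q r u v w - ((v0+v1+v2+v3)^2 - 2*(v0^2+v1^2+v2^2+v3^2))
        = PG p q r u v w * (4*v0 - (1-w^2) - (1-v^2) - (1-u^2)
            + 2*(u+v*w) + 2*(v+u*w) + 2*(w+u*v)) := by
      rw [hv0, hv1, hv2, hv3]; unfold PG EG; ring
    rw [h0] at this; linarith
  have key := null_sign hp hq hr hu hv hw n0 n1 n2 n3 e0 e1 e2 e3
  by_contra hneg
  push Not at hneg
  nlinarith [mul_nonneg_of_nonpos_of_nonpos n0.le hneg]

/-- The set of Gram matrices of truncated tetrahedra is star-shaped with respect to the regular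
ideal octahedron. -/
lemma PG_star {p q r u v w : ℝ} (hp : 1 ≤ p) (hq : 1 ≤ q) (hr : 1 ≤ r) (hu : 1 ≤ u)
    (hv : 1 ≤ v) (hw : 1 ≤ w) (h1 : PG p q r u v w < 0) {t : ℝ} (ht0 : 0 ≤ t) (ht1 : t ≤ 1) :
    PG (1+t*(p-1)) (1+t*(q-1)) (1+t*(r-1)) (1+t*(u-1)) (1+t*(v-1)) (1+t*(w-1)) < 0 := by
  set φ : ℝ → ℝ := fun t =>
    PG (1+t*(p-1)) (1+t*(q-1)) (1+t*(r-1)) (1+t*(u-1)) (1+t*(v-1)) (1+t*(w-1)) with hφ
  change φ t < 0
  by_contra hcon
  push Not at hcon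
  have hcont : Continuous φ := by
    rw [hφ]; unfold PG; fun_prop
  set A : Set ℝ := Set.Icc 0 1 ∩ {x | 0 ≤ φ x} with hA
  have hAc : IsCompact A := isCompact_Icc.inter_right (isClosed_le continuous_const hcont)
  have hAn : A.Nonempty := ⟨t, ⟨ht0, ht1⟩, hcon⟩
  obtain ⟨s, hs⟩ := hAc.exists_isGreatest hAn
  obtain ⟨⟨⟨hs0, hs1⟩, hs2⟩, hs3⟩ := hs
  replace hs2 : 0 ≤ φ s := hs2
  have hφ1 : φ 1 < 0 := by
    have : φ 1 = PG p q r u v w := by simp only [hφ, one_mul, add_sub_cancel]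
    rw [this]; exact h1
  have hslt : s < 1 := by
    rcases hs1.lt_or_eq with h | h
    · exact h
    · rw [h] at hs2; linarith
  have hneg : ∀ x, s < x → x ≤ 1 → φ x < 0 := by
    intro x hx1 hx2
    by_contra hx
    push Not at hx
    have := hs3 ⟨⟨by linarith, hx2⟩, hx⟩
    linarith
  have hs4 : φ s = 0 := by
    rcases hs2.lt_or_eq with h | h
    · exfalso
      have : ∀ᶠ x in nhds s, 0 < φ x := hcont.continuousAt.eventually (lt_mem_nhds h)
      have h2 : ∀ᶠ x in nhdsWithin s (Set.Ioi s), 0 < φ x := this.filter_mono nhdsWithin_le_nhds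
      have h3 : ∀ᶠ x in nhdsWithin s (Set.Ioi s), x ∈ Set.Ioo s 1 := Ioo_mem_nhdsGT hslt
      obtain ⟨x, hx1, hx2⟩ := (h2.and h3).exists
      have := hneg x hx2.1 hx2.2.le
      linarith
    · exact h.symm
  have hspos : 0 < s := by
    rcases hs0.lt_or_eq with h | h
    · exact h
    · exfalso
      rw [← h] at hs4
      have : φ 0 = -16 := by rw [hφ]; unfold PG; norm_num
      rw [this] at hs4; norm_num at hs4
  -- derivative
  have hder : HasDerivAt φ (EG (1+s*(p-1)) (1+s*(q-1)) (1+s*(r-1)) (1+s*(u-1)) (1+s*(v-1))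
      (1+s*(w-1)) / s) s := by
    have h := fun c : ℝ => ((hasDerivAt_id s).mul_const (c-1)).const_add 1
    simp only [id, one_mul] at h
    have H := ((((((((h p).pow 2).add ((h q).pow 2)).add ((h r).pow 2)).add
      ((h u).pow 2)).add ((h v).pow 2)).add ((h w).pow 2)).const_sub 1)
    have H2 := (((((h p).pow 2).mul ((h w).pow 2)).add (((h q).pow 2).mul ((h v).pow 2))).add
      (((h r).pow 2).mul ((h u).pow 2)))
    have H3 := (((((h p).mul (h q)).mul (h u)).add (((h p).mul (h r)).mul (h v))).add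
      (((h q).mul (h r)).mul (h w))).add (((h u).mul (h v)).mul (h w))
    have H4 := ((((((h p).mul (h q)).mul (h v)).mul (h w)).add
      ((((h p).mul (h r)).mul (h u)).mul (h w))).add
      ((((h q).mul (h r)).mul (h u)).mul (h v)))
    have H5 := (((H.add H2).sub (H3.const_mul 2)).sub (H4.const_mul 2))
    refine (H5.congr_deriv ?_).congr_of_eventuallyEq ?_
    · rw [eq_div_iff hspos.ne']
      unfold EG
      simp only [Pi.mul_apply, Pi.add_apply, Pi.pow_apply]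
      push_cast
      ring
    · refine Filter.Eventually.of_forall fun x => ?_
      simp only [hφ, PG, Pi.mul_apply, Pi.add_apply, Pi.pow_apply, Pi.sub_apply]
  have hEpos : 0 < EG (1+s*(p-1)) (1+s*(q-1)) (1+s*(r-1)) (1+s*(u-1)) (1+s*(v-1))
      (1+s*(w-1)) := by
    apply EG_pos
    · nlinarith
    · nlinarith
    · nlinarith
    · nlinarith
    · nlinarith
    · nlinarith
    · exact hs4
  have hdpos : 0 < deriv φ s := by rw [hder.deriv]; positivity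
  have hsign := eventually_nhdsWithin_sign_eq_of_deriv_pos hdpos hs4
  have h2 := hsign.filter_mono (nhdsWithin_le_nhds (s := Set.Ioi s))
  have h3 : ∀ᶠ x in nhdsWithin s (Set.Ioi s), x ∈ Set.Ioo s 1 := Ioo_mem_nhdsGT hslt
  obtain ⟨x, hx1, hx2⟩ := (h2.and h3).exists
  have h4 := hneg x hx2.1 hx2.2.le
  rw [sign_pos (sub_pos.mpr hx2.1), sign_neg h4] at hx1
  exact absurd hx1 (by decide)

end Run7.h606
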