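import Pool.Agent.Run7.h606.Mink
import Pool.Agent.Run7.h606.Star

namespace Run7.h606

/-- Labelled quadruples of vectors. -/
abbrev Fr := Fin 4 → V4

/-- Minus the Gram matrix of a quadruple. -/
def gm (F : Fr) : Matrix (Fin 4) (Fin 4) ℝ := Matrix.of fun i j => - form (F i) (F j)

@[simp] lemma gm_apply (F : Fr) (i j : Fin 4) : gm F i j = - form (F i) (F j) := rfl

/-- Gram data of a truncated tetrahedron. -/
structure GD (b : Matrix (Fin 4) (Fin 4) ℝ) : Prop where
  diag : ∀ i, b i i = -1
  symm : ∀ i j, b i j = b j i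
  one_le : ∀ i j, i ≠ j → 1 ≤ b i j
  det_neg : b.det < 0

lemma det_eq_PG {b : Matrix (Fin 4) (Fin 4) ℝ} (hd : ∀ i, b i i = -1)
    (hs : ∀ i j, b i j = b j i) :
    b.det = PG (b 0 1) (b 0 2) (b 0 3) (b 1 2) (b 1 3) (b 2 3) := by
  rw [Matrix.det_succ_row_zero]
  simp only [Fin.sum_univ_succ, Matrix.det_fin_three, Matrix.submatrix_apply, Fin.succAbove]
  simp [Fin.ext_iff, hd, Fin.succ, Fin.castSucc, Fin.castAdd, Fin.castLE]
  rw [hs 1 0, hs 2 0, hs 3 0, hs 2 1, hs 3 1, hs 3 2]
  unfold PG
  ring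

/-- The straight path of Gram data from the regular ideal octahedron to `b`. -/
def bt (t : ℝ) (b : Matrix (Fin 4) (Fin 4) ℝ) : Matrix (Fin 4) (Fin 4) ℝ :=
  Matrix.of fun i j => if i = j then -1 else 1 + t * (b i j - 1)

lemma bt_one {b : Matrix (Fin 4) (Fin 4) ℝ} (hd : ∀ i, b i i = -1) : bt 1 b = b := by
  ext i j
  simp only [bt, Matrix.of_apply]
  split_ifs with h
  · rw [← h, hd]
  · ring

lemma bt_diag (t : ℝ) (b : Matrix (Fin 4) (Fin 4) ℝ) (i : Fin 4) : bt t b i i = -1 := by
  simp [bt]

lemma bt_off (t : ℝ) (b : Matrix (Fin 4) (Fin 4) ℝ) {i j : Fin 4} (h : i ≠ j) :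
    bt t b i j = 1 + t * (b i j - 1) := by
  simp [bt, h]

lemma GD.bt {b : Matrix (Fin 4) (Fin 4) ℝ} (hb : GD b) {t : ℝ} (h0 : 0 ≤ t) (h1 : t ≤ 1) :
    GD (bt t b) := by
  have hsym : ∀ i j, Run7.h606.bt t b i j = Run7.h606.bt t b j i := by
    intro i j
    by_cases h : i = j
    · rw [h]
    · rw [bt_off _ _ h, bt_off _ _ (Ne.symm h), hb.symm]
  refine ⟨bt_diag t b, hsym, ?_, ?_⟩
  · intro i j h
    rw [bt_off _ _ h]
    nlinarith [hb.one_le i j h]
  · rw [det_eq_PG (bt_diag t b) hsym]
    rw [bt_off _ _ (by decide), bt_off _ _ (by decide), bt_off _ _ (by decide),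
      bt_off _ _ (by decide), bt_off _ _ (by decide), bt_off _ _ (by decide)]
    have h := hb.det_neg
    rw [det_eq_PG hb.diag hb.symm] at h
    exact PG_star (hb.one_le _ _ (by decide)) (hb.one_le _ _ (by decide))
      (hb.one_le _ _ (by decide)) (hb.one_le _ _ (by decide)) (hb.one_le _ _ (by decide))
      (hb.one_le _ _ (by decide)) h h0 h1

lemma continuous_bt {X : Type*} [TopologicalSpace X] {t : X → ℝ}
    {b : X → Matrix (Fin 4) (Fin 4) ℝ} (ht : Continuous t) (hb : Continuous b) :
    Continuous fun x => bt (t x) (b x) := by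
  refine continuous_matrix fun i j => ?_
  by_cases h : i = j
  · subst h
    simp only [bt_diag]; exact continuous_const
  · simp only [bt_off _ _ h]
    exact continuous_const.add (ht.mul ((hb.matrix_elem i j).sub continuous_const))

/-- The matrix with columns `F j`. -/
def fmat (F : Fr) : Matrix (Fin 4) (Fin 4) ℝ := Matrix.of fun i j => F j i

lemma det_gm (F : Fr) : (gm F).det = - (fmat F).det ^ 2 := by
  have h : gm F = (fmat F).transpose * Matrix.diagonal ![1, -1, -1, -1] * fmat F := by
    ext i j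
    simp only [gm_apply, form, Matrix.mul_apply, Fin.sum_univ_four, Matrix.transpose_apply,
      fmat, Matrix.of_apply, Matrix.mul_diagonal]
    simp
    ring
  rw [h, Matrix.det_mul, Matrix.det_mul, Matrix.det_transpose, Matrix.det_diagonal]
  simp [Fin.prod_univ_four]
  ring

/-- Admissible frames: truncated tetrahedra, with vertices possibly tangent. -/
structure IsFr (F : Fr) : Prop where
  gd : GD (gm F)
  fut : TL (∑ i, F i)

lemma IsFr.det_ne {F : Fr} (hF : IsFr F) : (fmat F).det ≠ 0 := by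
  intro h
  have := hF.gd.det_neg
  rw [det_gm, h] at this
  simp at this

/-- Linear combinations. -/
def comb (F : Fr) (a : Fin 4 → ℝ) : V4 := ∑ i, a i • F i

/-- Coordinates. -/
noncomputable def coord (F : Fr) (x : V4) : Fin 4 → ℝ := (fmat F)⁻¹.mulVec x

lemma comb_eq (F : Fr) (a : Fin 4 → ℝ) : comb F a = (fmat F).mulVec a := by
  ext k
  simp [comb, fmat, Matrix.mulVec, dotProduct, Fin.sum_univ_four, mul_comm]

lemma comb_coord {F : Fr} (h : (fmat F).det ≠ 0) (x : V4) : comb F (coord F x) = x := by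
  rw [comb_eq, coord, Matrix.mulVec_mulVec, Matrix.mul_nonsing_inv _ h.isUnit,
    Matrix.one_mulVec]

lemma coord_comb {F : Fr} (h : (fmat F).det ≠ 0) (a : Fin 4 → ℝ) : coord F (comb F a) = a := by
  rw [comb_eq, coord, Matrix.mulVec_mulVec, Matrix.nonsing_inv_mul _ h.isUnit,
    Matrix.one_mulVec]

lemma comb_add (F : Fr) (a b : Fin 4 → ℝ) : comb F (a + b) = comb F a + comb F b := by
  simp [comb_eq, Matrix.mulVec_add]
lemma comb_smul (F : Fr) (c : ℝ) (a : Fin 4 → ℝ) : comb F (c • a) = c • comb F a := by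
  simp [comb_eq, Matrix.mulVec_smul]
lemma coord_add (F : Fr) (a b : V4) : coord F (a + b) = coord F a + coord F b := by
  simp [coord, Matrix.mulVec_add]
lemma coord_sub (F : Fr) (a b : V4) : coord F (a - b) = coord F a - coord F b := by
  simp [coord, Matrix.mulVec_sub]
lemma coord_smul (F : Fr) (c : ℝ) (a : V4) : coord F (c • a) = c • coord F a := by
  simp [coord, Matrix.mulVec_smul]

lemma comb_single (F : Fr) (i : Fin 4) : comb F (Pi.single i 1) = F i := by
  simp [comb, Pi.single_apply]

lemma coord_self {F : Fr} (h : (fmat F).det ≠ 0) (i : Fin 4) :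
    coord F (F i) = Pi.single i 1 := by
  conv_lhs => rw [← comb_single F i, coord_comb h]

/-- The products with the frame vectors in terms of the coordinates. -/
def sv (b : Matrix (Fin 4) (Fin 4) ℝ) (a : Fin 4 → ℝ) : Fin 4 → ℝ := b.mulVec a

lemma sv_apply (b : Matrix (Fin 4) (Fin 4) ℝ) (a : Fin 4 → ℝ) (i : Fin 4) :
    sv b a i = ∑ j, b i j * a j := rfl

lemma form_comb_left (F : Fr) (a : Fin 4 → ℝ) (i : Fin 4) :
    form (comb F a) (F i) = - sv (gm F) a i := by
  rw [comb, form_sum_left, sv_apply, ← Finset.sum_neg_distrib]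
  refine Finset.sum_congr rfl fun j _ => ?_
  rw [form_smul_left, gm_apply, form_comm]; ring

lemma form_comb_comb (F : Fr) (a c : Fin 4 → ℝ) :
    form (comb F a) (comb F c) = - ∑ i, c i * sv (gm F) a i := by
  conv_lhs => rw [comb.eq_1 F c]
  rw [form_sum_right, ← Finset.sum_neg_distrib]
  refine Finset.sum_congr rfl fun j _ => ?_
  rw [form_smul_right, form_comb_left]; ring

lemma eq_zero_of_orth {F : Fr} (h : (fmat F).det ≠ 0) {z : V4} (hz : ∀ i, form z (F i) = 0) :
    z = 0 := by
  refine eq_zero_of_form fun y => ?_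
  rw [← comb_coord h y, comb, form_sum_right]
  refine Finset.sum_eq_zero fun i _ => ?_
  rw [form_smul_right, hz, mul_zero]

/-- Uniqueness of the vertex across a face. -/
lemma frame_unique {F F' F'' : Fr} (hF : (fmat F).det ≠ 0) (i : Fin 4)
    (h' : ∀ k, k ≠ i → F' k = F k) (h'' : ∀ k, k ≠ i → F'' k = F k) (hg : gm F' = gm F'')
    (c' : coord F (F' i) i < 0) (c'' : coord F (F'' i) i < 0) : F' = F'' := by
  have hg' : ∀ k l, form (F' k) (F' l) = form (F'' k) (F'' l) := by
    intro k l
    have := congrFun (congrFun hg k) l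
    simpa using this
  have hz : ∀ k, k ≠ i → form (F'' i - F' i) (F k) = 0 := by
    intro k hk
    have := hg' i k
    rw [h' k hk, h'' k hk] at this
    rw [form_sub_left, this, sub_self]
  have hz2 : form (F'' i - F' i) (F'' i + F' i) = 0 := by
    have := hg' i i
    rw [form_sub_left, form_add_right, form_add_right, this, form_comm (F' i) (F'' i)]; ring
  have hz3 : form (F'' i - F' i) (F'' i + F' i) =
      (coord F (F'' i) i + coord F (F' i) i) * form (F'' i - F' i) (F i) := by
    have : F'' i + F' i = comb F (coord F (F'' i) + coord F (F' i)) := by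
      rw [comb_add, comb_coord hF, comb_coord hF]
    rw [this, comb, form_sum_right, Finset.sum_eq_single i]
    · rw [form_smul_right]; rfl
    · intro k _ hk
      rw [form_smul_right, hz k hk, mul_zero]
    · simp
  have hz4 : form (F'' i - F' i) (F i) = 0 := by
    rw [hz3] at hz2
    rcases mul_eq_zero.mp hz2 with h | h
    · linarith
    · exact h
  have hz5 : F'' i - F' i = 0 := by
    refine eq_zero_of_orth hF fun k => ?_
    by_cases hk : k = i
    · rw [hk]; exact hz4
    · exact hz k hk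
  funext k
  by_cases hk : k = i
  · rw [hk]; exact (sub_eq_zero.mp hz5).symm
  · rw [h' k hk, h'' k hk]

end Run7.h606
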