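import Pool.Agent.Run7.h606.Gram

namespace Run7.h606

def Tt (u v w : ℝ) : ℝ := -1 + 2*u*v*w + u^2 + v^2 + w^2

noncomputable def be1 (u v w p q r : ℝ) : ℝ := ((1-w^2)*p + (u+v*w)*q + (v+u*w)*r)/Tt u v w
noncomputable def be2 (u v w p q r : ℝ) : ℝ := ((u+v*w)*p+(1-v^2)*q+(w+u*v)*r)/Tt u v w
noncomputable def be3 (u v w p q r : ℝ) : ℝ := ((v+u*w)*p+(w+u*v)*q+(1-u^2)*r)/Tt u v w

lemma Tt_pos {u v w : ℝ} (hu : 1 ≤ u) (hv : 1 ≤ v) (hw : 1 ≤ w) : 0 < Tt u v w := by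
  unfold Tt
  have : 0 < u * v * w := by positivity
  nlinarith

lemma be_row1 {u v w : ℝ} (h : 0 < Tt u v w) (p q r : ℝ) :
    -be1 u v w p q r + u * be2 u v w p q r + v * be3 u v w p q r = p := by
  unfold be1 be2 be3; field_simp; unfold Tt; ring
lemma be_row2 {u v w : ℝ} (h : 0 < Tt u v w) (p q r : ℝ) :
    u * be1 u v w p q r - be2 u v w p q r + w * be3 u v w p q r = q := by
  unfold be1 be2 be3; field_simp; unfold Tt; ring
lemma be_row3 {u v w : ℝ} (h : 0 < Tt u v w) (p q r : ℝ) :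
    v * be1 u v w p q r + w * be2 u v w p q r - be3 u v w p q r = r := by
  unfold be1 be2 be3; field_simp; unfold Tt; ring
lemma be_dot {u v w : ℝ} (h : 0 < Tt u v w) (p q r : ℝ) :
    p * be1 u v w p q r + q * be2 u v w p q r + r * be3 u v w p q r
      = - PG p q r u v w / Tt u v w - 1 := by
  unfold be1 be2 be3; field_simp; unfold Tt PG; ring

/-- The new vertex across the face opposite to vertex `0`, given its products `-p, -q, -r` with
the vertices of the face. -/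
noncomputable def nv (F : Fr) (p q r : ℝ) : V4 :=
  (be1 (gm F 1 2) (gm F 1 3) (gm F 2 3) p q r +
    Real.sqrt (PG p q r (gm F 1 2) (gm F 1 3) (gm F 2 3) / (gm F).det) *
    be1 (gm F 1 2) (gm F 1 3) (gm F 2 3) (gm F 0 1) (gm F 0 2) (gm F 0 3)) • F 1 +
  (be2 (gm F 1 2) (gm F 1 3) (gm F 2 3) p q r +
    Real.sqrt (PG p q r (gm F 1 2) (gm F 1 3) (gm F 2 3) / (gm F).det) *
    be2 (gm F 1 2) (gm F 1 3) (gm F 2 3) (gm F 0 1) (gm F 0 2) (gm F 0 3)) • F 2 +
  (be3 (gm F 1 2) (gm F 1 3) (gm F 2 3) p q r +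
    Real.sqrt (PG p q r (gm F 1 2) (gm F 1 3) (gm F 2 3) / (gm F).det) *
    be3 (gm F 1 2) (gm F 1 3) (gm F 2 3) (gm F 0 1) (gm F 0 2) (gm F 0 3)) • F 3 +
  (- Real.sqrt (PG p q r (gm F 1 2) (gm F 1 3) (gm F 2 3) / (gm F).det)) • F 0

lemma nv_spec {F : Fr} (hb : GD (gm F)) {p q r : ℝ}
    (hP : PG p q r (gm F 1 2) (gm F 1 3) (gm F 2 3) < 0) :
    form (nv F p q r) (F 1) = -p ∧ form (nv F p q r) (F 2) = -q ∧
    form (nv F p q r) (F 3) = -r ∧ form (nv F p q r) (nv F p q r) = 1 := by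
  have hdet := det_eq_PG hb.diag hb.symm
  have hneg := hb.det_neg
  have hT : 0 < Tt (gm F 1 2) (gm F 1 3) (gm F 2 3) :=
    Tt_pos (hb.one_le _ _ (by decide)) (hb.one_le _ _ (by decide)) (hb.one_le _ _ (by decide))
  have hform : ∀ i j, form (F i) (F j) = - gm F i j := by intro i j; simp
  set σ := Real.sqrt (PG p q r (gm F 1 2) (gm F 1 3) (gm F 2 3) / (gm F).det) with hσ
  have hσ2 : σ ^ 2 * (gm F).det = PG p q r (gm F 1 2) (gm F 1 3) (gm F 2 3) := by
    rw [hσ, Real.sq_sqrt (div_nonneg_of_nonpos hP.le hneg.le), div_mul_cancel₀ _ hneg.ne]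
  have r1 := be_row1 hT p q r
  have r2 := be_row2 hT p q r
  have r3 := be_row3 hT p q r
  have r4 := be_dot hT p q r
  have q1 := be_row1 hT (gm F 0 1) (gm F 0 2) (gm F 0 3)
  have q2 := be_row2 hT (gm F 0 1) (gm F 0 2) (gm F 0 3)
  have q3 := be_row3 hT (gm F 0 1) (gm F 0 2) (gm F 0 3)
  have q4 := be_dot hT (gm F 0 1) (gm F 0 2) (gm F 0 3)
  rw [← hdet] at q4
  have hnv : nv F p q r = (be1 (gm F 1 2) (gm F 1 3) (gm F 2 3) p q r + σ *
    be1 (gm F 1 2) (gm F 1 3) (gm F 2 3) (gm F 0 1) (gm F 0 2) (gm F 0 3)) • F 1 +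
    (be2 (gm F 1 2) (gm F 1 3) (gm F 2 3) p q r + σ *
    be2 (gm F 1 2) (gm F 1 3) (gm F 2 3) (gm F 0 1) (gm F 0 2) (gm F 0 3)) • F 2 +
    (be3 (gm F 1 2) (gm F 1 3) (gm F 2 3) p q r + σ *
    be3 (gm F 1 2) (gm F 1 3) (gm F 2 3) (gm F 0 1) (gm F 0 2) (gm F 0 3)) • F 3 +
    (- σ) • F 0 := rfl
  have d1 := hb.diag 1
  have d2 := hb.diag 2
  have d3 := hb.diag 3
  have d0 := hb.diag 0
  have s1 := hb.symm 1 0
  have s2 := hb.symm 2 0
  have s3 := hb.symm 3 0
  have s4 := hb.symm 2 1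
  have s5 := hb.symm 3 1
  have s6 := hb.symm 3 2
  rw [hnv]
  generalize be1 (gm F 1 2) (gm F 1 3) (gm F 2 3) p q r = β1 at *
  generalize be2 (gm F 1 2) (gm F 1 3) (gm F 2 3) p q r = β2 at *
  generalize be3 (gm F 1 2) (gm F 1 3) (gm F 2 3) p q r = β3 at *
  generalize be1 (gm F 1 2) (gm F 1 3) (gm F 2 3) (gm F 0 1) (gm F 0 2) (gm F 0 3) = γ1 at *
  generalize be2 (gm F 1 2) (gm F 1 3) (gm F 2 3) (gm F 0 1) (gm F 0 2) (gm F 0 3) = γ2 at *
  generalize be3 (gm F 1 2) (gm F 1 3) (gm F 2 3) (gm F 0 1) (gm F 0 2) (gm F 0 3) = γ3 at *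
  have e1 : form ((β1 + σ * γ1) • F 1 + (β2 + σ * γ2) • F 2 + (β3 + σ * γ3) • F 3 + (-σ) • F 0)
      (F 1) = -p := by
    simp only [form_add_left, form_smul_left, hform, d1, s4, s5]
    linear_combination (-1 : ℝ) * r1 - σ * q1
  have e2 : form ((β1 + σ * γ1) • F 1 + (β2 + σ * γ2) • F 2 + (β3 + σ * γ3) • F 3 + (-σ) • F 0)
      (F 2) = -q := by
    simp only [form_add_left, form_smul_left, hform, d2, s6]
    linear_combination (-1 : ℝ) * r2 - σ * q2
  have e3 : form ((β1 + σ * γ1) • F 1 + (β2 + σ * γ2) • F 2 + (β3 + σ * γ3) • F 3 + (-σ) • F 0)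
      (F 3) = -r := by
    simp only [form_add_left, form_smul_left, hform, d3]
    linear_combination (-1 : ℝ) * r3 - σ * q3
  refine ⟨e1, e2, e3, ?_⟩
  rw [form_add_right, form_add_right, form_add_right, form_smul_right, form_smul_right,
    form_smul_right, form_smul_right, e1, e2, e3]
  simp only [form_add_left, form_smul_left, hform, d0, s1, s2, s3]
  -- (β+σγ)·(-p,-q,-r) - σ * (-(β+σγ)·(g01,g02,g03) - σ*1... )
  have T' : Tt (gm F 1 2) (gm F 1 3) (gm F 2 3) ≠ 0 := hT.ne'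
  have key : γ1 * p + γ2 * q + γ3 * r =
      β1 * gm F 0 1 + β2 * gm F 0 2 + β3 * gm F 0 3 := by
    rw [← r1, ← r2, ← r3, ← q1, ← q2, ← q3]; ring
  have r5 : (p * β1 + q * β2 + r * β3 + 1) * Tt (gm F 1 2) (gm F 1 3) (gm F 2 3)
      = - PG p q r (gm F 1 2) (gm F 1 3) (gm F 2 3) := by
    rw [r4]; field_simp; ring
  have q5 : (gm F 0 1 * γ1 + gm F 0 2 * γ2 + gm F 0 3 * γ3 + 1) *
      Tt (gm F 1 2) (gm F 1 3) (gm F 2 3) = - (gm F).det := by
    rw [q4]; field_simp; ring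
  have main : (-(p * β1 + q * β2 + r * β3) + σ^2 *
      (gm F 0 1 * γ1 + gm F 0 2 * γ2 + gm F 0 3 * γ3 + 1)) = 1 := by
    have h1 : (-(p * β1 + q * β2 + r * β3) + σ^2 *
      (gm F 0 1 * γ1 + gm F 0 2 * γ2 + gm F 0 3 * γ3 + 1) - 1) *
        Tt (gm F 1 2) (gm F 1 3) (gm F 2 3) = 0 := by
      linear_combination (-1 : ℝ) * r5 + σ^2 * q5 - hσ2
    have := (mul_eq_zero.mp h1).resolve_right T'
    linarith
  linear_combination main - σ * key

lemma coord_nv {F : Fr} (hb : GD (gm F)) {p q r : ℝ}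
    (hP : PG p q r (gm F 1 2) (gm F 1 3) (gm F 2 3) < 0) : coord F (nv F p q r) 0 < 0 := by
  have hneg := hb.det_neg
  have hd : (fmat F).det ≠ 0 := by
    intro h; rw [det_gm, h] at hneg; simp at hneg
  unfold nv
  simp only [coord_add, coord_smul, coord_self hd, Pi.add_apply, Pi.smul_apply, smul_eq_mul]
  simp
  exact div_pos_of_neg_of_neg hP hneg

/-- Replace vertex `0` by the vertex across the opposite face with prescribed products. -/
noncomputable def rep0 (F : Fr) (b : Matrix (Fin 4) (Fin 4) ℝ) : Fr :=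
  Function.update F 0 (nv F (b 0 1) (b 0 2) (b 0 3))

lemma rep0_ne {F : Fr} {b : Matrix (Fin 4) (Fin 4) ℝ} {k : Fin 4} (hk : k ≠ 0) :
    rep0 F b k = F k := by simp [rep0, hk]

lemma rep0_zero {F : Fr} {b : Matrix (Fin 4) (Fin 4) ℝ} :
    rep0 F b 0 = nv F (b 0 1) (b 0 2) (b 0 3) := by simp [rep0]

lemma PG_of_agree {b b' : Matrix (Fin 4) (Fin 4) ℝ} (hb' : GD b')
    (h : ∀ k l, k ≠ 0 → l ≠ 0 → b' k l = b k l) :
    PG (b' 0 1) (b' 0 2) (b' 0 3) (b 1 2) (b 1 3) (b 2 3) < 0 := by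
  have := hb'.det_neg
  rw [det_eq_PG hb'.diag hb'.symm] at this
  rwa [h 1 2 (by decide) (by decide), h 1 3 (by decide) (by decide),
    h 2 3 (by decide) (by decide)] at this

lemma gm_rep0 {F : Fr} (hb : GD (gm F)) {b' : Matrix (Fin 4) (Fin 4) ℝ} (hb' : GD b')
    (h : ∀ k l, k ≠ 0 → l ≠ 0 → b' k l = gm F k l) : gm (rep0 F b') = b' := by
  obtain ⟨h1, h2, h3, h0⟩ := nv_spec hb (PG_of_agree hb' h)
  have e0 : ∀ k, gm (rep0 F b') 0 k = b' 0 k := by
    intro k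
    fin_cases k
    · simp only [gm_apply]; show - form (rep0 F b' 0) (rep0 F b' 0) = b' 0 0
      rw [rep0_zero, h0, hb'.diag]
    · show - form (rep0 F b' 0) (rep0 F b' 1) = b' 0 1
      rw [rep0_zero, rep0_ne (by decide), h1]; ring
    · show - form (rep0 F b' 0) (rep0 F b' 2) = b' 0 2
      rw [rep0_zero, rep0_ne (by decide), h2]; ring
    · show - form (rep0 F b' 0) (rep0 F b' 3) = b' 0 3
      rw [rep0_zero, rep0_ne (by decide), h3]; ring
  ext k l
  by_cases hk : k = 0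
  · subst hk; exact e0 l
  · by_cases hl : l = 0
    · subst hl
      rw [hb'.symm, ← e0 k]; simp only [gm_apply]; rw [form_comm]
    · rw [h k l hk hl, gm_apply, gm_apply, rep0_ne hk, rep0_ne hl]

/-! ### Relabelling -/

lemma gm_comp (F : Fr) (π : Equiv.Perm (Fin 4)) : gm (F ∘ π) = (gm F).submatrix π π := by
  ext i j; simp

lemma GD.submatrix {b : Matrix (Fin 4) (Fin 4) ℝ} (hb : GD b) (π : Equiv.Perm (Fin 4)) :
    GD (b.submatrix π π) := by
  refine ⟨fun i => hb.diag _, fun i j => hb.symm _ _, fun i j h => hb.one_le _ _ ?_, ?_⟩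
  · exact fun h' => h (π.injective h')
  · rw [Matrix.det_submatrix_equiv_self]; exact hb.det_neg

lemma sum_comp (F : Fr) (π : Equiv.Perm (Fin 4)) : ∑ i, (F ∘ π) i = ∑ i, F i :=
  Equiv.sum_comp π F

lemma IsFr.comp {F : Fr} (hF : IsFr F) (π : Equiv.Perm (Fin 4)) : IsFr (F ∘ π) :=
  ⟨by rw [gm_comp]; exact hF.gd.submatrix π, by rw [sum_comp]; exact hF.fut⟩

lemma comb_comp (F : Fr) (π : Equiv.Perm (Fin 4)) (a : Fin 4 → ℝ) :
    comb (F ∘ π) (a ∘ π) = comb F a := Equiv.sum_comp π (fun i => a i • F i)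

lemma fmat_comp_det {F : Fr} (h : (fmat F).det ≠ 0) (π : Equiv.Perm (Fin 4)) :
    (fmat (F ∘ π)).det ≠ 0 := by
  have : (gm (F ∘ π)).det = (gm F).det := by
    rw [gm_comp, Matrix.det_submatrix_equiv_self]
  rw [det_gm, det_gm] at this
  intro h0; rw [h0] at this; apply h
  have : (fmat F).det ^ 2 = 0 := by linarith
  exact pow_eq_zero_iff (two_ne_zero) |>.mp this

lemma coord_comp {F : Fr} (h : (fmat F).det ≠ 0) (π : Equiv.Perm (Fin 4)) (x : V4) :
    coord (F ∘ π) x = coord F x ∘ π := by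
  have h1 : comb (F ∘ π) (coord F x ∘ π) = x := by rw [comb_comp, comb_coord h]
  conv_lhs => rw [← h1]
  rw [coord_comb (fmat_comp_det h π)]

lemma sv_comp (b : Matrix (Fin 4) (Fin 4) ℝ) (π : Equiv.Perm (Fin 4)) (a : Fin 4 → ℝ) :
    sv (b.submatrix π π) (a ∘ π) = sv b a ∘ π := by
  ext i
  simp only [sv_apply, Function.comp, Matrix.submatrix_apply]
  exact Equiv.sum_comp π (fun j => b (π i) j * a j)

/-- The transposition used to move vertex `i` to position `0`. -/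
def sw (i : Fin 4) : Equiv.Perm (Fin 4) := Equiv.swap 0 i

lemma sw_sw (i k : Fin 4) : sw i (sw i k) = k := Equiv.swap_apply_self _ _ _
lemma sw_self (i : Fin 4) : sw i i = 0 := Equiv.swap_apply_right _ _
lemma sw_zero (i : Fin 4) : sw i 0 = i := Equiv.swap_apply_left _ _
lemma sw_ne {i k : Fin 4} (h : k ≠ i) : sw i k ≠ 0 := by
  intro h'; apply h; rw [← sw_self i] at h'; exact (sw i).injective h'

/-- Replace vertex `i` by the vertex across the opposite face, so as to have Gram data `b`. -/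
noncomputable def wh (i : Fin 4) (F : Fr) (b : Matrix (Fin 4) (Fin 4) ℝ) : Fr :=
  rep0 (F ∘ sw i) (b.submatrix (sw i) (sw i)) ∘ sw i

lemma wh_ne {i : Fin 4} {F : Fr} {b : Matrix (Fin 4) (Fin 4) ℝ} {k : Fin 4} (hk : k ≠ i) :
    wh i F b k = F k := by
  simp only [wh, Function.comp]
  rw [rep0_ne (sw_ne hk)]; simp [sw_sw]

lemma agree_sw {i : Fin 4} {F : Fr} {b' : Matrix (Fin 4) (Fin 4) ℝ}
    (h : ∀ k l, k ≠ i → l ≠ i → b' k l = gm F k l) :
    ∀ k l, k ≠ 0 → l ≠ 0 → b'.submatrix (sw i) (sw i) k l = gm (F ∘ sw i) k l := by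
  intro k l hk hl
  rw [gm_comp, Matrix.submatrix_apply, Matrix.submatrix_apply]
  apply h
  · intro h'; apply hk
    have : sw i (sw i k) = sw i i := by rw [h']
    rwa [sw_sw, sw_self] at this
  · intro h'; apply hl
    have : sw i (sw i l) = sw i i := by rw [h']
    rwa [sw_sw, sw_self] at this

lemma gm_wh {i : Fin 4} {F : Fr} (hF : IsFr F) {b' : Matrix (Fin 4) (Fin 4) ℝ} (hb' : GD b')
    (h : ∀ k l, k ≠ i → l ≠ i → b' k l = gm F k l) : gm (wh i F b') = b' := by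
  unfold wh
  rw [gm_comp, gm_rep0 (hF.comp (sw i)).gd (hb'.submatrix (sw i)) (agree_sw h)]
  ext k l; simp [sw_sw]

lemma coord_wh {i : Fin 4} {F : Fr} (hF : IsFr F) {b' : Matrix (Fin 4) (Fin 4) ℝ}
    (hb' : GD b') (h : ∀ k l, k ≠ i → l ≠ i → b' k l = gm F k l) :
    coord F (wh i F b' i) i < 0 := by
  have h1 := coord_nv (hF.comp (sw i)).gd (PG_of_agree (hb'.submatrix (sw i)) (agree_sw h))
  rw [coord_comp hF.det_ne, Function.comp, sw_zero] at h1
  simp only [wh, Function.comp, sw_self]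
  rw [rep0_zero]; exact h1

lemma GD.form_sum_le {G : Fr} (hG : GD (gm G)) (m : Fin 4) :
    form (G m) (∑ k, G k) ≤ -2 := by
  rw [form_sum_right]
  have hd : form (G m) (G m) = 1 := by have := hG.diag m; simp at this; linarith
  have ho : ∀ n, n ≠ m → form (G m) (G n) ≤ -1 := by
    intro n hn; have := hG.one_le m n hn.symm; simp at this; linarith
  rw [← Finset.add_sum_erase _ _ (Finset.mem_univ m), hd]
  have : ∑ x ∈ Finset.univ.erase m, form (G m) (G x) ≤
      ∑ x ∈ Finset.univ.erase m, (-1 : ℝ) :=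
    Finset.sum_le_sum fun n hn => ho n (Finset.ne_of_mem_erase hn)
  have h3 : ∑ x ∈ Finset.univ.erase m, (-1 : ℝ) = -3 := by
    rw [Finset.sum_const, Finset.card_erase_of_mem (Finset.mem_univ m)]; simp
  linarith

lemma GD.form_sum_neg {G : Fr} (hG : GD (gm G)) : form (∑ k, G k) (∑ k, G k) < 0 := by
  rw [form_sum_left]
  have : ∑ m, form (G m) (∑ k, G k) ≤ ∑ _m : Fin 4, (-2 : ℝ) :=
    Finset.sum_le_sum fun m _ => hG.form_sum_le m
  simp at this
  linarith

lemma fut_of_agree {F F' : Fr} (hF : IsFr F) (hg : GD (gm F')) {i : Fin 4}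
    (h : ∀ k, k ≠ i → F' k = F k) : TL (∑ k, F' k) := by
  obtain ⟨k, l, hk, hl, hkl⟩ : ∃ k l : Fin 4, k ≠ i ∧ l ≠ i ∧ k ≠ l := by
    fin_cases i
    · exact ⟨1, 2, by decide, by decide, by decide⟩
    · exact ⟨0, 2, by decide, by decide, by decide⟩
    · exact ⟨0, 1, by decide, by decide, by decide⟩
    · exact ⟨0, 1, by decide, by decide, by decide⟩
  have A := @GD.form_sum_le
  have B := @GD.form_sum_neg
  -- the vector `F k + F l`
  have hc : form (F k + F l) (F k + F l) ≤ 0 := by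
    have h1 : form (F k) (F k) = 1 := by have := hF.gd.diag k; simp at this; linarith
    have h2 : form (F l) (F l) = 1 := by have := hF.gd.diag l; simp at this; linarith
    have h3 : form (F k) (F l) ≤ -1 := by have := hF.gd.one_le k l hkl; simp at this; linarith
    rw [form_add_left, form_add_right, form_add_right, h1, h2, form_comm (F l) (F k)]; linarith
  have hcf : CF (F k + F l) := by
    refine cf_of_form_neg hF.fut hc ?_
    rw [form_add_right, form_comm _ (F k), form_comm _ (F l)]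
    have := A hF.gd k; have := A hF.gd l; linarith
  refine tl_of_form_neg hcf (B hg) ?_
  rw [← h k hk, ← h l hl, form_add_left]
  have := A hg k; have := A hg l; linarith

lemma isFr_wh {i : Fin 4} {F : Fr} (hF : IsFr F) {b' : Matrix (Fin 4) (Fin 4) ℝ} (hb' : GD b')
    (h : ∀ k l, k ≠ i → l ≠ i → b' k l = gm F k l) : IsFr (wh i F b') := by
  have hg : GD (gm (wh i F b')) := by rw [gm_wh hF hb' h]; exact hb'
  exact ⟨hg, fut_of_agree hF hg fun k hk => wh_ne hk⟩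

end Run7.h606
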