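import Pool.Agent.Run7.h606.Dev

namespace Run7.h606

open Filter Topology

section
variable {T : Set Fr} (hT : IsMirroredTessellation T) (F0 : State T)

/-- The path of isometries `g` preserves the orbit of the base state. -/
def Pres (g : unitInterval → Iso3) : Prop :=
  ∀ G, InS hT F0 G → ∃ G', InS hT F0 G' ∧ ∀ t, G'.f t = ap (g t) (G.f t)

variable {F0}

lemma pres_of {g : unitInterval → Iso3} (hg : ∀ e ∈ T, ap (g 1) e ∈ T) {G G' : State T}
    (hG : InS hT F0 G) (hG' : InS hT F0 G') (h : ∀ t, G'.f t = ap (g t) (G.f t)) :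
    Pres hT F0 g := by
  set Z : State T → Prop := fun H => ∃ H', InS hT F0 H' ∧ ∀ t, H'.f t = ap (g t) (H.f t)
    with hZ
  have Zmv : ∀ H s, Z H → Z (mv hT s H) := by
    rintro H s ⟨H', h1, h2⟩
    exact ⟨mv hT s H', h1.mv hT s, fun t => mv_ap hT hg h2 s t⟩
  have Zcomp : ∀ H π, Z H → Z (H.comp hT π) := by
    rintro H π ⟨H', h1, h2⟩
    exact ⟨H'.comp hT π, h1.comp hT π, fun t => by rw [comp_f, comp_f, h2 t]; rfl⟩
  obtain ⟨w0, π0, rfl⟩ := hG
  have h0 : Z (stt hT F0 w0) := by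
    have h1 : ((stt hT F0 w0).comp hT π0).comp hT π0⁻¹ = stt hT F0 w0 := by
      refine State.ext' fun t => ?_
      rw [comp_f, comp_f]
      funext k; simp [Function.comp]
    rw [← h1]
    exact Zcomp _ _ ⟨G', hG', h⟩
  have h1 : ∀ v, Z (stt hT F0 (w0 * v)) := by
    intro v
    refine cs.simple_induction_right (p := fun v => Z (stt hT F0 (w0 * v))) v ?_ ?_
    · show Z (stt hT F0 (w0 * 1))
      rw [mul_one]; exact h0
    · intro v s ih
      show Z (stt hT F0 (w0 * (v * cs.simple s)))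
      rw [← mul_assoc, stt_mul]
      exact Zmv _ s ih
  rintro H ⟨w, π, rfl⟩
  have h2 := h1 (w0⁻¹ * w)
  rw [mul_inv_cancel_left] at h2
  exact Zcomp _ π h2

variable (F0)

/-- The group of isometry paths. -/
def GN (Γ : Subgroup Iso3) : Subgroup (unitInterval → Iso3) where
  carrier := {g | g 1 ∈ Γ ∧ Pres hT F0 g ∧ Pres hT F0 g⁻¹}
  mul_mem' {a b} ha hb := by
    refine ⟨mul_mem ha.1 hb.1, fun G hG => ?_, fun G hG => ?_⟩
    · obtain ⟨G1, h1, h2⟩ := hb.2.1 G hG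
      obtain ⟨G2, h3, h4⟩ := ha.2.1 G1 h1
      exact ⟨G2, h3, fun t => by rw [h4, h2]; rfl⟩
    · obtain ⟨G1, h1, h2⟩ := ha.2.2 G hG
      obtain ⟨G2, h3, h4⟩ := hb.2.2 G1 h1
      exact ⟨G2, h3, fun t => by rw [h4, h2, mul_inv_rev]; rfl⟩
  one_mem' := by
    refine ⟨one_mem _, fun G hG => ⟨G, hG, fun t => rfl⟩, fun G hG => ⟨G, hG, fun t => ?_⟩⟩
    rw [inv_one]; rfl
  inv_mem' {a} ha := ⟨inv_mem ha.1, ha.2.2, by rw [inv_inv]; exact ha.2.1⟩

variable {F0}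

lemma exists_path {Γ : Subgroup Iso3} (hinv : ∀ γ ∈ Γ, ∀ e ∈ T, ap γ e ∈ T) {G G' : State T}
    (hG : InS hT F0 G) (hG' : InS hT F0 G') {γ : Iso3} (hγ : γ ∈ Γ)
    (h : G'.f 1 = ap γ (G.f 1)) :
    ∃ g ∈ GN hT F0 Γ, g 1 = γ ∧ ∀ t, G'.f t = ap (g t) (G.f t) := by
  have hgm : ∀ t, gm (G.f t) = gm (G'.f t) := by
    intro t; rw [G.gm_eq, G'.gm_eq, h, gm_ap]
  set g : unitInterval → Iso3 := fun t => isoI (G.f t) (G'.f t) (G.fr t) (G'.fr t) (hgm t)
    with hg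
  have h1 : ∀ t, G'.f t = ap (g t) (G.f t) := fun t => (ap_isoI _ _ _ _ _).symm
  have h2 : g 1 = γ := by
    refine iso_ext (G.fr 1) ?_
    rw [← h1, h]
  have h3 : ∀ t, G.f t = ap ((g⁻¹) t) (G'.f t) := by
    intro t; rw [h1 t]; exact (ap_inv_ap (g t) (G.f t)).symm
  refine ⟨g, ⟨by rw [h2]; exact hγ, ?_, ?_⟩, h2, h1⟩
  · exact pres_of hT (by rw [h2]; exact hinv γ hγ) hG hG' h1
  · refine pres_of hT ?_ hG' hG h3
    have : (g⁻¹) 1 = γ⁻¹ := by rw [Pi.inv_apply, h2]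
    rw [this]; exact hinv γ⁻¹ (inv_mem hγ)

/-- A Coxeter element fixing the octahedron is trivial. -/
lemma phi_fix {F : Fr} (hF : IsOct F) {w : W} {π : Equiv.Perm (Fin 4)}
    (h : ap (phi F hF w) F ∘ π = F) : w = 1 ∧ π = 1 := by
  set y := nrm (∑ i, F i) with hy
  have hpos : 0 < Real.sqrt (- form (∑ i, F i) (∑ i, F i)) :=
    Real.sqrt_pos.mpr (by linarith [hF.fr.fut.1])
  have hys : ∀ s, form y (nm F s) < 0 := by
    intro s
    rw [hy, nrm, form_smul_left, hF.nm_sum]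
    have := inv_pos.mpr hpos
    linarith
  have hfix : (phi F hF w : V4 ≃ₗ[ℝ] V4) y = y := by
    have h1 : (phi F hF w : V4 ≃ₗ[ℝ] V4) (∑ i, F i) = ∑ i, F i := by
      rw [← sum_ap, ← sum_comp _ π, h]
    rw [hy, nrm, map_smul, h1]
  have hyC : y ∈ Ch F := ⟨isH_nrm hF.fr.fut, fun s => (hys s).le⟩
  have hw : w = 1 := by
    refine (tits F hF (P := fun u => u = 1) hyC rfl ?_ _ w rfl (by rw [hfix]; exact hyC)).2
    intro s u hs _
    exact absurd hs (hys s).ne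
  refine ⟨hw, ?_⟩
  subst hw
  rw [map_one, ap_one] at h
  refine Equiv.ext fun i => ?_
  by_contra hne
  have h1 : F (π i) = F i := congrFun h i
  have h2 := hF.form_ne hne
  rw [h1, Equiv.Perm.one_apply, hF.form_self] at h2
  norm_num at h2

lemma GN_inj {Γ : Subgroup Iso3} {g : unitInterval → Iso3} (hg : g ∈ GN hT F0 Γ)
    (h0 : g 0 = 1) : g = 1 := by
  obtain ⟨G', ⟨w, π, rfl⟩, h2⟩ := hg.2.1 _ (inS_stt hT F0 1)
  have h3 := h2 0
  rw [h0, ap_one, comp_f, stt_zero, stt_one] at h3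
  obtain ⟨rfl, rfl⟩ := phi_fix F0.isOct h3
  funext t
  refine iso_ext (F0.fr t) ?_
  have h4 := h2 t
  rw [comp_f, stt_one] at h4
  rw [← h4]; rfl

variable (F0)

/-- Evaluation at time `0`. -/
def ev0 (Γ : Subgroup Iso3) : GN hT F0 Γ →* Iso3 :=
  (Pi.evalMonoidHom (fun _ : unitInterval => Iso3) 0).comp (GN hT F0 Γ).subtype

lemma ev0_injective (Γ : Subgroup Iso3) : Function.Injective (ev0 hT F0 Γ) := by
  rw [injective_iff_map_eq_one]
  intro g hg
  exact Subtype.ext (GN_inj hT g.2 hg)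

/-- The group of the cusped manifold. -/
def NGr (Γ : Subgroup Iso3) : Subgroup Iso3 := (ev0 hT F0 Γ).range

noncomputable def eqv (Γ : Subgroup Iso3) : GN hT F0 Γ ≃* NGr hT F0 Γ :=
  MonoidHom.ofInjective (ev0_injective hT F0 Γ)

/-- The holonomies. -/
noncomputable def rho (Γ : Subgroup Iso3) (t : unitInterval) : NGr hT F0 Γ →* Iso3 :=
  (Pi.evalMonoidHom (fun _ : unitInterval => Iso3) t).comp
    ((GN hT F0 Γ).subtype.comp (eqv hT F0 Γ).symm.toMonoidHom)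

variable {F0}

lemma rho_mem {Γ : Subgroup Iso3} (g : NGr hT F0 Γ) :
    (fun t => rho hT F0 Γ t g) ∈ GN hT F0 Γ := ((eqv hT F0 Γ).symm g).2

lemma rho_zero {Γ : Subgroup Iso3} (g : NGr hT F0 Γ) : rho hT F0 Γ 0 g = g := by
  have : eqv hT F0 Γ ((eqv hT F0 Γ).symm g) = g := MulEquiv.apply_symm_apply _ _
  exact congrArg Subtype.val this

lemma rho_equivariant {Γ : Subgroup Iso3} (t : unitInterval) (g : NGr hT F0 Γ) (x : H3) :
    Dv hT F0 t ((g : Iso3) • x) = rho hT F0 Γ t g • Dv hT F0 t x := by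
  obtain ⟨w, hw⟩ := exists_cell hT F0 x
  obtain ⟨G', h1, h2⟩ := (rho_mem hT g).2.1 _ (inS_stt hT F0 w)
  have h20 : G'.f 0 = ap (g : Iso3) ((stt hT F0 w).f 0) := by
    rw [h2 0]; congr 1; exact rho_zero hT g
  have h3 : Cell (G'.f 0) (((g : Iso3) • x : H3) : V4) := by
    rw [h20]; exact hw.ap (State.fr _ 0) (g : Iso3)
  apply Subtype.ext
  rw [Dv_eq hT h1 t h3, h2 t, h20, smul_val, TR_ap (State.fr _ 0), smul_val,
    Dv_eq hT (inS_stt hT F0 w) t hw]

lemma continuous_rho {Γ : Subgroup Iso3} (g : NGr hT F0 Γ) (x : V4) :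
    Continuous fun t => (rho hT F0 Γ t g : V4 ≃ₗ[ℝ] V4) x := by
  obtain ⟨G', h1, h2⟩ := (rho_mem hT g).2.1 _ (inS_stt hT F0 1)
  set G := stt hT F0 1 with hG
  have h3 : (fun t => (rho hT F0 Γ t g : V4 ≃ₗ[ℝ] V4) x) =
      fun t => comb (G'.f t) (coord (G.f t) x) := by
    funext t
    rw [h2 t, comb_ap, comb_coord (G.fr t).det_ne]
  rw [h3]
  have h4 : Continuous fun t => coord (G.f t) x := by
    have := continuousOn_coord.comp (f := fun t : unitInterval => ((G.f t, x) : Fr × V4))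
      (s := Set.univ) (G.cont.prodMk continuous_const).continuousOn
      (fun t _ => (G.fr t).det_ne)
    exact continuousOn_univ.mp this
  exact continuous_comb.comp (G'.cont.prodMk h4)

lemma mem_OrPres {g : Iso3} : g ∈ OrPres ↔
    LinearMap.det ((g : V4 ≃ₗ[ℝ] V4) : V4 →ₗ[ℝ] V4) = 1 := by
  unfold OrPres
  rw [MonoidHom.mem_ker, MonoidHom.comp_apply, ← Units.val_eq_one, LinearEquiv.coe_det]
  rfl

lemma fmat_ap (g : Iso3) (F : Fr) :
    (fmat (ap g F)).det = LinearMap.det ((g : V4 ≃ₗ[ℝ] V4) : V4 →ₗ[ℝ] V4) * (fmat F).det := by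
  rw [← LinearMap.det_toMatrix', ← Matrix.det_mul]
  congr 1
  ext i j
  have h1 : ap g F j = (LinearMap.toMatrix' ((g : V4 ≃ₗ[ℝ] V4) : V4 →ₗ[ℝ] V4)).mulVec (F j) := by
    rw [LinearMap.toMatrix'_mulVec]; rfl
  have h2 := congrFun h1 i
  rw [Matrix.mul_apply]
  exact h2

lemma rho_orientation {Γ : Subgroup Iso3} (hΓ : Γ ≤ OrPres) (t : unitInterval)
    (g : NGr hT F0 Γ) : rho hT F0 Γ t g ∈ OrPres := by
  obtain ⟨G', h1, h2⟩ := (rho_mem hT g).2.1 _ (inS_stt hT F0 1)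
  set G := stt hT F0 1 with hG
  set δ : unitInterval → ℝ := fun t => (fmat (G'.f t)).det / (fmat (G.f t)).det with hδ
  have hc : Continuous δ := (continuous_fmat.comp G'.cont).matrix_det.div
    (continuous_fmat.comp G.cont).matrix_det fun t => (G.fr t).det_ne
  have hδt : ∀ t, LinearMap.det ((rho hT F0 Γ t g : V4 ≃ₗ[ℝ] V4) : V4 →ₗ[ℝ] V4) = δ t := by
    intro t
    have := fmat_ap (rho hT F0 Γ t g) (G.f t)
    rw [← h2 t] at this
    show _ = (fmat (G'.f t)).det / (fmat (G.f t)).det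
    rw [this, mul_div_assoc, div_self (G.fr t).det_ne, mul_one]
  have hsq : ∀ t, δ t ^ 2 = 1 := by
    intro t
    have e1 := det_gm (G'.f t)
    have e2 := det_gm (G.f t)
    rw [h2 t, gm_ap, ← h2 t] at e1
    have e3 : (fmat (G'.f t)).det ^ 2 = (fmat (G.f t)).det ^ 2 := by linarith
    show ((fmat (G'.f t)).det / (fmat (G.f t)).det) ^ 2 = 1
    rw [div_pow, e3, div_self (pow_ne_zero 2 (G.fr t).det_ne)]
  have h1' : δ 1 = 1 := by
    rw [← hδt]
    exact mem_OrPres.mp (hΓ (rho_mem hT g).1)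
  rw [mem_OrPres, hδt]
  have h3 : δ t = 1 ∨ δ t = -1 := by
    have h4 : (δ t - 1) * (δ t + 1) = 0 := by linear_combination hsq t
    rcases mul_eq_zero.mp h4 with h | h
    · left; linarith
    · right; linarith
  rcases h3 with h3 | h3
  · exact h3
  · exfalso
    have h4 := intermediate_value_univ t 1 hc
    rw [h3, h1'] at h4
    obtain ⟨s, hs⟩ := h4 (show (0 : ℝ) ∈ Set.Icc (-1 : ℝ) 1 by constructor <;> norm_num)
    have := hsq s
    rw [hs] at this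
    norm_num at this

end

end Run7.h606
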