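import Pool.Agent.Run7.h606.Grp

namespace Run7.h606

open Filter Topology

/-! ### Torsion-freeness -/

lemma continuousAt_nrm {y : V4} (hy : TL y) : ContinuousAt nrm y := by
  have hopen : IsOpen {x : V4 | TL x} := by
    have h1 : IsOpen {x : V4 | form x x < 0} :=
      isOpen_lt (continuous_form continuous_id continuous_id) continuous_const
    have h2 : IsOpen {x : V4 | 0 < x 0} := isOpen_lt continuous_const (continuous_apply 0)
    exact h1.inter h2
  exact (continuous_nrm (f := fun x : V4 => x) (s := {x | TL x}) continuousOn_id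
    fun x hx => hx).continuousAt (hopen.mem_nhds hy)

lemma isOpen_TL : IsOpen {x : V4 | TL x} := by
  have h1 : IsOpen {x : V4 | form x x < 0} :=
    isOpen_lt (continuous_form continuous_id continuous_id) continuous_const
  have h2 : IsOpen {x : V4 | 0 < x 0} := isOpen_lt continuous_const (continuous_apply 0)
  exact h1.inter h2

lemma eq_one_of_fix {g : Iso3} {y : H3} (h : ∀ᶠ z in 𝓝 y, g • z = z) : g = 1 := by
  have hy : g • y = y := h.self_of_nhds
  have hyv : (g : V4 ≃ₗ[ℝ] V4) (y : V4) = y := congrArg Subtype.val hy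
  have h1 : ∀ᶠ z : V4 in 𝓝 (y : V4), IsH z → (g : V4 ≃ₗ[ℝ] V4) z = z := by
    rw [nhds_subtype_eq_comap, eventually_comap] at h
    filter_upwards [h] with z hz hH
    exact congrArg Subtype.val (hz ⟨z, hH⟩ rfl)
  apply Subtype.ext
  ext1 v
  show (g : V4 ≃ₗ[ℝ] V4) v = v
  have hc : Tendsto (fun ε : ℝ => (y : V4) + ε • v) (𝓝 0) (𝓝 (y : V4)) := by
    have : Continuous fun ε : ℝ => (y : V4) + ε • v :=
      continuous_const.add (continuous_id.smul continuous_const)
    have h2 := this.tendsto 0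
    simpa using h2
  have hTL : ∀ᶠ ε : ℝ in 𝓝 0, TL ((y : V4) + ε • v) :=
    hc.eventually (isOpen_TL.mem_nhds y.2.tl)
  have hn : Tendsto (fun ε : ℝ => nrm ((y : V4) + ε • v)) (𝓝 0) (𝓝 (y : V4)) := by
    have h2 : Tendsto nrm (𝓝 (y : V4)) (𝓝 (nrm (y : V4))) := continuousAt_nrm y.2.tl
    rw [nrm_of_isH y.2] at h2
    exact h2.comp hc
  have h3 : ∀ᶠ ε : ℝ in 𝓝[≠] 0, TL ((y : V4) + ε • v) ∧
      (IsH (nrm ((y : V4) + ε • v)) → (g : V4 ≃ₗ[ℝ] V4) (nrm ((y : V4) + ε • v)) =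
        nrm ((y : V4) + ε • v)) ∧ ε ≠ 0 := by
    filter_upwards [nhdsWithin_le_nhds hTL, nhdsWithin_le_nhds (hn.eventually h1),
      self_mem_nhdsWithin] with ε a b c
    exact ⟨a, b, c⟩
  obtain ⟨ε, a, b, c⟩ := h3.exists
  have h4 := b (isH_nrm a)
  obtain ⟨k, hk, z, hz, e⟩ := a.exists_smul
  have hpos : 0 < Real.sqrt (- form ((y : V4) + ε • v) ((y : V4) + ε • v)) :=
    Real.sqrt_pos.mpr (by linarith [a.1])
  unfold nrm at h4
  rw [map_smul] at h4
  have h5 := smul_right_injective V4 (inv_ne_zero hpos.ne') h4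
  rw [map_add, map_smul, hyv] at h5
  have h6 := add_left_cancel h5
  exact smul_right_injective V4 c h6

section
variable {T : Set Fr} (hT : IsMirroredTessellation T) {F0 : State T}

/-- A finite order isometry has a fixed point. -/
lemma exists_fixed {g : Iso3} {n : ℕ} (hn : 0 < n) (hg : g ^ n = 1) : ∃ y : H3, g • y = y := by
  set v : V4 := ∑ k ∈ Finset.range n, ((g ^ k : Iso3) : V4 ≃ₗ[ℝ] V4) ce with hv
  have hTL : ∀ m, 0 < m → TL (∑ k ∈ Finset.range m, ((g ^ k : Iso3) : V4 ≃ₗ[ℝ] V4) ce) := by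
    intro m hm
    induction m with
    | zero => exact absurd hm (lt_irrefl 0)
    | succ m ih =>
      rw [Finset.sum_range_succ]
      have h1 : TL (((g ^ m : Iso3) : V4 ≃ₗ[ℝ] V4) ce) := Iso3.tl _ isH_ce.tl
      rcases Nat.eq_zero_or_pos m with h | h
      · subst h; simpa using h1
      · exact (ih h).add_CF h1.cf
  have hfix : (g : V4 ≃ₗ[ℝ] V4) v = v := by
    have h1 : ∀ k, (g : V4 ≃ₗ[ℝ] V4) (((g ^ k : Iso3) : V4 ≃ₗ[ℝ] V4) ce) =
        ((g ^ (k + 1) : Iso3) : V4 ≃ₗ[ℝ] V4) ce := by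
      intro k; rw [pow_succ']; rfl
    rw [hv, map_sum, Finset.sum_congr rfl fun k _ => h1 k]
    have h2 := Finset.sum_range_succ (fun k => ((g ^ k : Iso3) : V4 ≃ₗ[ℝ] V4) ce) n
    have h3 := Finset.sum_range_succ' (fun k => ((g ^ k : Iso3) : V4 ≃ₗ[ℝ] V4) ce) n
    rw [h3] at h2
    rw [hg, pow_zero] at h2
    exact add_right_cancel h2
  refine ⟨⟨nrm v, isH_nrm (hTL n hn)⟩, Subtype.ext ?_⟩
  show (g : V4 ≃ₗ[ℝ] V4) (nrm v) = nrm v
  rw [← Iso3.nrm, hfix]

lemma NGr_torsionFree {Γ : Subgroup Iso3}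
    (hΓ : ∀ g ∈ Γ, ∀ n : ℕ, 0 < n → g ^ n = 1 → g = 1) :
    ∀ g ∈ NGr hT F0 Γ, ∀ n : ℕ, 0 < n → g ^ n = 1 → g = 1 := by
  intro g hg n hn hgn
  have h1 : rho hT F0 Γ 1 ⟨g, hg⟩ = 1 := by
    refine hΓ _ (rho_mem hT ⟨g, hg⟩).1 n hn ?_
    show (rho hT F0 Γ 1 ⟨g, hg⟩) ^ n = 1
    rw [← map_pow]
    have : (⟨g, hg⟩ : NGr hT F0 Γ) ^ n = 1 := Subtype.ext hgn
    rw [this, map_one]
  obtain ⟨y, hy⟩ := exists_fixed hn hgn
  obtain ⟨U, hU1, hU2, hU3⟩ := (Dv_localHomeo hT (F0 := F0) 1).isLocallyInjective y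
  refine eq_one_of_fix (y := y) ?_
  have hc : Continuous fun z : H3 => g • z := by
    refine Continuous.subtype_mk ?_ _
    exact (LinearMap.continuous_of_finiteDimensional
      ((g : V4 ≃ₗ[ℝ] V4) : V4 →ₗ[ℝ] V4)).comp continuous_subtype_val
  have h2 : ∀ᶠ z in 𝓝 y, g • z ∈ U := by
    have := hc.tendsto y
    rw [hy] at this
    exact this (hU1.mem_nhds hU2)
  filter_upwards [h2, hU1.mem_nhds hU2] with z hz hz'
  refine hU3 hz hz' ?_
  have := rho_equivariant hT 1 ⟨g, hg⟩ z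
  rw [h1, one_smul] at this
  exact this

end

/-! ### The standard octahedron and the integral group -/

/-- Integral isometries. -/
def IntI (g : Iso3) : Prop := ∀ x, IsInt ((g : V4 ≃ₗ[ℝ] V4) x) ↔ IsInt x

lemma IntI.mul {a b : Iso3} (ha : IntI a) (hb : IntI b) : IntI (a * b) := by
  intro x
  have h1 := ha ((b : V4 ≃ₗ[ℝ] V4) x)
  exact h1.trans (hb x)

lemma IntI.one : IntI 1 := fun _ => Iff.rfl

lemma IntI.inv {a : Iso3} (ha : IntI a) : IntI a⁻¹ := by
  intro x
  have h1 := ha (((a⁻¹ : Iso3) : V4 ≃ₗ[ℝ] V4) x)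
  have h2 : (a : V4 ≃ₗ[ℝ] V4) (((a⁻¹ : Iso3) : V4 ≃ₗ[ℝ] V4) x) = x :=
    (a : V4 ≃ₗ[ℝ] V4).apply_symm_apply x
  rw [h2] at h1
  exact h1.symm

lemma phi_IntI (w : W) : IntI (phi E0 isOct_E0 w) := phi_E0_int_iff w

/-- Reflections in integer vectors of norm `2`. -/
lemma intI_refl {u m : V4} (hu : form u u = 1) (hm : IsInt m)
    (h : u = (Real.sqrt 2)⁻¹ • m) : IntI (reflI u hu) := by
  have h1 : ∀ x, refl u x = x - form x m • m := by
    intro x
    unfold refl
    rw [h, form_smul_right, smul_smul]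
    congr 2
    have := sqrt2_inv_sq
    linear_combination (2 * form x m) * this
  have h2 : ∀ x, IsInt x → IsInt (refl u x) := by
    intro x hx k
    rw [h1]
    obtain ⟨n, hn⟩ := hx.form hm
    obtain ⟨m', hm'⟩ := hm k
    obtain ⟨a, ha⟩ := hx k
    refine ⟨a - n * m', ?_⟩
    rw [Pi.sub_apply, Pi.smul_apply, smul_eq_mul, hn, hm', ha]; push_cast; ring
  intro x
  refine ⟨fun h => ?_, h2 x⟩
  have := h2 _ h
  rw [reflI_apply, refl_refl hu] at this
  exact this

/-- Label permutations of the standard octahedron are realised by integral isometries. -/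
lemma exists_perm (π : Equiv.Perm (Fin 4)) : ∃ u : Iso3, IntI u ∧ ap u E0 = E0 ∘ π := by
  induction π using Equiv.Perm.swap_induction_on with
  | one => exact ⟨1, IntI.one, rfl⟩
  | swap_mul f i j hij ih =>
    obtain ⟨u, hu1, hu2⟩ := ih
    -- the reflection exchanging `E0 i` and `E0 j`
    have hii := isOct_E0.form_self i
    have hjj := isOct_E0.form_self j
    have hij' := isOct_E0.form_ne hij
    have hn : form ((1/2 : ℝ) • (E0 i - E0 j)) ((1/2 : ℝ) • (E0 i - E0 j)) = 1 := by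
      rw [form_smul_left, form_smul_right, form_sub_left, form_sub_right, form_sub_right, hii,
        hjj, hij', form_comm (E0 j), hij']; norm_num
    have hint : IsInt ((1/2 : ℝ) • (mE (true, i) - mE (true, j))) := by
      intro k
      fin_cases i <;> fin_cases j <;> fin_cases k <;>
        first
        | (refine ⟨0, ?_⟩; simp [mE]; done)
        | (refine ⟨1, ?_⟩; simp [mE]; norm_num; done)
        | (refine ⟨-1, ?_⟩; simp [mE]; norm_num; done)
    have hri : IntI (reflI _ hn) := by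
      refine intI_refl hn hint ?_
      show (1/2 : ℝ) • ((Real.sqrt 2)⁻¹ • mE (true, i) - (Real.sqrt 2)⁻¹ • mE (true, j)) = _
      module
    refine ⟨reflI _ hn * u, hri.mul hu1, ?_⟩
    rw [ap_mul, hu2]
    funext k
    show refl ((1/2 : ℝ) • (E0 i - E0 j)) (E0 (f k)) = E0 (Equiv.swap i j (f k))
    have hform : ∀ l, form (E0 l) ((1/2 : ℝ) • (E0 i - E0 j)) =
        if l = i then 1 else if l = j then -1 else 0 := by
      intro l
      rw [form_smul_right, form_sub_right]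
      split_ifs with h1 h2
      · subst h1; rw [hii, hij']; norm_num
      · subst h2; rw [hjj, form_comm, hij']; norm_num
      · rw [isOct_E0.form_ne h1, isOct_E0.form_ne h2]; norm_num
    unfold refl
    rw [hform]
    split_ifs with h1 h2
    · rw [h1, Equiv.swap_apply_left]; module
    · rw [h2, Equiv.swap_apply_right]; module
    · rw [Equiv.swap_apply_of_ne_of_ne h1 h2]; simp

lemma basis_eq (x : V4) : x = ∑ i, x i • (Pi.single i (1 : ℝ) : V4) := by
  ext k
  simp [Pi.single_apply]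

/-- The stabiliser of the centre in the integral group is finite. -/
lemma finite_stab : {u : Iso3 | IntI u ∧ (u : V4 ≃ₗ[ℝ] V4) ce = ce}.Finite := by
  have hbox : {v : V4 | IsInt v ∧ ∀ i, |v i| ≤ 1}.Finite := finite_int_box 1
  have hpi : (Set.pi Set.univ (fun _ : Fin 4 => {v : V4 | IsInt v ∧ ∀ i, |v i| ≤ 1})).Finite :=
    Set.Finite.pi fun _ => hbox
  refine Set.Finite.of_injOn (f := fun u : Iso3 => fun i : Fin 4 =>
    (u : V4 ≃ₗ[ℝ] V4) (Pi.single i (1 : ℝ) : V4)) ?_ ?_ hpi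
  · rintro u ⟨hu1, hu2⟩ i _
    have hce : (Pi.single 0 (1 : ℝ) : V4) = ce := by
      ext k; fin_cases k <;> simp [ce]
    refine ⟨(hu1 _).mpr ?_, ?_⟩
    · intro k
      by_cases hk : k = i
      · subst hk; exact ⟨1, by simp⟩
      · exact ⟨0, by simp [Pi.single_apply, hk]⟩
    · by_cases hi : i = 0
      · subst hi
        intro k
        show |(u : V4 ≃ₗ[ℝ] V4) (Pi.single 0 (1 : ℝ) : V4) k| ≤ 1
        rw [hce, hu2]
        fin_cases k <;> simp [ce]
      · have h1 : form ((u : V4 ≃ₗ[ℝ] V4) (Pi.single i (1 : ℝ) : V4))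
            ((u : V4 ≃ₗ[ℝ] V4) (Pi.single i (1 : ℝ) : V4)) = 1 := by
          rw [Iso3.form_eq]
          rcases fin4_cases i with rfl | rfl | rfl | rfl
          · exact absurd rfl hi
          all_goals simp [form, Pi.single_apply]
        have h2 : form ((u : V4 ≃ₗ[ℝ] V4) (Pi.single i (1 : ℝ) : V4)) ce = 0 := by
          conv_lhs => rw [← hu2]
          rw [Iso3.form_eq]
          rcases fin4_cases i with rfl | rfl | rfl | rfl
          · exact absurd rfl hi
          all_goals simp [form, ce, Pi.single_apply]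
        set v := (u : V4 ≃ₗ[ℝ] V4) (Pi.single i (1 : ℝ) : V4) with hv
        have h3 : v 0 = 0 := by
          simp [form, ce] at h2; exact h2
        unfold form at h1
        rw [h3] at h1
        intro k
        show |v k| ≤ 1
        rcases fin4_cases k with rfl | rfl | rfl | rfl
        · rw [h3]; simp
        · refine abs_le_one_iff_mul_self_le_one.mpr ?_
          nlinarith [mul_self_nonneg (v 2), mul_self_nonneg (v 3)]
        · refine abs_le_one_iff_mul_self_le_one.mpr ?_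
          nlinarith [mul_self_nonneg (v 1), mul_self_nonneg (v 3)]
        · refine abs_le_one_iff_mul_self_le_one.mpr ?_
          nlinarith [mul_self_nonneg (v 2), mul_self_nonneg (v 1)]
  · rintro u _ u' _ h
    apply Subtype.ext
    ext1 x
    show (u : V4 ≃ₗ[ℝ] V4) x = (u' : V4 ≃ₗ[ℝ] V4) x
    rw [basis_eq x, map_sum, map_sum]
    refine Finset.sum_congr rfl fun i _ => ?_
    rw [map_smul, map_smul]
    congr 1
    exact congrFun h i

lemma int_key {a0 a1 a2 a3 : ℤ} (h : a0 * a0 = 1 + a1 * a1 + a2 * a2 + a3 * a3)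
    (hs : |a1| + |a2| + |a3| ≤ a0) : a0 = 1 ∧ a1 = 0 ∧ a2 = 0 ∧ a3 = 0 := by
  have hsq : a0 * a0 = 1 + |a1| * |a1| + |a2| * |a2| + |a3| * |a3| := by
    rw [abs_mul_abs_self, abs_mul_abs_self, abs_mul_abs_self]; exact h
  have n1 := abs_nonneg a1
  have n2 := abs_nonneg a2
  have n3 := abs_nonneg a3
  have p12 : 0 ≤ |a1| * |a2| := mul_nonneg n1 n2
  have p13 : 0 ≤ |a1| * |a3| := mul_nonneg n1 n3
  have p23 : 0 ≤ |a2| * |a3| := mul_nonneg n2 n3
  have hprod : 2 * (|a1| * |a2|) + 2 * (|a1| * |a3|) + 2 * (|a2| * |a3|) ≤ 1 := by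
    nlinarith
  have q12 : |a1| * |a2| = 0 := by omega
  have q13 : |a1| * |a3| = 0 := by omega
  have q23 : |a2| * |a3| = 0 := by omega
  have hS : (|a1| + |a2| + |a3|) * (|a1| + |a2| + |a3|) =
      |a1| * |a1| + |a2| * |a2| + |a3| * |a3| := by
    linear_combination 2 * q12 + 2 * q13 + 2 * q23
  have hS0 : 0 ≤ |a1| + |a2| + |a3| := by positivity
  have hfac : (a0 - (|a1| + |a2| + |a3|)) * (a0 + (|a1| + |a2| + |a3|)) = 1 := by
    linear_combination hsq - hS
  have h1' : a0 - (|a1| + |a2| + |a3|) = 1 := by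
    rcases Int.eq_one_or_neg_one_of_mul_eq_one hfac with h | h
    · exact h
    · omega
  have h2' : a0 + (|a1| + |a2| + |a3|) = 1 := by rw [h1', one_mul] at hfac; exact hfac
  have ha : |a1| = 0 ∧ |a2| = 0 ∧ |a3| = 0 := by omega
  exact ⟨by omega, abs_eq_zero.mp ha.1, abs_eq_zero.mp ha.2.1, abs_eq_zero.mp ha.2.2⟩

/-- The integer points of the octahedron. -/
lemma int_Ch {v : V4} (hv : v ∈ Ch E0) (hi : IsInt v) : v = ce := by
  obtain ⟨⟨h1, h0⟩, h2⟩ := hv
  have h3 : ∀ s, form v (mE s) ≤ 0 := by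
    intro s
    have := h2 s
    rw [nm_E0, form_smul_right] at this
    have h4 : 0 < (Real.sqrt 2)⁻¹ := by positivity
    nlinarith
  obtain ⟨a0, k0⟩ := hi 0
  obtain ⟨a1, k1⟩ := hi 1
  obtain ⟨a2, k2⟩ := hi 2
  obtain ⟨a3, k3⟩ := hi 3
  have e1 := h3 (true, 0)
  have e2 := h3 (true, 1)
  have e3 := h3 (true, 2)
  have e4 := h3 (true, 3)
  have e5 := h3 (false, 0)
  have e6 := h3 (false, 1)
  have e7 := h3 (false, 2)
  have e8 := h3 (false, 3)
  simp [form, mE] at e1 e2 e3 e4 e5 e6 e7 e8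
  unfold form at h1
  rw [k0, k1, k2, k3] at h1
  have H : a0 * a0 = 1 + a1 * a1 + a2 * a2 + a3 * a3 := by
    have : ((a0 * a0 : ℤ) : ℝ) = ((1 + a1 * a1 + a2 * a2 + a3 * a3 : ℤ) : ℝ) := by
      push_cast; linarith
    exact_mod_cast this
  have hs : |a1| + |a2| + |a3| ≤ a0 := by
    have hr : |v 1| + |v 2| + |v 3| ≤ v 0 := by
      rcases abs_cases (v 1) with ⟨h, _⟩ | ⟨h, _⟩ <;>
        rcases abs_cases (v 2) with ⟨h', _⟩ | ⟨h', _⟩ <;>
        rcases abs_cases (v 3) with ⟨h'', _⟩ | ⟨h'', _⟩ <;> rw [h, h', h''] <;> linarith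
    rw [k0, k1, k2, k3] at hr
    have : ((|a1| + |a2| + |a3| : ℤ) : ℝ) ≤ a0 := by push_cast; exact hr
    exact_mod_cast this
  obtain ⟨r0, r1, r2, r3⟩ := int_key H hs
  ext k
  rcases fin4_cases k with rfl | rfl | rfl | rfl
  · rw [k0, r0]; simp [ce]
  · rw [k1, r1]; simp [ce]
  · rw [k2, r2]; simp [ce]
  · rw [k3, r3]; simp [ce]

lemma int_decomp {k : Iso3} (hk : IntI k) : ∃ (w : W) (u : Iso3), IntI u ∧
    (u : V4 ≃ₗ[ℝ] V4) ce = ce ∧ k = phi E0 isOct_E0 w * u := by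
  obtain ⟨w, hw⟩ := cover_E0 ((Iso3.isH_iff k ce).mpr isH_ce)
  refine ⟨w, phi E0 isOct_E0 w⁻¹ * k, (phi_IntI _).mul hk, ?_, ?_⟩
  · exact int_Ch hw ((phi_IntI _ _).mpr ((hk _).mpr isInt_ce))
  · rw [map_inv]; group

end Run7.h606
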