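import Pool.Agent.Run7.h606.Lat

namespace Run7.h606

open Filter Topology

/-! ### Tiles -/

section
variable {T : Set Fr} (hT : IsMirroredTessellation T)

lemma mem_truncated {e : Fr} (he : IsFr e) (x : H3) : x ∈ truncated e ↔
    (∀ i, 0 ≤ coord e x i) ∧ ∀ i, form x (e i) ≤ 0 := by
  constructor
  · rintro ⟨⟨a, ha, hx⟩, h2⟩
    have h : (x : V4) = comb e a := hx
    refine ⟨fun i => ?_, h2⟩
    rw [h, coord_comb he.det_ne]; exact ha i
  · rintro ⟨h1, h2⟩
    exact ⟨⟨coord e x, h1, (comb_coord he.det_ne _).symm⟩, h2⟩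

lemma Cell.mem_truncated {e : Fr} (he : IsFr e) {x : H3} (hx : Cell e (x : V4)) :
    x ∈ truncated e := (Run7.h606.mem_truncated he x).mpr ⟨hx.nn, hx.sn⟩

/-- The centre of a tile. -/
lemma centre_mem {e : Fr} (he : IsFr e) :
    (⟨nrm (∑ i, e i), isH_nrm he.fut⟩ : H3) ∈ truncated e := by
  rw [Run7.h606.mem_truncated he]
  have h1 : (∑ i, e i) = comb e (fun _ => 1) := by simp [comb]
  have h2 := inv_pos.mpr (Real.sqrt_pos.mpr (show 0 < - form (∑ i, e i) (∑ i, e i) by
    linarith [he.fut.1]))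
  refine ⟨fun i => ?_, fun i => ?_⟩
  · show 0 ≤ coord e (nrm (∑ i, e i)) i
    rw [nrm, coord_smul]
    conv_rhs => rw [h1, coord_comb he.det_ne]
    rw [← h1]
    simpa using h2.le
  · show form (nrm (∑ i, e i)) (e i) ≤ 0
    rw [nrm, form_smul_left]
    have := he.gd.form_sum_le i
    rw [form_comm] at this
    nlinarith

lemma mem_truncated_ap {e : Fr} (he : IsFr e) {x : H3} (hx : x ∈ truncated e) (g : Iso3) :
    g • x ∈ truncated (ap g e) := by
  rw [mem_truncated he] at hx
  rw [mem_truncated (he.ap g)]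
  refine ⟨fun i => ?_, fun i => ?_⟩
  · rw [smul_val, coord_ap he]; exact hx.1 i
  · rw [smul_val, ap_apply, Iso3.form_eq]; exact hx.2 i

include hT in
/-- Finitely many tiles up to the group. -/
lemma finite_reps {Γ : Subgroup Iso3} (hinv : ∀ γ ∈ Γ, ∀ e ∈ T, ap γ e ∈ T)
    (hco : ∃ K : Set H3, IsCompact K ∧ ∀ x, ∃ g ∈ Γ, g • x ∈ K) :
    ∃ R : Set Fr, R.Finite ∧ R ⊆ T ∧ ∀ e ∈ T, ∃ γ ∈ Γ, ap γ e ∈ R := by
  obtain ⟨K, hK, hcov⟩ := hco
  refine ⟨{e | e ∈ T ∧ (truncated e ∩ K).Nonempty}, ?_, fun e he => he.1, fun e he => ?_⟩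
  · refine hK.induction_on (p := fun s => {e | e ∈ T ∧ (truncated e ∩ s).Nonempty}.Finite)
      ?_ ?_ ?_ ?_
    · simp
    · intro s t hst ht
      refine ht.subset ?_
      rintro e ⟨h1, h2⟩
      exact ⟨h1, h2.mono (Set.inter_subset_inter_right _ hst)⟩
    · intro s t hs ht
      refine (hs.union ht).subset ?_
      rintro e ⟨h1, x, hx, hx'⟩
      rcases hx' with hx' | hx'
      · exact Or.inl ⟨h1, x, hx, hx'⟩
      · exact Or.inr ⟨h1, x, hx, hx'⟩
    · intro x _
      obtain ⟨U, hU, hfin⟩ := hT.locallyFinite x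
      exact ⟨U, mem_nhdsWithin_of_mem_nhds hU, hfin⟩
  · obtain ⟨g, hg, hgx⟩ := hcov ⟨nrm (∑ i, e i), isH_nrm (tile_fr hT he).fut⟩
    exact ⟨g, hg, hinv g hg e he, _, mem_truncated_ap (tile_fr hT he)
      (centre_mem (tile_fr hT he)) g, hgx⟩

/-! ### Lines through two vertices -/

/-- The line through two hyperideal points. -/
def eln (u v : V4) : Set H3 := {x | ∃ a b : ℝ, (x : V4) = a • u + b • v}

lemma eln_symm (u v : V4) : eln u v = eln v u := by
  ext x
  constructor <;> rintro ⟨a, b, h⟩ <;> exact ⟨b, a, by rw [h, add_comm]⟩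

lemma eln_refl {u : V4} (hu : form u u = 1) (v : V4) : eln (refl u u) (refl u v) = eln u v := by
  ext x
  constructor
  · rintro ⟨a, b, h⟩
    refine ⟨-a - 2 * form v u * b, b, ?_⟩
    rw [h, refl_self hu]; unfold refl; module
  · rintro ⟨a, b, h⟩
    refine ⟨-a - 2 * form v u * b, b, ?_⟩
    rw [h, refl_self hu]; unfold refl; module

lemma eln_refl' {v : V4} (hv : form v v = 1) (u : V4) : eln (refl v u) (refl v v) = eln u v := by
  rw [eln_symm, eln_refl hv, eln_symm]

lemma eln_image (g : Iso3) (u v : V4) : (fun x : H3 => g • x) '' eln u v =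
    eln ((g : V4 ≃ₗ[ℝ] V4) u) ((g : V4 ≃ₗ[ℝ] V4) v) := by
  ext x
  constructor
  · rintro ⟨y, ⟨a, b, h⟩, rfl⟩
    refine ⟨a, b, ?_⟩
    show (g : V4 ≃ₗ[ℝ] V4) (y : V4) = _
    rw [h, map_add, map_smul, map_smul]
  · rintro ⟨a, b, h⟩
    refine ⟨g⁻¹ • x, ⟨a, b, ?_⟩, smul_inv_smul g x⟩
    apply (g : V4 ≃ₗ[ℝ] V4).injective
    rw [map_add, map_smul, map_smul, ← h]
    exact congrArg Subtype.val (smul_inv_smul g x)

/-- The link. -/
def Lk (T : Set Fr) : Set (Set H3) := {l | ∃ e ∈ T, ∃ i j, i ≠ j ∧ l = eln (e i) (e j)}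

lemma isLine_eln {u v : V4} (hu : form u u = 1) (hv : form v v = 1) (huv : form u v < -1) :
    IsLine (eln u v) := by
  have hp : 0 < -(2 + 2 * form u v) := by linarith
  have hq : 0 < 2 - 2 * form u v := by linarith
  set p := Real.sqrt (-(2 + 2 * form u v)) with hpd
  set q := Real.sqrt (2 - 2 * form u v) with hqd
  have hp0 : 0 < p := Real.sqrt_pos.mpr hp
  have hq0 : 0 < q := Real.sqrt_pos.mpr hq
  have hp2 : p * p = -(2 + 2 * form u v) := Real.mul_self_sqrt hp.le
  have hq2 : q * q = 2 - 2 * form u v := Real.mul_self_sqrt hq.le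
  refine ⟨p⁻¹ • (u + v), q⁻¹ • (u - v), ?_, ?_, ?_, ?_⟩
  · rw [form_smul_left, form_smul_right, form_add_left, form_add_right, form_add_right, hu, hv,
      form_comm v u]
    field_simp
    linarith [hp2, pow_two p]
  · rw [form_smul_left, form_smul_right, form_sub_left, form_sub_right, form_sub_right, hu, hv,
      form_comm v u]
    field_simp
    linarith [hq2, pow_two q]
  · rw [form_smul_left, form_smul_right, form_add_left, form_sub_right, form_sub_right, hu, hv,
      form_comm v u]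
    ring
  · ext x
    constructor
    · rintro ⟨a, b, h⟩
      refine ⟨(a + b) / 2 * p, (a - b) / 2 * q, ?_⟩
      rw [h, smul_smul, smul_smul, mul_assoc, mul_assoc, mul_inv_cancel₀ hp0.ne',
        mul_inv_cancel₀ hq0.ne']
      module
    · rintro ⟨a, b, h⟩
      refine ⟨a * p⁻¹ + b * q⁻¹, a * p⁻¹ - b * q⁻¹, ?_⟩
      rw [h]; module

/-! ### Points of the lines lie on edges of tiles -/

/-- `x` lies on the edge `i j` of `e`, with positive coordinates. -/
structure OnE (e : Fr) (i j : Fin 4) (x : H3) (a b : ℝ) : Prop where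
  eq : (x : V4) = a • e i + b • e j
  pa : 0 < a
  pb : 0 < b

include hT in
lemma onE_rel {e : Fr} (he : e ∈ T) {i j : Fin 4} {x : H3} {a b : ℝ}
    (h : (x : V4) = a • e i + b • e j) :
    a ^ 2 + b ^ 2 + 1 = 2 * (a * b * gm e i j) := by
  have h1 := x.2.1
  rw [h] at h1
  simp only [form_add_left, form_add_right, form_smul_left, form_smul_right,
    (tile_fr hT he).unit] at h1
  rw [form_comm (e j) (e i)] at h1
  simp only [gm_apply]
  linarith

include hT in
lemma gm_gt {e : Fr} (he : e ∈ T) {i j : Fin 4} (hij : i ≠ j) : 1 < gm e i j := by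
  have := (hT.hyperideal e he).ultraparallel i j hij
  simp only [gm_apply]; linarith

include hT in
lemma onE_of_mem {e : Fr} (he : e ∈ T) {i j : Fin 4} (hij : i ≠ j) {x : H3} {a b : ℝ}
    (h : (x : V4) = a • e i + b • e j) : OnE e i j x a b := by
  have h1 := onE_rel hT he h
  have hc := gm_gt hT he hij
  have hcf := (tile_fr hT he).cf_pair hij
  have h2 := form_neg_of_TL_CF x.2.tl hcf
  have h3 : form (x : V4) (e i + e j) = (a + b) * (1 - gm e i j) := by
    rw [h]
    simp only [form_add_left, form_add_right, form_smul_left, (tile_fr hT he).unit, gm_apply]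
    rw [form_comm (e j) (e i)]; ring
  rw [h3] at h2
  have hab : 0 < a + b := by nlinarith
  have hprod : 0 < a * b := by
    by_contra hc'
    push Not at hc'
    nlinarith [sq_nonneg a, sq_nonneg b]
  have ha : 0 < a := by
    by_contra hc'
    push Not at hc'
    nlinarith
  exact ⟨h, ha, by nlinarith⟩

include hT in
lemma onE_step {e : Fr} (he : e ∈ T) {i j : Fin 4} (hij : i ≠ j) {x : H3} {a b : ℝ}
    (h : OnE e i j x a b) :
    refl (e i) ∘ e ∈ T ∧ OnE (refl (e i) ∘ e) i j x (2 * b * gm e i j - a) b ∧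
      gm (refl (e i) ∘ e) = gm e ∧
      eln ((refl (e i) ∘ e) i) ((refl (e i) ∘ e) j) = eln (e i) (e j) := by
  have hT' := hT.mirror e he i e he
  have hu := (tile_fr hT he).unit i
  refine ⟨hT', onE_of_mem hT hT' hij ?_, gm_ap (reflI (e i) hu) e, eln_refl hu _⟩
  show (x : V4) = (2 * b * gm e i j - a) • refl (e i) (e i) + b • refl (e i) (e j)
  rw [refl_self hu, h.eq]
  unfold refl
  rw [gm_apply, form_comm (e j) (e i)]
  module

include hT in
lemma edge_cover_aux (x : H3) (c : ℝ) (hc : 1 < c) : ∀ (n : ℕ) (e : Fr), e ∈ T →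
    ∀ (i j : Fin 4), i ≠ j → gm e i j = c → ∀ a b : ℝ, OnE e i j x a b →
    2 * c * a ^ 2 ≤ (c ^ 2) ^ n → 2 * c * b ^ 2 ≤ (c ^ 2) ^ n →
    ∃ e1 ∈ T, ∃ a' b', OnE e1 i j x a' b' ∧ a' ≤ b' * gm e1 i j ∧ b' ≤ a' * gm e1 i j ∧
      eln (e1 i) (e1 j) = eln (e i) (e j) := by
  intro n
  induction n with
  | zero =>
    intro e he i j hij hg a b hab h1 h2
    exfalso
    have h3 := onE_rel hT he hab.eq
    rw [hg] at h3
    have := hab.pa; have := hab.pb
    rw [pow_zero] at h1 h2
    nlinarith [mul_nonneg (show (0:ℝ) ≤ 2 * c by linarith) (sq_nonneg (a - b)), sq_nonneg a,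
      mul_pos hab.pa hab.pa]
  | succ n ih =>
    -- the one-sided step
    have key : ∀ (e : Fr), e ∈ T → ∀ (i j : Fin 4), i ≠ j → gm e i j = c → ∀ a b : ℝ,
        OnE e i j x a b → 2 * c * a ^ 2 ≤ (c ^ 2) ^ (n + 1) → b * c < a →
        ∃ e1 ∈ T, ∃ a' b', OnE e1 i j x a' b' ∧ a' ≤ b' * gm e1 i j ∧ b' ≤ a' * gm e1 i j ∧
        eln (e1 i) (e1 j) = eln (e i) (e j) := by
      intro e he i j hij hg a b hab h1 hlt
      obtain ⟨k1, k2, k3, k4⟩ := onE_step hT he hij hab
      rw [hg] at k2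
      have hg' : gm (refl (e i) ∘ e) i j = c := by rw [k3, hg]
      have pa' := k2.pa
      have pb := hab.pb
      by_cases hle : b ≤ 2 * b * c - a
      · refine ⟨_, k1, _, _, k2, ?_, ?_, k4⟩
        · rw [hg']; linarith
        · rw [hg']; nlinarith
      · push Not at hle
        have hb2 : 2 * c * b ^ 2 ≤ (c ^ 2) ^ n := by
          have h5 : (b * c) ^ 2 ≤ a ^ 2 := by
            apply pow_le_pow_left₀ (by positivity) hlt.le
          have h6 : 2 * c * b ^ 2 * c ^ 2 ≤ (c ^ 2) ^ n * c ^ 2 := by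
            rw [← pow_succ]
            calc 2 * c * b ^ 2 * c ^ 2 = 2 * c * (b * c) ^ 2 := by ring
              _ ≤ 2 * c * a ^ 2 := by
                apply mul_le_mul_of_nonneg_left h5; linarith
              _ ≤ _ := h1
          exact le_of_mul_le_mul_right h6 (by positivity)
        have ha2 : 2 * c * (2 * b * c - a) ^ 2 ≤ (c ^ 2) ^ n := by
          refine le_trans ?_ hb2
          apply mul_le_mul_of_nonneg_left _ (by linarith)
          exact pow_le_pow_left₀ pa'.le hle.le 2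
        obtain ⟨e1, m1, a', b', m2, m3, m4, m5⟩ := ih _ k1 i j hij hg' _ _ k2 ha2 hb2
        exact ⟨e1, m1, a', b', m2, m3, m4, by rw [m5, k4]⟩
    intro e he i j hij hg a b hab h1 h2
    by_cases hA : a ≤ b * c
    · by_cases hB : b ≤ a * c
      · exact ⟨e, he, a, b, hab, by rw [hg]; exact hA, by rw [hg]; exact hB, rfl⟩
      · push Not at hB
        have hg2 : gm e j i = c := by rw [← hg, gm_apply, gm_apply, form_comm]
        obtain ⟨e1, m1, a', b', m2, m3, m4, m5⟩ := key e he j i hij.symm hg2 b a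
          ⟨by rw [hab.eq, add_comm], hab.pb, hab.pa⟩ h2 hB
        have hs : gm e1 j i = gm e1 i j := by rw [gm_apply, gm_apply, form_comm]
        rw [hs] at m3 m4
        exact ⟨e1, m1, b', a', ⟨by rw [m2.eq, add_comm], m2.pb, m2.pa⟩, m4, m3, by
          rw [eln_symm, m5, eln_symm]⟩
    · push Not at hA
      exact key e he i j hij hg a b hab h1 hA

include hT in
/-- Every point of the line through two vertices of a tile lies on an edge of a tile. -/
lemma edge_cover {e : Fr} (he : e ∈ T) {i j : Fin 4} (hij : i ≠ j) {x : H3}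
    (hx : x ∈ eln (e i) (e j)) : ∃ e1 ∈ T, x ∈ truncated e1 ∧ (∃ a b, OnE e1 i j x a b) ∧
      eln (e1 i) (e1 j) = eln (e i) (e j) := by
  obtain ⟨a, b, hab⟩ := hx
  have hc := gm_gt hT he hij
  have hE := onE_of_mem hT he hij hab
  obtain ⟨n, hn⟩ := pow_unbounded_of_one_lt
    (max (2 * gm e i j * a ^ 2) (2 * gm e i j * b ^ 2))
    (show (1:ℝ) < gm e i j ^ 2 by nlinarith)
  obtain ⟨e1, m1, a', b', m2, m3, m4, m5⟩ := edge_cover_aux hT x _ hc n e he i j hij rfl a b hE
    ((le_max_left _ _).trans hn.le) ((le_max_right _ _).trans hn.le)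
  refine ⟨e1, m1, ?_, ⟨a', b', m2⟩, m5⟩
  refine ⟨⟨fun k => if k = i then a' else if k = j then b' else 0, fun k => ?_, ?_⟩, fun k => ?_⟩
  · show 0 ≤ if k = i then a' else if k = j then b' else 0
    split_ifs
    · exact m2.pa.le
    · exact m2.pb.le
    · exact le_refl _
  · show (x : V4) = ∑ k, (if k = i then a' else if k = j then b' else 0) • e1 k
    rw [m2.eq, Finset.sum_eq_add i j hij (fun k _ hk => by
      show (if k = i then a' else if k = j then b' else 0) • e1 k = 0
      rw [if_neg hk.1, if_neg hk.2, zero_smul]) (by simp) (by simp)]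
    show _ = (if i = i then a' else if i = j then b' else 0) • e1 i +
      (if j = i then a' else if j = j then b' else 0) • e1 j
    rw [if_pos rfl, if_neg hij.symm, if_pos rfl]
  · rw [m2.eq, form_add_left, form_smul_left, form_smul_left]
    have hu := (tile_fr hT m1).unit
    simp only [gm_apply] at m3 m4
    have pa := m2.pa
    have pb := m2.pb
    by_cases h1 : k = i
    · subst h1; rw [hu, form_comm (e1 j)]; linarith
    by_cases h2 : k = j
    · subst h2; rw [hu]; linarith
    have q1 := (hT.hyperideal e1 m1).ultraparallel i k (Ne.symm h1)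
    have q2 := (hT.hyperideal e1 m1).ultraparallel j k (Ne.symm h2)
    nlinarith

lemma coord_onE {e : Fr} (he : IsFr e) {i j : Fin 4} {x : V4} {a b : ℝ}
    (h : x = a • e i + b • e j) (k : Fin 4) (hk : k ≠ i) (hk' : k ≠ j) :
    coord e x k = 0 := by
  rw [h, coord_add, coord_smul, coord_smul, coord_self he.det_ne, coord_self he.det_ne]
  simp [Pi.single_apply, hk, hk']

lemma coord_onE_left {e : Fr} (he : IsFr e) {i j : Fin 4} (hij : i ≠ j) {x : V4} {a b : ℝ}
    (h : x = a • e i + b • e j) : coord e x i = a := by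
  rw [h, coord_add, coord_smul, coord_smul, coord_self he.det_ne, coord_self he.det_ne]
  simp [Pi.single_apply, hij]

/-- Matching of coordinates along shared vertices. -/
lemma coord_match {e e'' : Fr} (he : IsFr e) (he'' : IsFr e'') {x : V4} {σ : Fin 4 → Fin 4}
    (hσ : ∀ i, coord e x i ≠ 0 → e'' (σ i) = e i) (i : Fin 4) (hi : coord e x i ≠ 0) :
    coord e'' x (σ i) = coord e x i := by
  have hinj : ∀ k l, e k = e l → k = l := by
    intro k l h
    have h1 := coord_self he.det_ne k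
    rw [h, coord_self he.det_ne l] at h1
    by_contra hne
    have := congrFun h1 k
    simp [hne] at this
  have hsum : ∀ (s : Finset (Fin 4)) (f : Fin 4 → V4), coord e'' (∑ k ∈ s, f k) (σ i) =
      ∑ k ∈ s, coord e'' (f k) (σ i) := by
    intro s f
    induction s using Finset.induction_on with
    | empty => simp [coord]
    | insert a s ha ih => rw [Finset.sum_insert ha, Finset.sum_insert ha, coord_add,
        Pi.add_apply, ih]
  conv_lhs => rw [← comb_coord he.det_ne x]
  rw [comb, hsum, Finset.sum_eq_single i]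
  · rw [coord_smul, ← hσ i hi, coord_self he''.det_ne]; simp
  · intro k _ hk
    by_cases hz : coord e x k = 0
    · rw [hz, zero_smul]; simp [coord]
    · rw [coord_smul, ← hσ k hz, coord_self he''.det_ne]
      have : σ i ≠ σ k := by
        intro h
        apply hk
        apply hinj
        rw [← hσ k hz, ← h, hσ i hi]
      simp [Pi.single_apply, this]
  · simp

include hT in
/-- The face to face condition in terms of coordinates: there is a tile `e''` with the same
coordinates of `x` as `e'`, sharing with `e` the vertices of the face of `x`. -/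
lemma f2f {e e' : Fr} (he : e ∈ T) (he' : e' ∈ T) {x : H3} (hx : x ∈ truncated e)
    (hx' : x ∈ truncated e') :
    ∃ e'' ∈ T, (e'' = e' ∨ ∃ j, form x (e j) = 0 ∧ e'' = refl (e j) ∘ e') ∧
      coord e'' x = coord e' x ∧ ∃ σ : Fin 4 → Fin 4, ∀ i, coord e x i ≠ 0 →
        e'' (σ i) = e i ∧ coord e' x (σ i) = coord e x i := by
  obtain ⟨e'', h1, h2, a, _, h4, h5⟩ := hT.faceToFace e he e' he' x ⟨hx, hx'⟩
  have hfe := tile_fr hT he
  have ha : coord e x = a := by
    rw [h4]; exact coord_comb hfe.det_ne a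
  have hc : coord e'' x = coord e' x := by
    rcases h2 with rfl | ⟨j, hj, rfl⟩
    · rfl
    · have hu := hfe.unit j
      have h6 := coord_ap (tile_fr hT he') (reflI (e j) hu) (x : V4)
      rw [ap_reflI, reflI_apply, refl_of_orth hj] at h6
      exact h6
  have h7 : ∀ i, ∃ k, coord e x i ≠ 0 → e'' k = e i := by
    intro i
    by_cases hi : coord e x i = 0
    · exact ⟨0, fun h => absurd hi h⟩
    · obtain ⟨k, hk⟩ := h5 i (by rw [← ha]; exact hi)
      exact ⟨k, fun _ => hk⟩
  choose σ hσ using h7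
  refine ⟨e'', h1, h2, hc, σ, fun i hi => ⟨hσ i hi, ?_⟩⟩
  rw [← hc]
  exact coord_match hfe (tile_fr hT h1) hσ i hi

include hT in
lemma eln_eq_of_mem {e e' : Fr} (he : e ∈ T) (he' : e' ∈ T) {i j k l : Fin 4} (hij : i ≠ j)
    (hkl : k ≠ l) {x : H3} (hx : x ∈ eln (e i) (e j)) (hx' : x ∈ eln (e' k) (e' l)) :
    eln (e i) (e j) = eln (e' k) (e' l) := by
  obtain ⟨e1, m1, m2, ⟨a, b, m3⟩, m4⟩ := edge_cover hT he hij hx
  obtain ⟨e2, n1, n2, ⟨c, d, n3⟩, n4⟩ := edge_cover hT he' hkl hx'
  rw [← m4, ← n4]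
  obtain ⟨e'', p1, p2, p3, σ, p4⟩ := f2f hT m1 n1 m2 n2
  have fe1 := tile_fr hT m1
  have fe2 := tile_fr hT n1
  have ci : coord e1 x i = a := coord_onE_left fe1 hij m3.eq
  have cj : coord e1 x j = b := coord_onE_left fe1 hij.symm (by rw [m3.eq, add_comm])
  obtain ⟨q1, q2⟩ := p4 i (by rw [ci]; exact m3.pa.ne')
  obtain ⟨q3, q4⟩ := p4 j (by rw [cj]; exact m3.pb.ne')
  have s1 : σ i = k ∨ σ i = l := by
    by_contra hc
    push Not at hc
    have := coord_onE fe2 n3.eq (σ i) hc.1 hc.2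
    rw [q2, ci] at this
    exact m3.pa.ne' this
  have s2 : σ j = k ∨ σ j = l := by
    by_contra hc
    push Not at hc
    have := coord_onE fe2 n3.eq (σ j) hc.1 hc.2
    rw [q4, cj] at this
    exact m3.pb.ne' this
  have s3 : σ i ≠ σ j := by
    intro h
    have h1 : e1 i = e1 j := by rw [← q1, ← q3, h]
    have h2 := (hT.hyperideal e1 m1).ultraparallel i j hij
    rw [← h1, (hT.hyperideal e1 m1).unit] at h2
    linarith
  have h4 : eln (e2 (σ i)) (e2 (σ j)) = eln (e2 k) (e2 l) := by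
    rcases s1 with h | h <;> rcases s2 with h' | h'
    · exact absurd (h.trans h'.symm) s3
    · rw [h, h']
    · rw [h, h', eln_symm]
    · exact absurd (h.trans h'.symm) s3
  rw [← h4]
  rcases p2 with rfl | ⟨m, hm, rfl⟩
  · rw [q1, q3]
  · have hum := fe1.unit m
    have r1 : refl (e1 m) (e1 i) = e2 (σ i) := by
      rw [← q1]; exact refl_refl hum _
    have r2 : refl (e1 m) (e1 j) = e2 (σ j) := by
      rw [← q3]; exact refl_refl hum _
    rw [← r1, ← r2]
    by_cases h1 : m = i
    · rw [h1]; exact (eln_refl (fe1.unit i) _).symm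
    by_cases h2 : m = j
    · rw [h2]; exact (eln_refl' (fe1.unit j) _).symm
    exfalso
    rw [m3.eq, form_add_left, form_smul_left, form_smul_left] at hm
    have w1 := (hT.hyperideal e1 m1).ultraparallel i m (Ne.symm h1)
    have w2 := (hT.hyperideal e1 m1).ultraparallel j m (Ne.symm h2)
    have := m3.pa
    have := m3.pb
    nlinarith

/-! ### The translation along an edge line -/

lemma seqAB (c : ℝ) (hc : 1 < c) (A B : ℕ → ℝ) (A0 : A 0 = 1) (B0 : B 0 = 0)
    (hA : ∀ n, A (n + 1) = (4 * c ^ 2 - 1) * A n - 2 * c * B n)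
    (hB : ∀ n, B (n + 1) = 2 * c * A n - B n) : StrictMono A := by
  have inv : ∀ n, 0 ≤ B n ∧ B n < A n := by
    intro n
    induction n with
    | zero => rw [A0, B0]; constructor <;> norm_num
    | succ n ih =>
      obtain ⟨h1, h2⟩ := ih
      rw [hA, hB]
      constructor
      · nlinarith
      · have h3 : 0 < A n := lt_of_le_of_lt h1 h2
        have h4 : (2 * c - 1) * B n ≤ (2 * c - 1) * A n :=
          mul_le_mul_of_nonneg_left h2.le (by linarith)
        have h5 : 0 < c * (c - 1) * A n := by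
          apply mul_pos (mul_pos (by linarith) (by linarith)) h3
        nlinarith
  refine strictMono_nat_of_lt_succ fun n => ?_
  obtain ⟨h1, h2⟩ := inv n
  rw [hA]
  have h3 : 0 < A n := lt_of_le_of_lt h1 h2
  have h4 : 2 * c * B n ≤ 2 * c * A n := mul_le_mul_of_nonneg_left h2.le (by linarith)
  have h5 : 0 < (c - 1) * A n := mul_pos (by linarith) h3
  have h6 : 0 < (c - 1) * c * A n := mul_pos (mul_pos (by linarith) (by linarith)) h3
  nlinarith

include hT in
lemma closed_line {Γ : Subgroup Iso3} {R : Set Fr} (hR : R.Finite)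
    (hRep : ∀ e ∈ T, ∃ γ ∈ Γ, ap γ e ∈ R) {e : Fr} (he : e ∈ T) {i j : Fin 4} (hij : i ≠ j) :
    ∃ g ∈ Γ, g ≠ 1 ∧ (fun x : H3 => g • x) '' eln (e i) (e j) = eln (e i) (e j) := by
  have fe := tile_fr hT he
  set τ : Iso3 := reflI (e i) (fe.unit i) * reflI (e j) (fe.unit j) with hτ
  have happ : ∀ v, (τ : V4 ≃ₗ[ℝ] V4) v = refl (e i) (refl (e j) v) := fun v => rfl
  set c := gm e i j with hc
  have hc1 : 1 < c := gm_gt hT he hij
  have hform : form (e i) (e j) = -c := by rw [hc, gm_apply]; ring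
  have hform' : form (e j) (e i) = -c := by rw [form_comm, hform]
  have t1 : (τ : V4 ≃ₗ[ℝ] V4) (e i) = (4 * c ^ 2 - 1) • e i + (2 * c) • e j := by
    rw [happ]
    unfold refl
    simp only [form_sub_left, form_smul_left, fe.unit, hform, hform']
    module
  have t2 : (τ : V4 ≃ₗ[ℝ] V4) (e j) = (-2 * c) • e i - e j := by
    rw [happ]
    unfold refl
    simp only [form_sub_left, form_smul_left, fe.unit, hform']
    module
  have hpowT : ∀ n : ℕ, ap (τ ^ n) e ∈ T := by
    intro n
    induction n with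
    | zero => rw [pow_zero, ap_one]; exact he
    | succ n ih =>
      rw [pow_succ', ap_mul]
      exact hT.mirror e he i _ (hT.mirror e he j _ ih)
  have hpowl : ∀ n : ℕ, (fun x : H3 => (τ ^ n) • x) '' eln (e i) (e j) = eln (e i) (e j) := by
    intro n
    induction n with
    | zero => simp
    | succ n ih =>
      have : (fun x : H3 => (τ ^ (n + 1)) • x) =
          (fun x => τ • x) ∘ fun x : H3 => (τ ^ n) • x := by
        funext x; rw [pow_succ', mul_smul]; rfl
      rw [this, Set.image_comp, ih, eln_image, happ, happ, refl_self (fe.unit j)]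
      have h1 : eln (refl (e i) (refl (e j) (e i))) (refl (e i) (-e j)) =
          eln (refl (e i) (e i)) (refl (e i) (e j)) := by
        ext x
        constructor
        · rintro ⟨a, b, h⟩
          refine ⟨a, -b + 2 * c * a, ?_⟩
          rw [h]
          unfold refl
          simp only [form_sub_left, form_neg_left, form_smul_left, fe.unit, hform, hform']
          module
        · rintro ⟨a, b, h⟩
          refine ⟨a, -b + 2 * c * a, ?_⟩
          rw [h]
          unfold refl
          simp only [form_sub_left, form_neg_left, form_smul_left, fe.unit, hform, hform']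
          module
      rw [h1, eln_refl (fe.unit i)]
  -- the coordinates of the powers
  have hinj : Function.Injective fun n : ℕ => τ ^ n := by
    set A : ℕ → ℝ := fun n => coord e (((τ ^ n : Iso3) : V4 ≃ₗ[ℝ] V4) (e i)) i with hA
    set B : ℕ → ℝ := fun n => coord e (((τ ^ n : Iso3) : V4 ≃ₗ[ℝ] V4) (e i)) j with hB
    have hexp : ∀ n, ((τ ^ n : Iso3) : V4 ≃ₗ[ℝ] V4) (e i) = A n • e i + B n • e j := by
      intro n
      have : ∃ a b : ℝ, ((τ ^ n : Iso3) : V4 ≃ₗ[ℝ] V4) (e i) = a • e i + b • e j := by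
        induction n with
        | zero => exact ⟨1, 0, by rw [pow_zero]; simp⟩
        | succ n ih =>
          obtain ⟨a, b, h⟩ := ih
          refine ⟨(4 * c ^ 2 - 1) * a - 2 * c * b, 2 * c * a - b, ?_⟩
          rw [pow_succ']
          show (τ : V4 ≃ₗ[ℝ] V4) (((τ ^ n : Iso3) : V4 ≃ₗ[ℝ] V4) (e i)) = _
          rw [h, map_add, map_smul, map_smul, t1, t2]
          module
      obtain ⟨a, b, h⟩ := this
      have ha : A n = a := coord_onE_left fe hij h
      have hb : B n = b := coord_onE_left fe hij.symm (by rw [h, add_comm])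
      rw [h, ha, hb]
    have hrec : ∀ n, A (n + 1) = (4 * c ^ 2 - 1) * A n - 2 * c * B n ∧
        B (n + 1) = 2 * c * A n - B n := by
      intro n
      have h1 : ((τ ^ (n + 1) : Iso3) : V4 ≃ₗ[ℝ] V4) (e i) =
          ((4 * c ^ 2 - 1) * A n - 2 * c * B n) • e i + (2 * c * A n - B n) • e j := by
        rw [pow_succ']
        show (τ : V4 ≃ₗ[ℝ] V4) (((τ ^ n : Iso3) : V4 ≃ₗ[ℝ] V4) (e i)) = _
        rw [hexp n, map_add, map_smul, map_smul, t1, t2]
        module
      exact ⟨coord_onE_left fe hij h1, coord_onE_left fe hij.symm (by rw [h1, add_comm])⟩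
    have h0 : ((τ ^ 0 : Iso3) : V4 ≃ₗ[ℝ] V4) (e i) = (1:ℝ) • e i + (0:ℝ) • e j := by
      rw [pow_zero]; simp
    have hmono := seqAB c hc1 A B (coord_onE_left fe hij h0)
      (coord_onE_left fe hij.symm (by rw [h0, add_comm])) (fun n => (hrec n).1)
      fun n => (hrec n).2
    intro m n hmn
    apply hmono.injective
    show coord e (((τ ^ m : Iso3) : V4 ≃ₗ[ℝ] V4) (e i)) i = _
    have h5 : τ ^ m = τ ^ n := hmn
    rw [h5]
  -- pigeonhole
  choose γ hγ hγR using fun n : ℕ => hRep _ (hpowT n)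
  have : Finite R := hR
  obtain ⟨m, n, hmn, heq⟩ := Finite.exists_ne_map_eq_of_infinite
    (fun n : ℕ => (⟨ap (γ n) (ap (τ ^ n) e), hγR n⟩ : R))
  have h1 : ap (γ m * τ ^ m) e = ap (γ n * τ ^ n) e := by
    rw [ap_mul, ap_mul]; exact congrArg Subtype.val heq
  have h2 : γ m * τ ^ m = γ n * τ ^ n := iso_ext fe h1
  refine ⟨(γ n)⁻¹ * γ m, mul_mem (inv_mem (hγ n)) (hγ m), ?_, ?_⟩
  · intro h3
    have h4 : γ m = γ n := by
      have := congrArg (fun z => γ n * z) h3
      simpa using this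
    rw [h4] at h2
    exact hmn (hinj (mul_left_cancel h2))
  · have h3 : (γ n)⁻¹ * γ m * τ ^ m = τ ^ n := by
      rw [mul_assoc, h2]; group
    conv_lhs => rw [← hpowl m]
    rw [← Set.image_comp]
    have : (fun x : H3 => ((γ n)⁻¹ * γ m) • x) ∘ (fun x : H3 => (τ ^ m) • x) =
        fun x : H3 => (τ ^ n) • x := by
      funext x
      show ((γ n)⁻¹ * γ m) • ((τ ^ m) • x) = _
      rw [← mul_smul, h3]
    rw [this, hpowl n]

/-- The link is geodesic. -/
lemma isGeodesicLink {Γ : Subgroup Iso3} (hinv : ∀ γ ∈ Γ, ∀ e ∈ T, ap γ e ∈ T)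
    (hco : ∃ K : Set H3, IsCompact K ∧ ∀ x, ∃ g ∈ Γ, g • x ∈ K)
    (hT : IsMirroredTessellation T) : IsGeodesicLink Γ (Lk T) := by
  obtain ⟨R, hR, hRT, hRep⟩ := finite_reps hT hinv hco
  refine ⟨?_, ?_, ?_, ?_, ?_⟩
  · rintro l ⟨e, he, i, j, hij, rfl⟩
    exact isLine_eln ((hT.hyperideal e he).unit i) ((hT.hyperideal e he).unit j)
      ((hT.hyperideal e he).ultraparallel i j hij)
  · rintro g hg l ⟨e, he, i, j, hij, rfl⟩
    exact ⟨ap g e, hinv g hg e he, i, j, hij, eln_image g _ _⟩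
  · rintro l ⟨e, he, i, j, hij, rfl⟩ l' ⟨e', he', k, m, hkm, rfl⟩ hne
    rw [Set.disjoint_left]
    intro x hx hx'
    exact hne (eln_eq_of_mem hT he he' hij hkm hx hx')
  · rintro l ⟨e, he, i, j, hij, rfl⟩
    exact closed_line hT hR hRep he hij
  · refine ⟨{l | ∃ e ∈ R, ∃ i j, i ≠ j ∧ l = eln (e i) (e j)}, ?_, ?_, ?_⟩
    · have : Finite R := hR
      refine (Set.finite_range fun q : R × Fin 4 × Fin 4 =>
        eln ((q.1 : Fr) q.2.1) ((q.1 : Fr) q.2.2)).subset ?_
      rintro l ⟨e, he, i, j, _, rfl⟩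
      exact ⟨(⟨e, he⟩, i, j), rfl⟩
    · rintro l ⟨e, he, i, j, hij, rfl⟩
      exact ⟨e, hRT he, i, j, hij, rfl⟩
    · rintro l ⟨e, he, i, j, hij, rfl⟩
      obtain ⟨γ, hγ, hγe⟩ := hRep e he
      refine ⟨γ⁻¹, inv_mem hγ, eln (ap γ e i) (ap γ e j), ⟨_, hγe, i, j, hij, rfl⟩, ?_⟩
      rw [eln_image]
      have : ∀ k, ((γ⁻¹ : Iso3) : V4 ≃ₗ[ℝ] V4) (ap γ e k) = e k := fun k =>
        congrFun (ap_inv_ap γ e) k
      rw [this, this]

end

end Run7.h606
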