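import Pool.Agent.Run7.h606.Link

namespace Run7.h606

open Filter Topology

section
variable {T : Set Fr} (hT : IsMirroredTessellation T) {F0 : State T}

/-- Every tile is the end of a state of the orbit. -/
lemma exists_state {e : Fr} (he : e ∈ T) : ∃ G, InS hT F0 G ∧ G.f 1 = e := by
  have hc := hT.connected _ F0.mem e he
  induction hc with
  | refl => exact ⟨stt hT F0 1, inS_stt hT F0 1, by rw [stt_one]⟩
  | tail _ hstep ih =>
    obtain ⟨he', h⟩ := hstep
    rename_i b c _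
    have hb : b ∈ T := by
      by_contra hb
      rename_i hpath
      -- `b` is reached from a tile, hence a tile
      have : ∀ z, Relation.ReflTransGen (Adjacent T) (F0.f 1) z → z ∈ T := by
        intro z hz
        induction hz with
        | refl => exact F0.mem
        | tail _ hs _ => exact hs.1
      exact hb (this b hpath)
    obtain ⟨G, hG, rfl⟩ := ih hb
    rcases h with ⟨π, rfl⟩ | ⟨i, rfl⟩ | ⟨i, hi⟩
    · exact ⟨G.comp hT π, hG.comp hT π, rfl⟩
    · exact ⟨mv hT (true, i) G, hG.mv hT _, frel_true.mp (mv_rel hT (true, i) G 1)⟩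
    · refine ⟨mv hT (false, i) G, hG.mv hT _, ?_⟩
      exact tile_unique hT G.mem (mv hT (false, i) G).mem he' (mv_rel hT (false, i) G 1)
        ((across_iff (G.fr 1) i).mp hi)

lemma cell_or_line {e : Fr} (he : e ∈ T) {x : H3} (hx : x ∈ truncated e)
    (hT : IsMirroredTessellation T) :
    Cell e (x : V4) ∨ ∃ i j, i ≠ j ∧ x ∈ eln (e i) (e j) := by
  have fe := tile_fr hT he
  rw [mem_truncated fe] at hx
  by_cases h : ∀ i j, i ≠ j → 0 < coord e x i ∨ 0 < coord e x j
  · exact Or.inl ⟨x.2, hx.1, hx.2, h⟩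
  · right
    push Not at h
    obtain ⟨i, j, hij, h1, h2⟩ := h
    have hi : coord e x i = 0 := le_antisymm h1 (hx.1 i)
    have hj : coord e x j = 0 := le_antisymm h2 (hx.1 j)
    obtain ⟨k, l, hkl, hU⟩ : ∃ k l : Fin 4, k ≠ l ∧ ∀ m, m = i ∨ m = j ∨ m = k ∨ m = l := by
      clear h1 h2 hi hj
      decide +revert
    refine ⟨k, l, hkl, coord e x k, coord e x l, ?_⟩
    have hx' : (x : V4) = ∑ m, coord e x m • e m := (comb_coord fe.det_ne _).symm
    conv_lhs => rw [hx']
    refine Finset.sum_eq_add k l hkl (fun m _ hm => ?_) (by simp) (by simp)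
    rcases hU m with h | h | h | h
    · rw [h, hi, zero_smul]
    · rw [h, hj, zero_smul]
    · exact absurd h hm.1
    · exact absurd h hm.2

include hT in
lemma cell_not_line {e : Fr} (he : e ∈ T) {x : H3} (hx : Cell e (x : V4)) :
    x ∉ ⋃₀ Lk T := by
  rintro ⟨l, ⟨e', he', i, j, hij, rfl⟩, hxl⟩
  have fe := tile_fr hT he
  obtain ⟨e1, m1, m2, ⟨a, b, m3⟩, _⟩ := edge_cover hT he' hij hxl
  obtain ⟨e'', _, _, _, σ, p4⟩ := f2f hT he m1 (hx.mem_truncated fe) m2
  obtain ⟨m, hm⟩ := exists_special hx.nn hx.a2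
  have fe1 := tile_fr hT m1
  have hs : ∀ k, k ≠ m → σ k = i ∨ σ k = j := by
    intro k hk
    by_contra hc
    push Not at hc
    have h1 := coord_onE fe1 m3.eq (σ k) hc.1 hc.2
    have h2 := (p4 k (hm k hk).ne').2
    rw [h2] at h1
    exact (hm k hk).ne' h1
  have hinj : ∀ k l, k ≠ m → l ≠ m → k ≠ l → σ k ≠ σ l := by
    intro k l hk hl hkl h
    have h1 := (p4 k (hm k hk).ne').1
    have h2 := (p4 l (hm l hl).ne').1
    have h3 : e k = e l := by rw [← h1, ← h2, h]
    have h4 := (hT.hyperideal e he).ultraparallel k l hkl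
    rw [← h3, (hT.hyperideal e he).unit] at h4
    linarith
  obtain ⟨k, l, n, hk, hl, hn, hkl, hkn, hln, _⟩ := exists_other_two m
  rcases hs k hk with h1 | h1 <;> rcases hs l hl with h2 | h2 <;> rcases hs n hn with h3 | h3
  · exact hinj k l hk hl hkl (h1.trans h2.symm)
  · exact hinj k l hk hl hkl (h1.trans h2.symm)
  · exact hinj k n hk hn hkn (h1.trans h3.symm)
  · exact hinj l n hl hn hln (h2.trans h3.symm)
  · exact hinj l n hl hn hln (h2.trans h3.symm)
  · exact hinj k n hk hn hkn (h1.trans h3.symm)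
  · exact hinj k l hk hl hkl (h1.trans h2.symm)
  · exact hinj k l hk hl hkl (h1.trans h2.symm)

lemma end_range : Set.range (Dv hT F0 1) = (⋃₀ Lk T)ᶜ := by
  ext z
  constructor
  · rintro ⟨x, rfl⟩
    obtain ⟨w, hw⟩ := exists_cell hT F0 x
    exact cell_not_line hT (State.mem _) (Dv_cell hT (inS_stt hT F0 w) 1 hw)
  · intro hz
    obtain ⟨e, he, hze⟩ := hT.cover z
    rcases cell_or_line he hze hT with h | ⟨i, j, hij, h⟩
    · obtain ⟨G, hG, rfl⟩ := exists_state hT (F0 := F0) he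
      have h1 := TR_cell (G.fr 1) (G.fr 0) h
      refine ⟨⟨TR (G.f 1) (G.f 0) z, h1.isH⟩, Subtype.ext ?_⟩
      rw [Dv_eq hT hG 1 (x := ⟨TR (G.f 1) (G.f 0) z, h1.isH⟩) h1]
      exact TR_TR (G.fr 1) (G.fr 0) h
    · exact absurd ⟨_, ⟨e, he, i, j, hij, rfl⟩, h⟩ hz

/-- Extension of a matching of three labels to a permutation. -/
lemma exists_perm_ext {i0 : Fin 4} {σ : Fin 4 → Fin 4}
    (h : ∀ k l, k ≠ i0 → l ≠ i0 → σ k = σ l → k = l) :
    ∃ π : Equiv.Perm (Fin 4), ∀ k, k ≠ i0 → π k = σ k := by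
  classical
  obtain ⟨m, hm⟩ : ∃ m, m ∉ (Finset.univ.erase i0).image σ := by
    by_contra hc
    push Not at hc
    have h1 : (Finset.univ : Finset (Fin 4)) ⊆ (Finset.univ.erase i0).image σ := fun m _ => hc m
    have h2 := Finset.card_le_card h1
    have h3 := Finset.card_image_le (s := Finset.univ.erase i0) (f := σ)
    rw [Finset.card_erase_of_mem (Finset.mem_univ _)] at h3
    simp at h2 h3
    omega
  have hm' : ∀ k, k ≠ i0 → σ k ≠ m := by
    intro k hk e
    exact hm (Finset.mem_image.mpr ⟨k, Finset.mem_erase.mpr ⟨hk, Finset.mem_univ _⟩, e⟩)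
  have hinj : Function.Injective (Function.update σ i0 m) := by
    intro k l hkl
    by_cases hk : k = i0
    · by_cases hl : l = i0
      · rw [hk, hl]
      · rw [hk, Function.update_self, Function.update_of_ne hl] at hkl
        exact absurd hkl.symm (hm' l hl)
    · by_cases hl : l = i0
      · rw [hl, Function.update_self, Function.update_of_ne hk] at hkl
        exact absurd hkl (hm' k hk)
      · rw [Function.update_of_ne hk, Function.update_of_ne hl] at hkl
        exact h k l hk hl hkl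
  refine ⟨Equiv.ofBijective _ (Finite.injective_iff_bijective.mp hinj), fun k hk => ?_⟩
  rw [Equiv.ofBijective_apply, Function.update_of_ne hk]

include hT in
/-- Two tiles sharing the vertices around a point off the edges. -/
lemma tile_match {e e'' : Fr} (he : e ∈ T) (he'' : e'' ∈ T) {x : H3} (hx : Cell e (x : V4))
    {σ : Fin 4 → Fin 4} (hσ : ∀ i, coord e x i ≠ 0 → e'' (σ i) = e i) :
    ∃ π : Equiv.Perm (Fin 4), e'' ∘ π = e ∨ ∃ i, coord e x i = 0 ∧
      Frel (false, i) e (e'' ∘ π) := by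
  have fe := tile_fr hT he
  have hne : ∀ k l, k ≠ l → e k ≠ e l := by
    intro k l hkl h
    have h4 := (hT.hyperideal e he).ultraparallel k l hkl
    rw [← h, (hT.hyperideal e he).unit] at h4
    linarith
  obtain ⟨m, hm⟩ := exists_special hx.nn hx.a2
  obtain ⟨π, hπ⟩ := exists_perm_ext (i0 := m) (σ := σ) (fun k l hk hl h => by
    by_contra hkl
    apply hne k l hkl
    rw [← hσ k (hm k hk).ne', ← hσ l (hm l hl).ne', h])
  have h1 : ∀ k, k ≠ m → (e'' ∘ π) k = e k := by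
    intro k hk
    show e'' (π k) = e k
    rw [hπ k hk]; exact hσ k (hm k hk).ne'
  have hT1 : e'' ∘ π ∈ T := hT.relabel _ he'' π
  have f1 := tile_fr hT hT1
  refine ⟨π, ?_⟩
  -- the position of the remaining vertex
  have hne0 : coord e ((e'' ∘ π) m) m ≠ 0 := by
    intro h0
    have := coord_change fe f1 h1 (e m)
    rw [h0, mul_zero, coord_self fe.det_ne] at this
    simp at this
  rcases lt_or_gt_of_ne hne0 with hneg | hpos
  · right
    refine ⟨m, ?_, frel_false.mpr ⟨h1, hneg⟩⟩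
    by_contra h0
    -- then also the last vertex is shared
    have h2 : e'' (σ m) = e m := hσ m h0
    have h3 : σ m = π m := by
      by_contra hne'
      obtain ⟨k, hk⟩ := π.surjective (σ m)
      have hkm : k ≠ m := fun h => hne' (by rw [← hk, h])
      have h4 : e'' (π k) = e k := h1 k hkm
      rw [hk, h2] at h4
      exact hne m k hkm.symm h4
    have h4 : (e'' ∘ π) m = e m := by
      show e'' (π m) = e m
      rw [← h3]; exact h2
    rw [h4, coord_self fe.det_ne] at hneg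
    simp at hneg
    linarith
  · left
    -- the neighbour of `e` across the face
    have hs := nb_spec hT he m
    have hfr := (across_iff fe m).mp hs.2
    have fnb := tile_fr hT hs.1
    have hfr' := frel_false.mp hfr
    have h5 : Frel (false, m) (nb hT e m) (e'' ∘ π) := by
      refine frel_false.mpr ⟨fun k hk => by rw [h1 k hk, hfr'.1 k hk], ?_⟩
      have := coord_change fe fnb hfr'.1 ((e'' ∘ π) m)
      by_contra hc
      push Not at hc
      have h6 := hfr'.2
      nlinarith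
    exact tile_unique hT hs.1 hT1 he h5 (hfr.symm fe fnb)

lemma end_injective {Γ : Subgroup Iso3} (hinv : ∀ γ ∈ Γ, ∀ e ∈ T, ap γ e ∈ T) (x y : H3)
    (h : ∃ γ ∈ Γ, γ • Dv hT F0 1 x = Dv hT F0 1 y) :
    ∃ g ∈ NGr hT F0 Γ, g • x = y := by
  obtain ⟨γ, hγ, hxy⟩ := h
  obtain ⟨w, hw⟩ := exists_cell hT F0 x
  obtain ⟨w', hw'⟩ := exists_cell hT F0 y
  have hF := inS_stt hT F0 w
  have hG := inS_stt hT F0 w'
  generalize stt hT F0 w = F at hw hF
  generalize stt hT F0 w' = G at hw' hG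
  set z := Dv hT F0 1 y with hz
  have hzG : Cell (G.f 1) (z : V4) := Dv_cell hT hG 1 hw'
  -- the value of the developing map at `x`
  have hval : ∀ H, InS hT F0 H → Cell (H.f 0) (x : V4) → Cell (ap γ (H.f 1)) (z : V4) ∧
      (z : V4) = (γ : V4 ≃ₗ[ℝ] V4) (TR (H.f 0) (H.f 1) x) := by
    intro H hH hc
    have h1 := Dv_cell hT hH 1 hc
    have h2 := h1.ap (H.fr 1) γ
    have h3 : (z : V4) = (γ : V4 ≃ₗ[ℝ] V4) (Dv hT F0 1 x : V4) :=
      (congrArg Subtype.val hxy).symm
    refine ⟨by rw [h3]; exact h2, ?_⟩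
    rw [h3, Dv_eq hT hH 1 hc]
  have hTe : ∀ H : State T, ap γ (H.f 1) ∈ T := fun H => hinv γ hγ _ H.mem
  obtain ⟨hzF, hzF'⟩ := hval F hF hw
  have fF := (F.fr 1).ap γ
  obtain ⟨e'', p1, p2, _, σ, p4⟩ := f2f hT (hTe F) G.mem (hzF.mem_truncated fF)
    (hzG.mem_truncated (G.fr 1))
  obtain ⟨π, hπ⟩ := tile_match hT (hTe F) p1 hzF fun i hi => (p4 i hi).1
  -- first step: cross the white face if necessary
  obtain ⟨F', hF', hw1, he1, hj1⟩ : ∃ F' : State T, InS hT F0 F' ∧ Cell (F'.f 0) (x : V4) ∧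
      ap γ (F'.f 1) = e'' ∘ π ∧ ∀ j, form (z : V4) (ap γ (F.f 1) j) = 0 →
        ap γ (F'.f 1) j = ap γ (F.f 1) j := by
    rcases hπ with hπ | ⟨i, hi, hfr⟩
    · exact ⟨F, hF, hw, hπ.symm, fun j _ => rfl⟩
    · have h0 : ht (F.f 0) (false, i) (x : V4) = 0 := by
        rw [ht_false, ← TR_coord_zero (F.fr 0) (F.fr 1) hw]
        rw [hzF', coord_ap (F.fr 1)] at hi
        exact hi
      have hc := (frel_cell (F.fr 0) (State.fr _ 0) (mv_rel hT (false, i) F 0) hw h0).1
      have hnb := mv_rel hT (false, i) F 1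
      have heq : ap γ ((mv hT (false, i) F).f 1) = e'' ∘ π :=
        tile_unique hT (hTe F) (hTe _) (hT.relabel _ p1 π) (hnb.ap (F.fr 1) γ) hfr
      refine ⟨mv hT (false, i) F, hF.mv hT _, hc, heq, fun j hj => ?_⟩
      have hji : j ≠ i := by
        rintro rfl
        have h1 := sv_ge fF.gd hzF.nn j
        rw [sv_coord fF, hi, hj] at h1
        linarith [hzF.sum_pos]
      exact (frel_false.mp (hnb.ap (F.fr 1) γ)).1 j hji
  -- second step: cross the black face if necessary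
  obtain ⟨F'', hF'', hw2, he2⟩ : ∃ F'' : State T, InS hT F0 F'' ∧ Cell (F''.f 0) (x : V4) ∧
      ap γ (F''.f 1) = G.f 1 ∘ π := by
    rcases p2 with rfl | ⟨j, hj, rfl⟩
    · exact ⟨F', hF', hw1, he1⟩
    · have hjj := hj1 j hj
      obtain ⟨_, hz1⟩ := hval F' hF' hw1
      have h0 : ht (F'.f 0) (true, j) (x : V4) = 0 := by
        rw [ht_true, neg_eq_zero, ← TR_form_zero (F'.fr 0) (F'.fr 1) hw1]
        rw [← hjj, hz1, ap_apply, Iso3.form_eq] at hj
        exact hj
      have hc := (frel_cell (F'.fr 0) (State.fr _ 0) (mv_rel hT (true, j) F' 0) hw1 h0).1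
      refine ⟨mv hT (true, j) F', hF'.mv hT _, hc, ?_⟩
      have hb := frel_true.mp ((mv_rel hT (true, j) F' 1).ap (F'.fr 1) γ)
      rw [hb, he1] at *
      funext k
      show refl ((refl (ap γ (F.f 1) j) ∘ G.f 1) (π j))
        (refl (ap γ (F.f 1) j) (G.f 1 (π k))) = G.f 1 (π k)
      have h5 : (refl (ap γ (F.f 1) j) ∘ G.f 1) (π j) = ap γ (F.f 1) j := hjj
      rw [h5]
      exact refl_refl (fF.unit j) _
  obtain ⟨g, hg, hg1, hgt⟩ := exists_path hT hinv hF'' (hG.comp hT π) hγ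
    (show (G.comp hT π).f 1 = ap γ (F''.f 1) by rw [comp_f, he2])
  refine ⟨g 0, ⟨⟨g, hg⟩, rfl⟩, ?_⟩
  have hGπ := hG.comp hT π
  set G' := G.comp hT π with hG'
  have c1 : Cell (G'.f 0) ((g 0 • x : H3) : V4) := by
    rw [hgt 0]; exact hw2.ap (F''.fr 0) (g 0)
  have c2 : Cell (G'.f 0) (y : V4) := hw'.comp (G.fr 0) π
  have d1 : TR (G'.f 0) (G'.f 1) ((g 0 • x : H3) : V4) = z := by
    rw [hgt 1, hgt 0, smul_val, TR_ap (F''.fr 0), hg1]
    exact (hval F'' hF'' hw2).2.symm
  have d2 : TR (G'.f 0) (G'.f 1) (y : V4) = z := (Dv_eq hT hGπ 1 c2).symm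
  apply Subtype.ext
  rw [← TR_TR (G'.fr 0) (G'.fr 1) c1, d1, ← d2, TR_TR (G'.fr 0) (G'.fr 1) c2]

/-! ### The cusped group is arithmetic -/

lemma index_ne_zero_of {G : Type*} [Group G] (H : Subgroup G) {α : Type*} [Finite α]
    (f : G → α) (hf : ∀ a b, f a = f b → b * a⁻¹ ∈ H) : H.index ≠ 0 := by
  have : Finite (G ⧸ H) := by
    refine Finite.of_injective (fun q : G ⧸ H => f (Quotient.out q)⁻¹) ?_
    intro q q' h
    have h1 := hf _ _ h
    rw [inv_inv] at h1
    have h2 : ((Quotient.out q' : G) : G ⧸ H) = ((Quotient.out q : G) : G ⧸ H) :=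
      QuotientGroup.eq.mpr h1
    rw [QuotientGroup.out_eq', QuotientGroup.out_eq'] at h2
    exact h2.symm
  exact Subgroup.index_ne_zero_of_finite

lemma phi_conj {F : Fr} (hF : IsOct F) {h : Iso3} (hh : ap h F = E0) (w : W) :
    phi E0 isOct_E0 w = h * phi F hF w * h⁻¹ := by
  have : ∀ (G : Fr) (hG : IsOct G), ap h F = G → phi G hG w = h * phi F hF w * h⁻¹ := by
    rintro G hG rfl
    exact phi_ap hF h w
  exact this E0 isOct_E0 hh

lemma integral {Γ : Subgroup Iso3} (hΓ : IsClosedManifoldGroup Γ)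
    (hinv : ∀ γ ∈ Γ, ∀ e ∈ T, ap γ e ∈ T) : IsIntegralManifoldGroup (NGr hT F0 Γ) := by
  classical
  have hor : NGr hT F0 Γ ≤ OrPres := by
    intro g hg
    have := rho_orientation hT hΓ.orientation 0 ⟨g, hg⟩
    rwa [rho_zero] at this
  refine ⟨hor, NGr_torsionFree hT hΓ.torsionFree, ?_⟩
  set h := isoI (F0.f 0) E0 (F0.fr 0) isOct_E0.fr (by rw [gm_E0, F0.isOct.gm]) with hh
  have hh0 : ap h (F0.f 0) = E0 := ap_isoI _ _ _ _ _
  have hdecomp : ∀ g ∈ NGr hT F0 Γ, IntI (h * g * h⁻¹) := by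
    intro g hg
    obtain ⟨G', ⟨w, π, rfl⟩, h2⟩ := (rho_mem hT ⟨g, hg⟩).2.1 _ (inS_stt hT F0 1)
    have h3 := h2 0
    have h30 : (fun t => rho hT F0 Γ t ⟨g, hg⟩) 0 = g := rho_zero hT ⟨g, hg⟩
    rw [comp_f, stt_zero, stt_one, h30] at h3
    obtain ⟨u, hu1, hu2⟩ := exists_perm π
    have h4 : h * g * h⁻¹ = phi E0 isOct_E0 w * u := by
      refine iso_ext isOct_E0.fr ?_
      rw [ap_mul, ap_mul, ap_mul, hu2]
      conv_lhs => rw [← hh0, ap_inv_ap]
      have h5 : ap g (F0.f 0) = ap (phi (F0.f 0) F0.isOct w) (F0.f 0) ∘ π := h3.symm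
      rw [h5, ap_comp, ap_comp, phi_conj F0.isOct hh0 w]
      congr 1
      conv_rhs => rw [← hh0]
      rw [ap_mul, ap_mul, ap_inv_ap]
    rw [h4]
    exact (phi_IntI w).mul hu1
  have hdet : ∀ g ∈ OrPres, h * g * h⁻¹ ∈ OrPres := by
    intro g hg
    unfold OrPres at hg ⊢
    rw [MonoidHom.mem_ker] at hg ⊢
    rw [map_mul, map_mul, hg, mul_one, ← map_mul, mul_inv_cancel, map_one]
  refine ⟨h, ?_, ?_⟩
  · rintro _ ⟨g, hg, rfl⟩
    exact ⟨hdet g (hor hg), hdecomp g hg⟩
  · obtain ⟨R, hR, hRT, hRep⟩ := finite_reps hT hinv hΓ.cocompact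
    have hRf : Finite R := hR
    have hUf : Finite {u : Iso3 | IntI u ∧ (u : V4 ≃ₗ[ℝ] V4) ce = ce} := finite_stab
    have hch : ∀ k : IntPts, ∃ (w : W) (u : {u : Iso3 | IntI u ∧ (u : V4 ≃ₗ[ℝ] V4) ce = ce})
        (γ : Iso3) (r : R), γ ∈ Γ ∧ (k : Iso3) = phi E0 isOct_E0 w * u ∧
        ap γ ((stt hT F0 w).f 1) = r := by
      intro k
      obtain ⟨w, u, h1, h2, h3⟩ := int_decomp k.2.2
      obtain ⟨γ, hγ, hr⟩ := hRep _ (stt hT F0 w).mem
      exact ⟨w, ⟨u, h1, h2⟩, γ, ⟨_, hr⟩, hγ, h3, rfl⟩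
    choose w u γ r hγ hk hr using hch
    rw [Subgroup.relIndex]
    refine index_ne_zero_of _ (fun k : IntPts => (u k, r k)) ?_
    intro a b hab
    have hu' : u a = u b := congrArg Prod.fst hab
    have hr' : r a = r b := congrArg Prod.snd hab
    rw [Subgroup.mem_subgroupOf]
    have h1 : (stt hT F0 (w b)).f 1 = ap ((γ b)⁻¹ * γ a) ((stt hT F0 (w a)).f 1) := by
      rw [ap_mul, hr a, hr', ← hr b, ap_inv_ap]
    obtain ⟨g, hg, hg1, hgt⟩ := exists_path hT hinv (inS_stt hT F0 (w a))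
      (inS_stt hT F0 (w b)) (mul_mem (inv_mem (hγ b)) (hγ a)) h1
    have h2 := hgt 0
    rw [stt_zero, stt_zero, ← ap_mul] at h2
    have h3 : phi (F0.f 0) F0.isOct (w b) = g 0 * phi (F0.f 0) F0.isOct (w a) :=
      iso_ext (F0.fr 0) h2
    refine ⟨g 0, ⟨⟨g, hg⟩, rfl⟩, ?_⟩
    show h * g 0 * h⁻¹ = (b : Iso3) * (a : Iso3)⁻¹
    rw [hk a, hk b, hu', phi_conj F0.isOct hh0 (w a), phi_conj F0.isOct hh0 (w b), h3]
    group

end

/-- The main theorem. -/
theorem main (Γ : Subgroup Iso3) (hΓ : IsClosedManifoldGroup Γ) (T : Set (Fin 4 → V4))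
    (hT : IsMirroredTessellation T)
    (hinv : ∀ γ ∈ Γ, ∀ e ∈ T, (fun i => (γ : V4 ≃ₗ[ℝ] V4) (e i)) ∈ T) :
    ∃ ΓN : Subgroup Iso3, IsIntegralManifoldGroup ΓN ∧ ObtainedGeometrically ΓN Γ := by
  obtain ⟨e, he, _⟩ := hT.cover ⟨ce, isH_ce⟩
  set F0 := base hT e he with hF0
  refine ⟨NGr hT F0 Γ, integral hT hΓ hinv, fun t => rho hT F0 Γ t, fun t => Dv hT F0 t, Lk T,
    ?_⟩
  exact {
    continuous := continuous_Dv hT
    continuous_holonomy := fun g x => by
      refine Continuous.subtype_mk ?_ _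
      exact continuous_rho hT g x
    orientation := fun t g => rho_orientation hT hΓ.orientation t g
    localHomeo := fun t => Dv_localHomeo hT t
    equivariant := fun t g x => rho_equivariant hT t g x
    start := fun x => Dv_zero hT x
    start_holonomy := fun g => rho_zero hT g
    link := isGeodesicLink hinv hΓ.cocompact hT
    end_holonomy := fun g => (rho_mem hT g).1
    end_range := end_range hT
    end_injective := fun x y h => end_injective hT hinv x y h }

end Run7.h606
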