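import Pool.Agent.Run7.h606.Defs

namespace Run7.h606

lemma form_comm (x y : V4) : form x y = form y x := by unfold form; ring
lemma form_add_left (x y z : V4) : form (x + y) z = form x z + form y z := by
  simp [form]; ring
lemma form_add_right (x y z : V4) : form x (y + z) = form x y + form x z := by
  simp [form]; ring
lemma form_sub_left (x y z : V4) : form (x - y) z = form x z - form y z := by
  simp [form]; ring
lemma form_sub_right (x y z : V4) : form x (y - z) = form x y - form x z := by
  simp [form]; ring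
lemma form_smul_left (c : ℝ) (x z : V4) : form (c • x) z = c * form x z := by
  simp [form]; ring
lemma form_smul_right (c : ℝ) (x z : V4) : form x (c • z) = c * form x z := by
  simp [form]; ring
lemma form_neg_left (x z : V4) : form (-x) z = - form x z := by
  simp [form]; ring
lemma form_neg_right (x z : V4) : form x (-z) = - form x z := by
  simp [form]; ring
lemma form_zero_left (z : V4) : form 0 z = 0 := by simp [form]
lemma form_zero_right (z : V4) : form z 0 = 0 := by simp [form]
lemma form_sum_left {ι : Type*} (s : Finset ι) (f : ι → V4) (z : V4) :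
    form (∑ i ∈ s, f i) z = ∑ i ∈ s, form (f i) z := by
  classical
  induction s using Finset.induction_on with
  | empty => simp [form_zero_left]
  | insert a s ha ih => rw [Finset.sum_insert ha, Finset.sum_insert ha, form_add_left, ih]
lemma form_sum_right {ι : Type*} (s : Finset ι) (f : ι → V4) (z : V4) :
    form z (∑ i ∈ s, f i) = ∑ i ∈ s, form z (f i) := by
  rw [form_comm, form_sum_left]; exact Finset.sum_congr rfl fun i _ => form_comm _ _

lemma continuous_form {X : Type*} [TopologicalSpace X] {f g : X → V4}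
    (hf : Continuous f) (hg : Continuous g) : Continuous fun x => form (f x) (g x) := by
  unfold form
  have h : ∀ i, Continuous fun x => f x i := fun i => (continuous_apply i).comp hf
  have h' : ∀ i, Continuous fun x => g x i := fun i => (continuous_apply i).comp hg
  exact ((((h 0).mul (h' 0)).neg.add ((h 1).mul (h' 1))).add ((h 2).mul (h' 2))).add
    ((h 3).mul (h' 3))

/-- The form is nondegenerate. -/
lemma eq_zero_of_form {x : V4} (h : ∀ y, form x y = 0) : x = 0 := by
  ext i
  fin_cases i
  · have := h (Pi.single 0 1); simp [form] at this; simpa using this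
  · have := h (Pi.single 1 1); simp [form] at this; simpa using this
  · have := h (Pi.single 2 1); simp [form] at this; simpa using this
  · have := h (Pi.single 3 1); simp [form] at this; simpa using this

/-- Timelike future vectors. -/
def TL (x : V4) : Prop := form x x < 0 ∧ 0 < x 0

/-- Causal future vectors. -/
def CF (x : V4) : Prop := form x x ≤ 0 ∧ 0 < x 0

lemma IsH.tl {x : V4} (h : IsH x) : TL x := ⟨by rw [h.1]; norm_num, h.2⟩
lemma TL.cf {x : V4} (h : TL x) : CF x := ⟨h.1.le, h.2⟩

lemma form_neg_of_TL_CF {x w : V4} (hx : TL x) (hw : CF w) : form x w < 0 := by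
  obtain ⟨h1, h2⟩ := hx
  obtain ⟨h3, h4⟩ := hw
  have hX : x 1 ^ 2 + x 2 ^ 2 + x 3 ^ 2 < x 0 ^ 2 := by unfold form at h1; nlinarith
  have hW : w 1 ^ 2 + w 2 ^ 2 + w 3 ^ 2 ≤ w 0 ^ 2 := by unfold form at h3; nlinarith
  have hCS : (x 1 * w 1 + x 2 * w 2 + x 3 * w 3) ^ 2 ≤
      (x 1 ^ 2 + x 2 ^ 2 + x 3 ^ 2) * (w 1 ^ 2 + w 2 ^ 2 + w 3 ^ 2) := by
    nlinarith [sq_nonneg (x 1 * w 2 - x 2 * w 1), sq_nonneg (x 1 * w 3 - x 3 * w 1),
      sq_nonneg (x 2 * w 3 - x 3 * w 2)]
  have hlt : (x 1 * w 1 + x 2 * w 2 + x 3 * w 3) ^ 2 < (x 0 * w 0) ^ 2 := by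
    calc (x 1 * w 1 + x 2 * w 2 + x 3 * w 3) ^ 2
        ≤ (x 1 ^ 2 + x 2 ^ 2 + x 3 ^ 2) * (w 1 ^ 2 + w 2 ^ 2 + w 3 ^ 2) := hCS
      _ ≤ (x 1 ^ 2 + x 2 ^ 2 + x 3 ^ 2) * w 0 ^ 2 := by
          apply mul_le_mul_of_nonneg_left hW; positivity
      _ < x 0 ^ 2 * w 0 ^ 2 := by
          apply mul_lt_mul_of_pos_right hX; positivity
      _ = (x 0 * w 0) ^ 2 := by ring
  have := abs_lt_of_sq_lt_sq hlt (by positivity)
  unfold form
  have := (abs_lt.mp this).2
  linarith

lemma form_neg_of_CF_TL {x w : V4} (hx : CF x) (hw : TL w) : form x w < 0 := by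
  rw [form_comm]; exact form_neg_of_TL_CF hw hx

/-- A causal vector with a negative product with a future timelike vector is future. -/
lemma cf_of_form_neg {x w : V4} (hx : TL x) (hw : form w w ≤ 0) (h : form x w < 0) : CF w := by
  refine ⟨hw, ?_⟩
  rcases lt_trichotomy (w 0) 0 with h0 | h0 | h0
  · exfalso
    have : CF (-w) := ⟨by simpa [form_neg_left, form_neg_right] using hw, by simpa using h0⟩
    have := form_neg_of_TL_CF hx this
    rw [form_neg_right] at this; linarith
  · exfalso
    have hW : w 1 ^ 2 + w 2 ^ 2 + w 3 ^ 2 ≤ 0 := by unfold form at hw; rw [h0] at hw; nlinarith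
    have h1 : w 1 = 0 := by nlinarith [sq_nonneg (w 1), sq_nonneg (w 2), sq_nonneg (w 3)]
    have h2 : w 2 = 0 := by nlinarith [sq_nonneg (w 1), sq_nonneg (w 2), sq_nonneg (w 3)]
    have h3 : w 3 = 0 := by nlinarith [sq_nonneg (w 1), sq_nonneg (w 2), sq_nonneg (w 3)]
    unfold form at h; rw [h0, h1, h2, h3] at h; simp at h
  · exact h0

lemma tl_of_form_neg {x w : V4} (hx : CF x) (hw : form w w < 0) (h : form x w < 0) : TL w := by
  refine ⟨hw, ?_⟩
  by_contra h0
  rcases (not_lt.mp h0).lt_or_eq with h0 | h0
  · have : TL (-w) := ⟨by simpa [form_neg_left, form_neg_right] using hw, by simpa using h0⟩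
    have := form_neg_of_CF_TL hx this
    rw [form_neg_right] at this; linarith
  · have : w 1 ^ 2 + w 2 ^ 2 + w 3 ^ 2 < 0 := by unfold form at hw; rw [h0] at hw; nlinarith
    nlinarith [sq_nonneg (w 1), sq_nonneg (w 2), sq_nonneg (w 3)]

/-- Two half spaces: if `u + v` is causal future, no point has nonnegative products with
both of them. -/
lemma half_spaces {u v x : V4} (huv : CF (u + v)) (hx : TL x) (h : 0 ≤ form x u) :
    form x v < 0 := by
  have := form_neg_of_TL_CF hx huv
  rw [form_add_right] at this; linarith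

lemma TL.add_CF {x y : V4} (hx : TL x) (hy : CF y) : TL (x + y) := by
  refine ⟨?_, by simpa using add_pos hx.2 hy.2⟩
  rw [form_add_left, form_add_right, form_add_right]
  have h1 := form_neg_of_TL_CF hx hy
  have h2 := hx.1
  have h3 := hy.1
  rw [form_comm y x]; linarith

lemma CF.smul {x : V4} (hx : CF x) {c : ℝ} (hc : 0 < c) : CF (c • x) := by
  refine ⟨?_, by simpa using mul_pos hc hx.2⟩
  rw [form_smul_left, form_smul_right]
  have : c * (c * form x x) = c ^ 2 * form x x := by ring
  rw [this]; exact mul_nonpos_of_nonneg_of_nonpos (by positivity) hx.1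

lemma TL.smul {x : V4} (hx : TL x) {c : ℝ} (hc : 0 < c) : TL (c • x) := by
  refine ⟨?_, by simpa using mul_pos hc hx.2⟩
  rw [form_smul_left, form_smul_right]
  have : c * (c * form x x) = c ^ 2 * form x x := by ring
  rw [this]; exact mul_neg_of_pos_of_neg (by positivity) hx.1

lemma refl_add (u x y : V4) : refl u (x + y) = refl u x + refl u y := by
  unfold refl; rw [form_add_left]; module
lemma refl_smul (u : V4) (c : ℝ) (x : V4) : refl u (c • x) = c • refl u x := by
  unfold refl; rw [form_smul_left]; module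
lemma refl_refl {u : V4} (hu : form u u = 1) (x : V4) : refl u (refl u x) = x := by
  unfold refl; rw [form_sub_left, form_smul_left, hu]; module
lemma refl_self {u : V4} (hu : form u u = 1) : refl u u = -u := by
  unfold refl; rw [hu]; module
lemma refl_neg (u x : V4) : refl (-u) x = refl u x := by
  unfold refl; rw [form_neg_right]; module
lemma form_refl {u : V4} (hu : form u u = 1) (x y : V4) :
    form (refl u x) (refl u y) = form x y := by
  unfold refl
  simp only [form_sub_left, form_sub_right, form_smul_left, form_smul_right, hu, form_comm u y]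
  ring
lemma refl_of_orth {u x : V4} (h : form x u = 0) : refl u x = x := by
  unfold refl; rw [h]; simp

lemma tl_refl {u : V4} (hu : form u u = 1) {x : V4} (hx : TL x) : TL (refl u x) := by
  refine tl_of_form_neg hx.cf (by rw [form_refl hu]; exact hx.1) ?_
  unfold refl
  rw [form_sub_right, form_smul_right]
  have := hx.1
  nlinarith [sq_nonneg (form x u)]

lemma isH_refl {u : V4} (hu : form u u = 1) {x : V4} (hx : IsH x) : IsH (refl u x) :=
  ⟨by rw [form_refl hu]; exact hx.1, (tl_refl hu hx.tl).2⟩

lemma IsH.eq_of_smul {x y : V4} (hx : IsH x) (hy : IsH y) {c : ℝ} (h : y = c • x) : y = x := by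
  have h1 := hy.1
  rw [h, form_smul_left, form_smul_right, hx.1] at h1
  have h2 : c ^ 2 = 1 := by nlinarith
  have h3 := hy.2
  rw [h] at h3
  have hc : 0 < c := by
    have := hx.2
    simp at h3
    by_contra hc
    nlinarith
  have : c = 1 := by nlinarith
  rw [h, this, one_smul]

/-- Normalisation of a timelike vector. -/
noncomputable def nrm (x : V4) : V4 := (Real.sqrt (- form x x))⁻¹ • x

lemma isH_nrm {x : V4} (hx : TL x) : IsH (nrm x) := by
  have h : 0 < - form x x := by linarith [hx.1]
  have hs : 0 < Real.sqrt (- form x x) := Real.sqrt_pos.mpr h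
  refine ⟨?_, by simpa [nrm] using mul_pos (inv_pos.mpr hs) hx.2⟩
  unfold nrm
  rw [form_smul_left, form_smul_right]
  field_simp
  rw [Real.sq_sqrt h.le]; ring

lemma nrm_of_isH {x : V4} (hx : IsH x) : nrm x = x := by
  unfold nrm; rw [hx.1]; simp

lemma nrm_smul {x : V4} {c : ℝ} (hc : 0 < c) : nrm (c • x) = nrm x := by
  unfold nrm
  rw [form_smul_left, form_smul_right]
  have : -(c * (c * form x x)) = c ^ 2 * (- form x x) := by ring
  rw [this, Real.sqrt_mul (by positivity), Real.sqrt_sq hc.le, smul_smul, mul_inv]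
  congr 1
  field_simp

lemma continuous_nrm {X : Type*} [TopologicalSpace X] {f : X → V4} {s : Set X}
    (hf : ContinuousOn f s) (h : ∀ x ∈ s, TL (f x)) : ContinuousOn (fun x => nrm (f x)) s := by
  unfold nrm
  have h1 : ContinuousOn (fun x => - form (f x) (f x)) s := by
    rw [continuousOn_iff_continuous_domRestrict] at hf ⊢
    exact (continuous_form hf hf).neg
  refine ContinuousOn.smul (ContinuousOn.inv₀ (h1.sqrt) ?_) hf
  intro x hx
  exact (Real.sqrt_pos.mpr (by linarith [(h x hx).1])).ne'

end Run7.h606
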