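import Pool.Agent.Run7.h606.TR

namespace Run7.h606

open Filter Topology

/-! ### More about neighbours of frames -/

lemma Iso3.refl (g : Iso3) (u x : V4) : (g : V4 ≃ₗ[ℝ] V4) (Run7.h606.refl u x) =
    Run7.h606.refl ((g : V4 ≃ₗ[ℝ] V4) u) ((g : V4 ≃ₗ[ℝ] V4) x) := by
  unfold Run7.h606.refl; rw [Iso3.form_eq, map_sub, map_smul]

lemma Frel.ap {s : Gn} {F F' : Fr} (hF : IsFr F) (h : Frel s F F') (g : Iso3) :
    Frel s (ap g F) (ap g F') := by
  obtain ⟨b, i⟩ := s
  cases b
  · rw [frel_false] at h ⊢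
    refine ⟨fun k hk => by rw [ap_apply, ap_apply, h.1 k hk], ?_⟩
    rw [ap_apply, coord_ap hF]; exact h.2
  · rw [frel_true] at h ⊢
    funext k
    rw [h]
    show (g : V4 ≃ₗ[ℝ] V4) (Run7.h606.refl (F i) (F k)) = _
    rw [Iso3.refl]; rfl

lemma Frel.comp {b : Bool} {i : Fin 4} {F F' : Fr} (hF : IsFr F) (π : Equiv.Perm (Fin 4))
    (h : Frel (b, π i) F F') : Frel (b, i) (F ∘ π) (F' ∘ π) := by
  cases b
  · rw [frel_false] at h ⊢
    refine ⟨fun k hk => h.1 _ (π.injective.ne hk), ?_⟩
    rw [coord_comp hF.det_ne]; exact h.2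
  · rw [frel_true] at h ⊢
    rw [h]; rfl

lemma frel_unique_gm {s : Gn} {F G G' : Fr} (hF : IsFr F) (h : Frel s F G) (h' : Frel s F G')
    (hg : gm G = gm G') : G = G' := by
  obtain ⟨b, i⟩ := s
  cases b
  · rw [frel_false] at h h'
    exact frame_unique hF.det_ne i h.1 h'.1 hg h.2 h'.2
  · rw [frel_true] at h h'
    rw [h, h']

/-! ### Continuity of the white move -/

lemma continuous_nv {X : Type*} [TopologicalSpace X] {F : X → Fr} {p q r : X → ℝ}
    (hF : Continuous F) (hfr : ∀ x, IsFr (F x)) (hp : Continuous p) (hq : Continuous q)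
    (hr : Continuous r) : Continuous fun x => nv (F x) (p x) (q x) (r x) := by
  have cg : ∀ i j, Continuous fun x => gm (F x) i j := fun i j =>
    (continuous_gm.comp hF).matrix_elem i j
  have c01 := cg 0 1
  have c02 := cg 0 2
  have c03 := cg 0 3
  have c12 := cg 1 2
  have c13 := cg 1 3
  have c23 := cg 2 3
  have cF : ∀ i, Continuous fun x => F x i := fun i => (continuous_apply i).comp hF
  have hT : ∀ x, Tt (gm (F x) 1 2) (gm (F x) 1 3) (gm (F x) 2 3) ≠ 0 := fun x =>
    (Tt_pos ((hfr x).gd.one_le _ _ (by decide)) ((hfr x).gd.one_le _ _ (by decide))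
      ((hfr x).gd.one_le _ _ (by decide))).ne'
  have cT : Continuous fun x => Tt (gm (F x) 1 2) (gm (F x) 1 3) (gm (F x) 2 3) := by
    unfold Tt; fun_prop
  have cdet : Continuous fun x => (gm (F x)).det := (continuous_gm.comp hF).matrix_det
  have hdet : ∀ x, (gm (F x)).det ≠ 0 := fun x => (hfr x).gd.det_neg.ne
  have cs : Continuous fun x => Real.sqrt (PG (p x) (q x) (r x) (gm (F x) 1 2) (gm (F x) 1 3)
      (gm (F x) 2 3) / (gm (F x)).det) := by
    refine (Continuous.div ?_ cdet hdet).sqrt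
    unfold PG; fun_prop
  have b1 : Continuous fun x => be1 (gm (F x) 1 2) (gm (F x) 1 3) (gm (F x) 2 3) (p x) (q x)
      (r x) := by unfold be1; exact Continuous.div (by fun_prop) cT hT
  have b2 : Continuous fun x => be2 (gm (F x) 1 2) (gm (F x) 1 3) (gm (F x) 2 3) (p x) (q x)
      (r x) := by unfold be2; exact Continuous.div (by fun_prop) cT hT
  have b3 : Continuous fun x => be3 (gm (F x) 1 2) (gm (F x) 1 3) (gm (F x) 2 3) (p x) (q x)
      (r x) := by unfold be3; exact Continuous.div (by fun_prop) cT hT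
  have d1 : Continuous fun x => be1 (gm (F x) 1 2) (gm (F x) 1 3) (gm (F x) 2 3)
      (gm (F x) 0 1) (gm (F x) 0 2) (gm (F x) 0 3) := by
    unfold be1; exact Continuous.div (by fun_prop) cT hT
  have d2 : Continuous fun x => be2 (gm (F x) 1 2) (gm (F x) 1 3) (gm (F x) 2 3)
      (gm (F x) 0 1) (gm (F x) 0 2) (gm (F x) 0 3) := by
    unfold be2; exact Continuous.div (by fun_prop) cT hT
  have d3 : Continuous fun x => be3 (gm (F x) 1 2) (gm (F x) 1 3) (gm (F x) 2 3)
      (gm (F x) 0 1) (gm (F x) 0 2) (gm (F x) 0 3) := by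
    unfold be3; exact Continuous.div (by fun_prop) cT hT
  unfold nv
  exact (((((b1.add (cs.mul d1)).smul (cF 1)).add ((b2.add (cs.mul d2)).smul (cF 2))).add
    ((b3.add (cs.mul d3)).smul (cF 3))).add (cs.neg.smul (cF 0)))

lemma continuous_wh {X : Type*} [TopologicalSpace X] (i : Fin 4) {F : X → Fr}
    {b : X → Matrix (Fin 4) (Fin 4) ℝ}
    (hF : Continuous F) (hfr : ∀ x, IsFr (F x)) (hb : Continuous b) :
    Continuous fun x => wh i (F x) (b x) := by
  have hF' : Continuous fun x => F x ∘ sw i :=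
    continuous_pi fun k => (continuous_apply (sw i k)).comp hF
  have hb' : ∀ k l, Continuous fun x => (b x).submatrix (sw i) (sw i) k l := fun k l =>
    hb.matrix_elem _ _
  have h0 : Continuous fun x => nv (F x ∘ sw i) ((b x).submatrix (sw i) (sw i) 0 1)
      ((b x).submatrix (sw i) (sw i) 0 2) ((b x).submatrix (sw i) (sw i) 0 3) :=
    continuous_nv hF' (fun x => (hfr x).comp (sw i)) (hb' _ _) (hb' _ _) (hb' _ _)
  refine continuous_pi fun k => ?_
  unfold wh rep0
  by_cases hk : sw i k = 0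
  · simp only [Function.comp, hk, Function.update_self]
    exact h0
  · simp only [Function.comp, Function.update_of_ne hk]
    exact (continuous_apply _).comp hF

/-! ### Tiles -/

lemma tile_isFr {e : Fr} (h : IsHyperideal e) : IsFr e := by
  have hgd : GD (gm e) := by
    refine ⟨fun i => by simp [h.unit], fun i j => by simp [form_comm], fun i j hij => ?_, ?_⟩
    · have := h.ultraparallel i j hij; simp only [gm_apply]; linarith
    · rw [det_gm]
      have h1 : (fmat e).det ≠ 0 := by
        have h2 : fmat e = (Matrix.of e).transpose := by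
          ext i j; rfl
        rw [h2, Matrix.det_transpose]
        have h3 : IsUnit (Matrix.of e) := by
          rw [← Matrix.linearIndependent_rows_iff_isUnit]
          exact h.indep
        exact ((Matrix.isUnit_iff_isUnit_det _).mp h3).ne_zero
      have : 0 < (fmat e).det ^ 2 := by positivity
      linarith
  exact ⟨hgd, hgd.form_sum_neg, h.future⟩

lemma across_iff {e e' : Fr} (he : IsFr e) (i : Fin 4) :
    Across i e e' ↔ Frel (false, i) e e' := by
  rw [frel_false]
  constructor
  · rintro ⟨h1, c, hc, h2⟩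
    refine ⟨h1, ?_⟩
    have : e' i = comb e c := h2
    rw [this, coord_comb he.det_ne]; exact hc
  · rintro ⟨h1, h2⟩
    exact ⟨h1, coord e (e' i), h2, (comb_coord he.det_ne _).symm⟩

/-! ### States -/

/-- A state: a path of frames with straight Gram data that ends at a tile. -/
@[ext] structure State (T : Set Fr) where
  f : unitInterval → Fr
  cont : Continuous f
  mem : f 1 ∈ T
  gm_eq : ∀ t, gm (f t) = bt t (gm (f 1))
  fr : ∀ t, IsFr (f t)

section
variable {T : Set Fr} (hT : IsMirroredTessellation T)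

include hT in
lemma tile_fr {e : Fr} (he : e ∈ T) : IsFr e := tile_isFr (hT.hyperideal e he)

/-- The neighbouring tile. -/
noncomputable def nb (e : Fr) (i : Fin 4) : Fr := by
  classical
  exact if h : e ∈ T then (hT.neighbour e h i).exists.choose else e

lemma nb_spec {e : Fr} (he : e ∈ T) (i : Fin 4) : nb hT e i ∈ T ∧ Across i e (nb hT e i) := by
  classical
  unfold nb
  rw [dif_pos he]
  exact (hT.neighbour e he i).exists.choose_spec

include hT in
lemma tile_unique {s : Gn} {e e' e'' : Fr} (he : e ∈ T) (he' : e' ∈ T) (he'' : e'' ∈ T)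
    (h' : Frel s e e') (h'' : Frel s e e'') : e' = e'' := by
  obtain ⟨b, i⟩ := s
  cases b
  · exact (hT.neighbour e he i).unique ⟨he', (across_iff (tile_fr hT he) i).mpr h'⟩
      ⟨he'', (across_iff (tile_fr hT he) i).mpr h''⟩
  · rw [frel_true] at h' h''
    rw [h', h'']

lemma State.ext' {F G : State T} (h : ∀ t, F.f t = G.f t) : F = G := State.ext (funext h)

/-- The black move. -/
noncomputable def mvb (j : Fin 4) (F : State T) : State T where
  f t := refl (F.f t j) ∘ F.f t
  cont := by
    refine continuous_pi fun k => ?_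
    have cj : Continuous fun t => F.f t j := (continuous_apply j).comp F.cont
    have ck : Continuous fun t => F.f t k := (continuous_apply k).comp F.cont
    simp only [Function.comp, refl]
    exact ck.sub ((continuous_const.mul (continuous_form ck cj)).smul cj)
  mem := hT.mirror _ F.mem j _ F.mem
  gm_eq t := by
    have h1 : ∀ t, gm (refl (F.f t j) ∘ F.f t) = gm (F.f t) := fun t =>
      gm_ap (reflI (F.f t j) ((F.fr t).unit j)) (F.f t)
    rw [h1, h1, F.gm_eq]
  fr t := (F.fr t).ap (reflI (F.f t j) ((F.fr t).unit j))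

lemma agree_nb {F : State T} (i : Fin 4) (t : unitInterval) (k l : Fin 4) (hk : k ≠ i)
    (hl : l ≠ i) : bt t (gm (nb hT (F.f 1) i)) k l = gm (F.f t) k l := by
  have h := (nb_spec hT F.mem i).2.1
  rw [F.gm_eq t]
  by_cases hkl : k = l
  · rw [hkl, bt_diag, bt_diag]
  · rw [bt_off _ _ hkl, bt_off _ _ hkl, gm_apply, gm_apply, h k hk, h l hl]

lemma gd_nb {F : State T} (i : Fin 4) (t : unitInterval) :
    GD (bt t (gm (nb hT (F.f 1) i))) :=
  (tile_fr hT (nb_spec hT F.mem i).1).gd.bt t.2.1 t.2.2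

lemma wh_one {F : State T} (i : Fin 4) :
    wh i (F.f 1) (bt ((1 : unitInterval) : ℝ) (gm (nb hT (F.f 1) i))) = nb hT (F.f 1) i := by
  have hs := nb_spec hT F.mem i
  have h1 := gm_wh (F.fr 1) (gd_nb hT i 1) (agree_nb hT i 1)
  have h2 := coord_wh (F.fr 1) (gd_nb hT i 1) (agree_nb hT i 1)
  have h3 := (frel_false.mp ((across_iff (F.fr 1) i).mp hs.2))
  refine frame_unique (F.fr 1).det_ne i (fun k hk => wh_ne hk) h3.1 ?_ h2 h3.2
  rw [h1, Set.Icc.coe_one, bt_one (tile_fr hT hs.1).gd.diag]

/-- The white move. -/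
noncomputable def mvw (i : Fin 4) (F : State T) : State T where
  f t := wh i (F.f t) (bt t (gm (nb hT (F.f 1) i)))
  cont := by
    refine continuous_wh i F.cont F.fr ?_
    exact continuous_bt continuous_subtype_val continuous_const
  mem := by rw [wh_one hT]; exact (nb_spec hT F.mem i).1
  gm_eq t := by rw [gm_wh (F.fr t) (gd_nb hT i t) (agree_nb hT i t), wh_one hT]
  fr t := isFr_wh (F.fr t) (gd_nb hT i t) (agree_nb hT i t)

/-- The moves. -/
noncomputable def mv (s : Gn) (F : State T) : State T :=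
  if s.1 = true then mvb hT s.2 F else mvw hT s.2 F

lemma mv_rel (s : Gn) (F : State T) (t : unitInterval) : Frel s (F.f t) ((mv hT s F).f t) := by
  obtain ⟨b, i⟩ := s
  cases b
  · rw [frel_false]
    simp only [mv, Bool.false_eq_true, if_false, mvw]
    exact ⟨fun k hk => wh_ne hk, coord_wh (F.fr t) (gd_nb hT i t) (agree_nb hT i t)⟩
  · rw [frel_true]; simp [mv, mvb]

lemma mv_unique {s : Gn} {F G : State T} (h : ∀ t, Frel s (F.f t) (G.f t)) :
    G = mv hT s F := by
  have h1 : G.f 1 = (mv hT s F).f 1 :=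
    tile_unique hT F.mem G.mem (mv hT s F).mem (h 1) (mv_rel hT s F 1)
  refine State.ext' fun t => frel_unique_gm (F.fr t) (h t) (mv_rel hT s F t) ?_
  rw [G.gm_eq, (mv hT s F).gm_eq, h1]

lemma mv_mv (s : Gn) (F : State T) : mv hT s (mv hT s F) = F :=
  (mv_unique hT fun t => (mv_rel hT s F t).symm (F.fr t) ((mv hT s F).fr t)).symm

lemma mv_comm_aux {i j : Fin 4} (hij : i ≠ j) (F : State T) :
    mv hT (true, j) (mv hT (false, i) F) = mv hT (false, i) (mv hT (true, j) F) := by
  refine mv_unique hT fun t => ?_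
  have h1 := frel_true.mp (mv_rel hT (true, j) F t)
  have h2 := mv_rel hT (false, i) F t
  have h3 := frel_true.mp (mv_rel hT (true, j) (mv hT (false, i) F) t)
  rw [h1, h3, (frel_false.mp h2).1 j hij.symm]
  exact h2.ap (F.fr t) (reflI (F.f t j) ((F.fr t).unit j))

lemma mv_comm {s s' : Gn} (h1 : s.1 ≠ s'.1) (h2 : s.2 ≠ s'.2) (F : State T) :
    mv hT s (mv hT s' F) = mv hT s' (mv hT s F) := by
  obtain ⟨b, i⟩ := s
  obtain ⟨b', j⟩ := s'
  cases b <;> cases b'
  · exact absurd rfl h1
  · exact (mv_comm_aux hT h2 F).symm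
  · exact mv_comm_aux hT (Ne.symm h2) F
  · exact absurd rfl h1

/-- Isometry paths commute with the moves. -/
lemma mv_ap {g : unitInterval → Iso3} (hg : ∀ e ∈ T, ap (g 1) e ∈ T) {F F' : State T}
    (h : ∀ t, F'.f t = ap (g t) (F.f t)) (s : Gn) (t : unitInterval) :
    (mv hT s F').f t = ap (g t) ((mv hT s F).f t) := by
  have h1 : (mv hT s F').f 1 = ap (g 1) ((mv hT s F).f 1) := by
    refine tile_unique hT F'.mem (mv hT s F').mem (hg _ (mv hT s F).mem) (mv_rel hT s F' 1) ?_
    rw [h 1]; exact (mv_rel hT s F 1).ap (F.fr 1) (g 1)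
  refine frel_unique_gm (F'.fr t) (mv_rel hT s F' t) ?_ ?_
  · rw [h t]; exact (mv_rel hT s F t).ap (F.fr t) (g t)
  · rw [gm_ap, (mv hT s F').gm_eq, (mv hT s F).gm_eq, h1, gm_ap]

lemma bt_submatrix (t : ℝ) (b : Matrix (Fin 4) (Fin 4) ℝ) (π : Equiv.Perm (Fin 4)) :
    bt t (b.submatrix π π) = (bt t b).submatrix π π := by
  ext i j
  simp [bt, π.injective.eq_iff]

/-- Relabelling. -/
def State.comp (F : State T) (hT : IsMirroredTessellation T) (π : Equiv.Perm (Fin 4)) :
    State T where
  f t := F.f t ∘ π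
  cont := continuous_pi fun k => (continuous_apply (π k)).comp F.cont
  mem := hT.relabel _ F.mem π
  gm_eq t := by rw [gm_comp, gm_comp, F.gm_eq, bt_submatrix]
  fr t := (F.fr t).comp π

lemma comp_f (F : State T) (π : Equiv.Perm (Fin 4)) (t : unitInterval) :
    (F.comp hT π).f t = F.f t ∘ π := rfl

lemma mv_comp (b : Bool) (i : Fin 4) (F : State T) (π : Equiv.Perm (Fin 4)) :
    mv hT (b, i) (F.comp hT π) = (mv hT (b, π i) F).comp hT π :=
  (mv_unique hT fun t => (mv_rel hT (b, π i) F t).comp (F.fr t) π).symm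

/-- The action of the Coxeter group on the states. -/
noncomputable def act : W →* Equiv.Perm (State T) :=
  cs.lift ⟨fun s => ⟨mv hT s, mv hT s, mv_mv hT s, mv_mv hT s⟩, liftable _
    (fun s => Equiv.ext fun F => mv_mv hT s F)
    fun s s' h1 h2 => Equiv.ext fun F => mv_comm hT h1 h2 F⟩

lemma act_simple (s : Gn) (F : State T) : act hT (cs.simple s) F = mv hT s F := by
  unfold act
  rw [cs.lift_apply_simple]; rfl

/-- The state reached from `F` by crossing the faces of a word for `w`. -/
noncomputable def stt (F : State T) (w : W) : State T := act hT w⁻¹ F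

lemma stt_one (F : State T) : stt hT F 1 = F := by
  unfold stt; rw [inv_one, map_one]; rfl

lemma stt_mul (F : State T) (w : W) (s : Gn) :
    stt hT F (w * cs.simple s) = mv hT s (stt hT F w) := by
  unfold stt
  rw [mul_inv_rev, cs.inv_simple, map_mul, Equiv.Perm.mul_apply, act_simple]

/-- The base state. -/
noncomputable def base (e : Fr) (he : e ∈ T) : State T where
  f t := ap (isoI (hat (gm e)) e (isFr_hat (tile_fr hT he).gd) (tile_fr hT he)
    (gm_hat (tile_fr hT he).gd)) (hat (bt t (gm e)))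
  cont := by
    have h : Continuous fun t : unitInterval => hat (bt (t : ℝ) (gm e)) :=
      continuous_hat (continuous_bt continuous_subtype_val continuous_const)
        fun t => (tile_fr hT he).gd.bt t.2.1 t.2.2
    refine continuous_pi fun k => ?_
    exact (LinearMap.continuous_of_finiteDimensional (LinearEquiv.toLinearMap _)).comp
      ((continuous_apply k).comp h)
  mem := by
    rw [Set.Icc.coe_one, bt_one (tile_fr hT he).gd.diag, ap_isoI]; exact he
  gm_eq t := by
    rw [gm_ap, gm_ap, gm_hat ((tile_fr hT he).gd.bt t.2.1 t.2.2), Set.Icc.coe_one,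
      bt_one (tile_fr hT he).gd.diag, gm_hat (tile_fr hT he).gd]
  fr t := (isFr_hat ((tile_fr hT he).gd.bt t.2.1 t.2.2)).ap _

lemma base_one {e : Fr} (he : e ∈ T) : (base hT e he).f 1 = e := by
  show ap _ (hat (bt ((1 : unitInterval) : ℝ) (gm e))) = e
  rw [Set.Icc.coe_one, bt_one (tile_fr hT he).gd.diag, ap_isoI]

end

lemma State.isOct {T : Set Fr} (F : State T) : IsOct (F.f 0) :=
  ⟨F.fr 0, by rw [F.gm_eq, Set.Icc.coe_zero, bt_zero]⟩

end Run7.h606
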