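import Mathlib

/-!
Definitions used in the statement: hyperbolic 3-space in the hyperboloid model, its isometry
group, closed hyperbolic 3-manifold groups, the arithmetic manifold groups commensurable with
`SO₀(3,1;ℤ)`, geodesic links, geometric Dehn filling of all cusps, and mirror symmetric
tessellations by truncated tetrahedra.
-/

namespace Run7.h606

open Topology

/-! ### Hyperbolic space and its isometries -/

/-- Minkowski space `ℝ^{3,1}`; the coordinate `0` is the time coordinate. -/
abbrev V4 := Fin 4 → ℝ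

/-- The Lorentz form of signature (3,1). -/
def form (x y : V4) : ℝ := -(x 0 * y 0) + x 1 * y 1 + x 2 * y 2 + x 3 * y 3

/-- The upper sheet of the hyperboloid. -/
def IsH (x : V4) : Prop := form x x = -1 ∧ 0 < x 0

/-- Hyperbolic 3-space (hyperboloid model), with the subspace topology. -/
abbrev H3 := {x : V4 // IsH x}

/-- The group of linear automorphisms of Minkowski space. -/
def Lin : Type := V4 ≃ₗ[ℝ] V4

noncomputable instance : Group Lin := LinearEquiv.automorphismGroup

/-- The value of a linear automorphism. -/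
def Lin.app (g : Lin) (x : V4) : V4 := (show V4 ≃ₗ[ℝ] V4 from g) x

/-- The linear automorphism preserves the Lorentz form and the upper sheet. -/
def Lin.IsLorentz (g : Lin) : Prop :=
  (∀ x y, form (g.app x) (g.app y) = form x y) ∧ ∀ x, IsH (g.app x) ↔ IsH x

theorem Lin.IsLorentz.one : Lin.IsLorentz 1 := ⟨fun _ _ => rfl, fun _ => Iff.rfl⟩

theorem Lin.IsLorentz.mul {a b : Lin} (ha : a.IsLorentz) (hb : b.IsLorentz) :
    (a * b).IsLorentz :=
  ⟨fun x y => (ha.1 (b.app x) (b.app y)).trans (hb.1 x y),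
    fun x => (ha.2 (b.app x)).trans (hb.2 x)⟩

theorem Lin.IsLorentz.inv {a : Lin} (ha : a.IsLorentz) : (a⁻¹).IsLorentz := by
  have h : ∀ x, a.app ((a⁻¹).app x) = x := fun x =>
    (show V4 ≃ₗ[ℝ] V4 from a).apply_symm_apply x
  refine ⟨fun x y => ?_, fun x => ?_⟩
  · rw [← ha.1, h, h]
  · rw [← ha.2, h]

/-- The isometry group of hyperbolic 3-space. -/
def LorentzGroup : Subgroup Lin where
  carrier := {g | g.IsLorentz}
  mul_mem' := Lin.IsLorentz.mul
  one_mem' := Lin.IsLorentz.one
  inv_mem' := Lin.IsLorentz.inv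

/-- The isometry group of hyperbolic 3-space, as a type. -/
def Isom : Type := LorentzGroup

noncomputable instance : Group Isom := Subgroup.toGroup LorentzGroup

/-- An isometry as a linear map of Minkowski space. -/
def Isom.lin (g : Isom) (x : V4) : V4 := Lin.app g.1 x

theorem Isom.isH_lin (g : Isom) (x : H3) : IsH (g.lin x) := (g.2.2 x).mpr x.2

/-- The action of the isometry group on hyperbolic 3-space. -/
instance : SMul Isom H3 := ⟨fun g x => ⟨g.lin x, g.isH_lin x⟩⟩

/-- Orientation preserving isometries: those whose matrix has determinant `1`. -/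
def Isom.Orient (g : Isom) : Prop :=
  (Matrix.of fun i j => g.lin (Pi.single j 1) i).det = 1

/-- Integer vectors. -/
def IsInt (x : V4) : Prop := ∀ i, ∃ n : ℤ, x i = n

/-- The isometries in `SO₀(3,1;ℤ)`: they preserve the orientation and the integer vectors. -/
def Isom.Integral (g : Isom) : Prop := g.Orient ∧ ∀ x, IsInt (g.lin x) ↔ IsInt x

/-- The underlying linear map. -/
def Isom.toMap (g : Isom) : V4 →ₗ[ℝ] V4 :=
  LinearEquiv.toLinearMap (show V4 ≃ₗ[ℝ] V4 from g.1)

theorem Isom.orient_iff (g : Isom) : g.Orient ↔ LinearMap.det g.toMap = 1 := by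
  have h : (Matrix.of fun i j => g.lin (Pi.single j 1) i) = LinearMap.toMatrix' g.toMap := by
    ext i j
    rw [LinearMap.toMatrix'_apply]
    rfl
  rw [Isom.Orient, h, LinearMap.det_toMatrix']

theorem Isom.Orient.one : Isom.Orient 1 := by
  rw [Isom.orient_iff]
  exact LinearMap.det_id

theorem Isom.Orient.mul {a b : Isom} (ha : a.Orient) (hb : b.Orient) : (a * b).Orient := by
  rw [Isom.orient_iff] at *
  have : (a * b).toMap = a.toMap ∘ₗ b.toMap := rfl
  rw [this, LinearMap.det_comp, ha, hb, one_mul]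

theorem Isom.Orient.inv {a : Isom} (ha : a.Orient) : (a⁻¹).Orient := by
  have h1 : (a⁻¹ * a).Orient := by rw [inv_mul_cancel]; exact Isom.Orient.one
  rw [Isom.orient_iff] at *
  have : (a⁻¹ * a).toMap = (a⁻¹).toMap ∘ₗ a.toMap := rfl
  rw [this, LinearMap.det_comp, ha, mul_one] at h1
  exact h1

theorem Isom.Integral.one : Isom.Integral 1 := ⟨Isom.Orient.one, fun _ => Iff.rfl⟩

theorem Isom.Integral.mul {a b : Isom} (ha : a.Integral) (hb : b.Integral) :
    (a * b).Integral :=
  ⟨ha.1.mul hb.1, fun x => (ha.2 (b.lin x)).trans (hb.2 x)⟩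

theorem Isom.Integral.inv {a : Isom} (ha : a.Integral) : (a⁻¹).Integral := by
  refine ⟨ha.1.inv, fun x => ?_⟩
  have h := ha.2 ((a⁻¹).lin x)
  have h2 : a.lin ((a⁻¹).lin x) = x := (show V4 ≃ₗ[ℝ] V4 from a.1).apply_symm_apply x
  rw [h2] at h
  exact h.symm

/-- The group `SO₀(3,1;ℤ)`. -/
noncomputable def IntGroup : Subgroup Isom where
  carrier := {g | g.Integral}
  mul_mem' := Isom.Integral.mul
  one_mem' := Isom.Integral.one
  inv_mem' := Isom.Integral.inv

/-! ### The manifold groups -/

/-- `H3/Γ` is a closed orientable hyperbolic 3-manifold: `Γ` consists of orientation preserving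
isometries and is torsion-free, properly discontinuous and cocompact. -/
structure ClosedManifoldGroup (Γ : Subgroup Isom) : Prop where
  orientation : ∀ g ∈ Γ, g.Orient
  torsionFree : ∀ g ∈ Γ, ∀ n : ℕ, 0 < n → g ^ n = 1 → g = 1
  properlyDiscontinuous : ∀ K : Set H3, IsCompact K →
    {g : Isom | g ∈ Γ ∧ ∃ x ∈ K, g • x ∈ K}.Finite
  cocompact : ∃ K : Set H3, IsCompact K ∧ ∀ x : H3, ∃ g ∈ Γ, g • x ∈ K

/-- `H3/Γ` is an orientable arithmetic hyperbolic 3-manifold commensurable with the quotient of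
`H3` by `SO₀(3,1;ℤ)`: `Γ` is torsion-free and, after conjugation by an isometry, a subgroup of
finite index of `SO₀(3,1;ℤ)`. -/
structure ArithmeticManifoldGroup (Γ : Subgroup Isom) : Prop where
  torsionFree : ∀ g ∈ Γ, ∀ n : ℕ, 0 < n → g ^ n = 1 → g = 1
  orientation : ∀ g ∈ Γ, g.Orient
  arithmetic : ∃ h : Isom, Γ.map (MulAut.conj h).toMonoidHom ≤ IntGroup ∧
    (Γ.map (MulAut.conj h).toMonoidHom).relIndex IntGroup ≠ 0

/-! ### Geometric Dehn filling -/

/-- Geodesic lines of hyperbolic 3-space. -/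
def IsLine (l : Set H3) : Prop :=
  ∃ u v : V4, form u u = -1 ∧ form v v = 1 ∧ form u v = 0 ∧
    l = {x : H3 | ∃ a b : ℝ, (x : V4) = a • u + b • v}

/-- `L` is the set of lifts to `H3` of the components of a link in `H3/Γ` that consists of
finitely many pairwise disjoint simple closed geodesics. -/
structure GeodesicLink (Γ : Subgroup Isom) (L : Set (Set H3)) : Prop where
  line : ∀ l ∈ L, IsLine l
  invariant : ∀ g ∈ Γ, ∀ l ∈ L, (fun x : H3 => g • x) '' l ∈ L
  disjoint : ∀ l ∈ L, ∀ l' ∈ L, l ≠ l' → Disjoint l l'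
  closed : ∀ l ∈ L, ∃ g ∈ Γ, g ≠ 1 ∧ (fun x : H3 => g • x) '' l = l
  finite : ∃ S : Set (Set H3), S.Finite ∧ S ⊆ L ∧ ∀ l ∈ L, ∃ g ∈ Γ, ∃ l' ∈ S,
    l = (fun x : H3 => g • x) '' l'

/-- A continuous path of (in general incomplete) hyperbolic structures on `N = H3/ΓN`, given by
developing maps `D t : H3 → H3` and holonomies `ρ t`, which starts at the complete structure of
`N` and ends at the structure of the complement `M ∖ L` of a geodesic link `L` in the closed
hyperbolic manifold `M = H3/ΓM`: at the end, the developing map induces a homeomorphism, which is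
an isometry for the end structure, from `N` onto `M ∖ L`. -/
structure GeometricFilling (ΓN ΓM : Subgroup Isom) (ρ : unitInterval → ΓN →* Isom)
    (D : unitInterval → H3 → H3) (L : Set (Set H3)) : Prop where
  continuous : Continuous fun p : unitInterval × H3 => D p.1 p.2
  continuous_holonomy : ∀ (g : ΓN) (x : H3), Continuous fun t => ρ t g • x
  orientation : ∀ t g, (ρ t g).Orient
  localHomeo : ∀ t, IsLocalHomeomorph (D t)
  equivariant : ∀ t (g : ΓN) (x : H3), D t ((g : Isom) • x) = ρ t g • D t x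
  start : ∀ x, D 0 x = x
  start_holonomy : ∀ g : ΓN, ρ 0 g = g
  link : GeodesicLink ΓM L
  end_holonomy : ∀ g, ρ 1 g ∈ ΓM
  end_range : Set.range (D 1) = (⋃₀ L)ᶜ
  end_injective : ∀ x y : H3, (∃ γ ∈ ΓM, γ • D 1 x = D 1 y) → ∃ g ∈ ΓN, g • x = y

/-- The hyperbolic structure of the closed manifold `H3/ΓM` is obtained geometrically from the
complete structure of `H3/ΓN` by Dehn filling all the cusps. -/
def ObtainedGeom (ΓN ΓM : Subgroup Isom) : Prop := ∃ ρ D L, GeometricFilling ΓN ΓM ρ D L

/-! ### Mirrored tessellations by truncated tetrahedra -/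

/-- Reflection in the hyperplane orthogonal to a unit vector `u`. -/
def refl (u x : V4) : V4 := x - (2 * form x u) • u

/-- The four vertices of a hyperideal tetrahedron: unit spacelike vectors whose polar planes
are pairwise ultraparallel. -/
structure IsHyperideal (e : Fin 4 → V4) : Prop where
  unit : ∀ i, form (e i) (e i) = 1
  ultraparallel : ∀ i j, i ≠ j → form (e i) (e j) < -1
  indep : LinearIndependent ℝ e
  future : 0 < (∑ i, e i) 0

/-- The truncated tetrahedron: the part of the hyperideal tetrahedron with vertices `e i` that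
lies on the inner side of the polar planes of its vertices. -/
def truncated (e : Fin 4 → V4) : Set H3 :=
  {x | (∃ a : Fin 4 → ℝ, (∀ i, 0 ≤ a i) ∧ (x : V4) = ∑ i, a i • e i) ∧
    ∀ i, form x (e i) ≤ 0}

/-- `e'` is obtained from `e` by replacing the vertex `i` by a point on the other side of the
opposite face. -/
def Across (i : Fin 4) (e e' : Fin 4 → V4) : Prop :=
  (∀ j, j ≠ i → e' j = e j) ∧ ∃ c : Fin 4 → ℝ, c i < 0 ∧ e' i = ∑ k, c k • e k

/-- The two tiles `e`, `e'` of `T` are equal up to relabelling the vertices, mirror images in a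
truncation face of `e`, or adjacent along a face of the tetrahedron. -/
def Adjacent (T : Set (Fin 4 → V4)) (e e' : Fin 4 → V4) : Prop :=
  e' ∈ T ∧ ((∃ π : Equiv.Perm (Fin 4), e' = e ∘ π) ∨ (∃ i, e' = refl (e i) ∘ e) ∨
    ∃ i, Across i e e')

/-- `T` is the set of (labelled) tiles of a tessellation of hyperbolic 3-space by compact
truncated tetrahedra, which is invariant under the reflections in the truncation planes and
whose tiles meet face to face along the faces of the tetrahedra. -/
structure IsMirroredTessellation (T : Set (Fin 4 → V4)) : Prop where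
  hyperideal : ∀ e ∈ T, IsHyperideal e
  relabel : ∀ e ∈ T, ∀ π : Equiv.Perm (Fin 4), e ∘ π ∈ T
  mirror : ∀ e ∈ T, ∀ i, ∀ e' ∈ T, refl (e i) ∘ e' ∈ T
  neighbour : ∀ e ∈ T, ∀ i, ∃! e', e' ∈ T ∧ Across i e e'
  cover : ∀ x : H3, ∃ e ∈ T, x ∈ truncated e
  faceToFace : ∀ e ∈ T, ∀ e' ∈ T, ∀ x ∈ truncated e ∩ truncated e', ∃ e'' ∈ T,
    (e'' = e' ∨ ∃ j, form x (e j) = 0 ∧ e'' = refl (e j) ∘ e') ∧
    ∃ a : Fin 4 → ℝ, (∀ i, 0 ≤ a i) ∧ (x : V4) = ∑ i, a i • e i ∧
      ∀ i, a i ≠ 0 → e i ∈ Set.range e''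
  locallyFinite : ∀ x : H3, ∃ U ∈ 𝓝 x, {e | e ∈ T ∧ (truncated e ∩ U).Nonempty}.Finite
  connected : ∀ e ∈ T, ∀ e' ∈ T, Relation.ReflTransGen (Adjacent T) e e'

end Run7.h606
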