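import Pool.Agent.Run7.h606.Trans2
import Pool.Agent.Run7.h606.Cox

namespace Run7.h606

open Filter Topology

/-! ### Algebra of the transport map -/

section alg
variable {b b' : Matrix (Fin 4) (Fin 4) ℝ} {a a' : Fin 4 → ℝ}

lemma tr_rel (ha : CellP b a) (hb : GD b) (hb' : GD b') :
    ∃ θ, Rel (sv b a) a b' (tr b b' a) θ := ⟨_, trp_spec ha hb hb'⟩

lemma tr_unique (ha : CellP b a) (hb : GD b) (hb' : GD b') {θ : ℝ}
    (h : Rel (sv b a) a b' a' θ) : tr b b' a = a' :=
  (trp_spec ha hb hb').unique ha hb hb' h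

lemma tr_cellP (ha : CellP b a) (hb : GD b) (hb' : GD b') : CellP b' (tr b b' a) :=
  (trp_spec ha hb hb').cellP ha hb hb'

lemma tr_self (ha : CellP b a) (hb : GD b) : tr b b a = a :=
  tr_unique (θ := 1/2) ha hb hb ⟨ha.nn, ha.sn, ha.sum, by norm_num, by norm_num, fun i => by
    ring⟩

lemma tr_tr (ha : CellP b a) (hb : GD b) (hb' : GD b') : tr b' b (tr b b' a) = a := by
  obtain ⟨θ, h⟩ := tr_rel ha hb hb'
  refine tr_unique (θ := 1 - θ) (h.cellP ha hb hb') hb' hb ⟨ha.nn, ha.sn, ha.sum, by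
    linarith [h.t1], by linarith [h.t0], fun i => ?_⟩
  have := h.rel i
  linarith

lemma tr_comp (ha : CellP b a) (hb : GD b) (hb' : GD b') (π : Equiv.Perm (Fin 4)) :
    tr (b.submatrix π π) (b'.submatrix π π) (a ∘ π) = tr b b' a ∘ π := by
  obtain ⟨θ, h⟩ := tr_rel ha hb hb'
  have hc : CellP (b.submatrix π π) (a ∘ π) := by
    refine ⟨fun i => ha.nn _, fun i => ?_, ?_, fun i j hij => ha.a2 _ _ (π.injective.ne hij),
      fun i j hij => ?_⟩
    · rw [sv_comp]; exact ha.sn _
    · rw [← ha.sum]; exact Equiv.sum_comp π a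
    · rw [sv_comp]; exact ha.s2 _ _ (π.injective.ne hij)
  refine tr_unique (θ := θ) hc (hb.submatrix π) (hb'.submatrix π)
    ⟨fun i => h.nn _, fun i => ?_, ?_, h.t0, h.t1, fun i => ?_⟩
  · rw [sv_comp]; exact h.sn _
  · rw [← h.sum]; exact Equiv.sum_comp π (tr b b' a)
  · rw [sv_comp, sv_comp]; exact h.rel _

end alg

/-! ### Cells -/

lemma exists_ne_ne (i j : Fin 4) : ∃ k : Fin 4, k ≠ i ∧ k ≠ j := by
  decide +revert

/-- The truncated tetrahedron of a frame, without its edges. -/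
structure Cell (F : Fr) (x : V4) : Prop where
  isH : IsH x
  nn : ∀ i, 0 ≤ coord F x i
  sn : ∀ i, form x (F i) ≤ 0
  a2 : ∀ i j, i ≠ j → 0 < coord F x i ∨ 0 < coord F x j

/-- Normalised coordinates. -/
noncomputable def nc (F : Fr) (x : V4) : Fin 4 → ℝ := (∑ i, coord F x i)⁻¹ • coord F x

lemma sv_coord {F : Fr} (hF : IsFr F) (x : V4) (i : Fin 4) :
    sv (gm F) (coord F x) i = - form x (F i) := by
  have := form_comb_left F (coord F x) i
  rw [comb_coord hF.det_ne] at this
  linarith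

lemma Cell.sum_pos {F : Fr} {x : V4} (hx : Cell F x) : 0 < ∑ i, coord F x i := by
  rcases hx.a2 0 1 (by decide) with h | h
  · exact Finset.sum_pos' (fun i _ => hx.nn i) ⟨0, Finset.mem_univ _, h⟩
  · exact Finset.sum_pos' (fun i _ => hx.nn i) ⟨1, Finset.mem_univ _, h⟩

lemma IsFr.cf_pair {F : Fr} (hF : IsFr F) {i j : Fin 4} (h : i ≠ j) : CF (F i + F j) := by
  have h1 : form (F i) (F i) = 1 := by have := hF.gd.diag i; simp at this; linarith
  have h2 : form (F j) (F j) = 1 := by have := hF.gd.diag j; simp at this; linarith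
  have h3 : form (F i) (F j) ≤ -1 := by have := hF.gd.one_le i j h; simp at this; linarith
  refine cf_of_form_neg hF.fut ?_ ?_
  · rw [form_add_left, form_add_right, form_add_right, h1, h2, form_comm (F j) (F i)]; linarith
  · rw [form_add_right, form_comm _ (F i), form_comm _ (F j)]
    have := hF.gd.form_sum_le i; have := hF.gd.form_sum_le j; linarith

lemma Cell.s2 {F : Fr} (hF : IsFr F) {x : V4} (hx : Cell F x) {i j : Fin 4} (h : i ≠ j) :
    form x (F i) < 0 ∨ form x (F j) < 0 := by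
  have := form_neg_of_TL_CF hx.isH.tl (hF.cf_pair h)
  rw [form_add_right] at this
  by_contra hc
  push Not at hc
  linarith [hc.1, hc.2]

lemma Cell.cellP {F : Fr} (hF : IsFr F) {x : V4} (hx : Cell F x) : CellP (gm F) (nc F x) := by
  have hs := hx.sum_pos
  have hs' := inv_pos.mpr hs
  have hsv : ∀ i, sv (gm F) (nc F x) i = (∑ i, coord F x i)⁻¹ * (- form x (F i)) := by
    intro i; rw [nc, sv_smul, Pi.smul_apply, sv_coord hF]; rfl
  refine ⟨fun i => mul_nonneg hs'.le (hx.nn i), fun i => ?_, ?_, fun i j h => ?_,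
    fun i j h => ?_⟩
  · rw [hsv]; exact mul_nonneg hs'.le (by linarith [hx.sn i])
  · simp only [nc, Pi.smul_apply, smul_eq_mul]
    rw [← Finset.mul_sum, inv_mul_cancel₀ hs.ne']
  · rcases hx.a2 i j h with h | h
    · exact Or.inl (mul_pos hs' h)
    · exact Or.inr (mul_pos hs' h)
  · rw [hsv, hsv]
    rcases hx.s2 hF h with h | h
    · exact Or.inl (mul_pos hs' (by linarith))
    · exact Or.inr (mul_pos hs' (by linarith))

lemma comb_nc {F : Fr} (hF : IsFr F) {x : V4} (hx : Cell F x) :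
    comb F (nc F x) = (∑ i, coord F x i)⁻¹ • x := by
  rw [nc, comb_smul, comb_coord hF.det_ne]

lemma nrm_comb_nc {F : Fr} (hF : IsFr F) {x : V4} (hx : Cell F x) :
    nrm (comb F (nc F x)) = x := by
  rw [comb_nc hF hx, nrm_smul (inv_pos.mpr hx.sum_pos), nrm_of_isH hx.isH]

lemma CellP.tl {G : Fr} (hG : IsFr G) {a : Fin 4 → ℝ} (ha : CellP (gm G) a) :
    TL (comb G a) := by
  obtain ⟨i, hi⟩ := exists_special ha.nn ha.a2
  obtain ⟨j, hj⟩ := exists_special ha.sn ha.s2
  obtain ⟨k, hki, hkj⟩ := exists_ne_ne i j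
  refine tl_of_form_neg hG.fut.cf ?_ ?_
  · rw [form_comb_comb]
    have : 0 < ∑ i, a i * sv (gm G) a i :=
      Finset.sum_pos' (fun i _ => mul_nonneg (ha.nn i) (ha.sn i))
        ⟨k, Finset.mem_univ _, mul_pos (hi k hki) (hj k hkj)⟩
    linarith
  · rw [form_comm, form_sum_right]
    have : ∑ i, form (comb G a) (G i) = - ∑ i, sv (gm G) a i := by
      rw [← Finset.sum_neg_distrib]
      exact Finset.sum_congr rfl fun i _ => form_comb_left G a i
    rw [this]
    have : 0 < ∑ i, sv (gm G) a i :=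
      Finset.sum_pos' (fun i _ => ha.sn i) ⟨k, Finset.mem_univ _, hj k hkj⟩
    linarith

lemma coord_nrm_comb {G : Fr} (hG : IsFr G) {a : Fin 4 → ℝ} (ha : CellP (gm G) a) :
    ∃ c : ℝ, 0 < c ∧ nrm (comb G a) = c • comb G a ∧ coord G (nrm (comb G a)) = c • a := by
  have h := ha.tl hG
  refine ⟨(Real.sqrt (- form (comb G a) (comb G a)))⁻¹, ?_, rfl, ?_⟩
  · exact inv_pos.mpr (Real.sqrt_pos.mpr (by linarith [h.1]))
  · unfold nrm; rw [coord_smul, coord_comb hG.det_ne]

lemma CellP.cell {G : Fr} (hG : IsFr G) {a : Fin 4 → ℝ} (ha : CellP (gm G) a) :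
    Cell G (nrm (comb G a)) := by
  obtain ⟨c, hc, h1, h2⟩ := coord_nrm_comb hG ha
  refine ⟨isH_nrm (ha.tl hG), fun i => ?_, fun i => ?_, fun i j h => ?_⟩
  · rw [h2]; exact mul_nonneg hc.le (ha.nn i)
  · rw [h1, form_smul_left, form_comb_left]
    have := mul_nonneg hc.le (ha.sn i); linarith
  · rw [h2]
    rcases ha.a2 i j h with h | h
    · exact Or.inl (mul_pos hc h)
    · exact Or.inr (mul_pos hc h)

lemma nc_nrm_comb {G : Fr} (hG : IsFr G) {a : Fin 4 → ℝ} (ha : CellP (gm G) a) :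
    nc G (nrm (comb G a)) = a := by
  obtain ⟨c, hc, h1, h2⟩ := coord_nrm_comb hG ha
  unfold nc
  rw [h2]
  simp only [Pi.smul_apply, smul_eq_mul]
  rw [← Finset.mul_sum, ha.sum, mul_one, smul_smul, inv_mul_cancel₀ hc.ne', one_smul]

/-! ### The transport map between cells -/

/-- The canonical homeomorphism from the cell of `F` to the cell of `G`. -/
noncomputable def TR (F G : Fr) (x : V4) : V4 := nrm (comb G (tr (gm F) (gm G) (nc F x)))

section TR
variable {F G : Fr} {x : V4}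

lemma TR_cell (hF : IsFr F) (hG : IsFr G) (hx : Cell F x) : Cell G (TR F G x) :=
  (tr_cellP (hx.cellP hF) hF.gd hG.gd).cell hG

lemma nc_TR (hF : IsFr F) (hG : IsFr G) (hx : Cell F x) :
    nc G (TR F G x) = tr (gm F) (gm G) (nc F x) :=
  nc_nrm_comb hG (tr_cellP (hx.cellP hF) hF.gd hG.gd)

lemma TR_TR (hF : IsFr F) (hG : IsFr G) (hx : Cell F x) : TR G F (TR F G x) = x := by
  conv_lhs => rw [TR.eq_1 G F]
  rw [nc_TR hF hG hx, tr_tr (hx.cellP hF) hF.gd hG.gd, nrm_comb_nc hF hx]

lemma TR_self (hF : IsFr F) (hx : Cell F x) : TR F F x = x := by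
  rw [TR, tr_self (hx.cellP hF) hF.gd, nrm_comb_nc hF hx]

lemma nc_eq_zero_iff (hx : Cell F x) (i : Fin 4) : nc F x i = 0 ↔ coord F x i = 0 := by
  have := inv_pos.mpr hx.sum_pos
  simp only [nc, Pi.smul_apply, smul_eq_mul, mul_eq_zero, this.ne', false_or]

lemma sv_nc_eq_zero_iff (hF : IsFr F) (hx : Cell F x) (i : Fin 4) :
    sv (gm F) (nc F x) i = 0 ↔ form x (F i) = 0 := by
  have := inv_pos.mpr hx.sum_pos
  rw [nc, sv_smul, Pi.smul_apply, sv_coord hF]
  simp only [smul_eq_mul, mul_eq_zero, this.ne', false_or, neg_eq_zero]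

lemma TR_coord_zero (hF : IsFr F) (hG : IsFr G) (hx : Cell F x) (i : Fin 4) :
    coord G (TR F G x) i = 0 ↔ coord F x i = 0 := by
  obtain ⟨θ, h⟩ := tr_rel (hx.cellP hF) hF.gd hG.gd
  rw [← nc_eq_zero_iff (TR_cell hF hG hx), nc_TR hF hG hx, ← nc_eq_zero_iff hx]
  exact (h.pos_iff (hx.cellP hF) hF.gd hG.gd i).1

lemma TR_form_zero (hF : IsFr F) (hG : IsFr G) (hx : Cell F x) (i : Fin 4) :
    form (TR F G x) (G i) = 0 ↔ form x (F i) = 0 := by
  obtain ⟨θ, h⟩ := tr_rel (hx.cellP hF) hF.gd hG.gd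
  rw [← sv_nc_eq_zero_iff hG (TR_cell hF hG hx), nc_TR hF hG hx, ← sv_nc_eq_zero_iff hF hx]
  exact (h.pos_iff (hx.cellP hF) hF.gd hG.gd i).2

lemma nc_ap (hF : IsFr F) (g : Iso3) (x : V4) :
    nc (ap g F) ((g : V4 ≃ₗ[ℝ] V4) x) = nc F x := by
  unfold nc; rw [coord_ap hF]

lemma Iso3.nrm (g : Iso3) (x : V4) :
    Run7.h606.nrm ((g : V4 ≃ₗ[ℝ] V4) x) = (g : V4 ≃ₗ[ℝ] V4) (Run7.h606.nrm x) := by
  unfold Run7.h606.nrm; rw [Iso3.form_eq, map_smul]

lemma TR_ap (hF : IsFr F) (g h : Iso3) (x : V4) :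
    TR (ap g F) (ap h G) ((g : V4 ≃ₗ[ℝ] V4) x) = (h : V4 ≃ₗ[ℝ] V4) (TR F G x) := by
  unfold TR
  rw [gm_ap, gm_ap, nc_ap hF, comb_ap, Iso3.nrm]

lemma Cell.ap (hF : IsFr F) (hx : Cell F x) (g : Iso3) :
    Cell (ap g F) ((g : V4 ≃ₗ[ℝ] V4) x) := by
  refine ⟨(Iso3.isH_iff g x).mpr hx.isH, fun i => ?_, fun i => ?_, fun i j h => ?_⟩
  · rw [coord_ap hF]; exact hx.nn i
  · rw [ap_apply, Iso3.form_eq]; exact hx.sn i
  · rw [coord_ap hF]; exact hx.a2 i j h

lemma nc_comp (hF : IsFr F) (π : Equiv.Perm (Fin 4)) (x : V4) :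
    nc (F ∘ π) x = nc F x ∘ π := by
  unfold nc
  rw [coord_comp hF.det_ne]
  have : ∑ i, (coord F x ∘ π) i = ∑ i, coord F x i := Equiv.sum_comp π (coord F x)
  rw [this]; rfl

lemma TR_comp (hF : IsFr F) (hG : IsFr G) (hx : Cell F x) (π : Equiv.Perm (Fin 4)) :
    TR (F ∘ π) (G ∘ π) x = TR F G x := by
  unfold TR
  rw [gm_comp, gm_comp, nc_comp hF, tr_comp (hx.cellP hF) hF.gd hG.gd, comb_comp]

lemma Cell.comp (hF : IsFr F) (hx : Cell F x) (π : Equiv.Perm (Fin 4)) : Cell (F ∘ π) x := by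
  refine ⟨hx.isH, fun i => ?_, fun i => hx.sn (π i), fun i j h => ?_⟩
  · rw [coord_comp hF.det_ne]; exact hx.nn (π i)
  · rw [coord_comp hF.det_ne]; exact hx.a2 _ _ (π.injective.ne h)

lemma ap_reflI (u : V4) (hu : form u u = 1) (F : Fr) : ap (reflI u hu) F = refl u ∘ F := rfl

lemma IsFr.unit (hF : IsFr F) (i : Fin 4) : form (F i) (F i) = 1 := by
  have := hF.gd.diag i; simp at this; linarith

/-! ### Neighbouring frames -/

/-- The height function of the face `s`. -/
noncomputable def ht (F : Fr) (s : Gn) (y : V4) : ℝ :=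
  if s.1 = true then - form y (F s.2) else coord F y s.2

lemma ht_true (F : Fr) (i : Fin 4) (y : V4) : ht F (true, i) y = - form y (F i) := by simp [ht]
lemma ht_false (F : Fr) (i : Fin 4) (y : V4) : ht F (false, i) y = coord F y i := by simp [ht]

/-- `F'` is the neighbour of `F` across the face `s`. -/
def Frel (s : Gn) (F F' : Fr) : Prop :=
  if s.1 = true then F' = refl (F s.2) ∘ F else
    (∀ k, k ≠ s.2 → F' k = F k) ∧ coord F (F' s.2) s.2 < 0

lemma frel_true {i : Fin 4} {F F' : Fr} : Frel (true, i) F F' ↔ F' = refl (F i) ∘ F := by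
  simp [Frel]
lemma frel_false {i : Fin 4} {F F' : Fr} : Frel (false, i) F F' ↔
    (∀ k, k ≠ i → F' k = F k) ∧ coord F (F' i) i < 0 := by
  simp [Frel]

/-- Two coordinate systems. -/
lemma coord_change {F F' : Fr} (hF : IsFr F) (hF' : IsFr F') {i : Fin 4}
    (h : ∀ k, k ≠ i → F' k = F k) (y : V4) :
    coord F y i = coord F' y i * coord F (F' i) i := by
  conv_lhs => rw [← comb_coord hF'.det_ne y]
  have : ∀ (s : Finset (Fin 4)) (f : Fin 4 → V4), coord F (∑ k ∈ s, f k) i =
      ∑ k ∈ s, coord F (f k) i := by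
    intro s f
    induction s using Finset.induction_on with
    | empty => simp [coord]
    | insert a s ha ih => rw [Finset.sum_insert ha, Finset.sum_insert ha, coord_add,
        Pi.add_apply, ih]
  rw [comb, this, Finset.sum_eq_single i]
  · rw [coord_smul]; rfl
  · intro k _ hk
    rw [coord_smul, h k hk, coord_self hF.det_ne]; simp [Pi.single_apply, hk.symm]
  · simp

lemma coord_of_zero {F F' : Fr} (hF : IsFr F) (hF' : IsFr F') {i : Fin 4}
    (h : ∀ k, k ≠ i → F' k = F k) {y : V4} (h0 : coord F y i = 0) :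
    coord F' y = coord F y := by
  have : comb F' (coord F y) = y := by
    conv_rhs => rw [← comb_coord hF.det_ne y]
    refine Finset.sum_congr rfl fun k _ => ?_
    by_cases hk : k = i
    · rw [hk, h0, zero_smul, zero_smul]
    · rw [h k hk]
  conv_lhs => rw [← this]
  rw [coord_comb hF'.det_ne]

lemma Frel.symm {s : Gn} {F F' : Fr} (hF : IsFr F) (hF' : IsFr F') (h : Frel s F F') :
    Frel s F' F := by
  obtain ⟨b, i⟩ := s
  cases b
  · rw [frel_false] at h ⊢
    refine ⟨fun k hk => (h.1 k hk).symm, ?_⟩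
    have h1 := coord_change hF hF' h.1 (F i)
    rw [coord_self hF.det_ne, Pi.single_eq_same] at h1
    have h2 := h.2
    by_contra hc
    push Not at hc
    nlinarith
  · rw [frel_true] at h ⊢
    funext k
    rw [h]
    show F k = refl (refl (F i) (F i)) (refl (F i) (F k))
    rw [refl_self (hF.unit i), refl_neg, refl_refl (hF.unit i)]

lemma frel_sign {s : Gn} {F F' : Fr} (hF : IsFr F) (hF' : IsFr F') (h : Frel s F F') (y : V4)
    (hy : ht F s y ≤ 0) : 0 ≤ ht F' s y := by
  obtain ⟨b, i⟩ := s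
  cases b
  · rw [frel_false] at h
    rw [ht_false] at hy ⊢
    have h1 := coord_change hF hF' h.1 y
    have h2 := h.2
    by_contra hc
    push Not at hc
    nlinarith
  · rw [frel_true] at h
    rw [ht_true] at hy ⊢
    rw [h]
    show 0 ≤ - form y (refl (F i) (F i))
    rw [refl_self (hF.unit i), form_neg_right]
    linarith

lemma frel_comm_ht {s s' : Gn} {F F' : Fr} (hF : IsFr F) (hF' : IsFr F') (h : Frel s F F')
    (h1 : s.1 ≠ s'.1) (h2 : s.2 ≠ s'.2) (y : V4) : ht F' s' y = ht F s' y := by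
  obtain ⟨b, i⟩ := s
  obtain ⟨b', j⟩ := s'
  cases b <;> cases b'
  · exact absurd rfl h1
  · rw [frel_false] at h
    rw [ht_true, ht_true, h.1 j (Ne.symm h2)]
  · rw [frel_true] at h
    rw [ht_false, ht_false, h]
    have h3 := coord_ap hF (reflI (F i) (hF.unit i)) (refl (F i) y)
    rw [ap_reflI, reflI_apply, refl_refl (hF.unit i)] at h3
    rw [h3]
    unfold refl
    rw [coord_sub, coord_smul, coord_self hF.det_ne]
    simp [Pi.single_apply, Ne.symm h2]
  · exact absurd rfl h1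

/-- Points on the common face. -/
lemma frel_cell {s : Gn} {F F' : Fr} (hF : IsFr F) (hF' : IsFr F') (h : Frel s F F') {y : V4}
    (hy : Cell F y) (h0 : ht F s y = 0) :
    Cell F' y ∧ coord F' y = coord F y ∧ ∀ u, 0 < ht F u y → 0 < ht F' u y := by
  obtain ⟨b, i⟩ := s
  cases b
  · rw [frel_false] at h
    rw [ht_false] at h0
    have hc := coord_of_zero hF hF' h.1 h0
    have hi : form y (F' i) < 0 := by
      have h1 := sv_ge hF'.gd (a := coord F' y) (by rw [hc]; exact hy.nn) i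
      rw [sv_coord hF', hc, h0] at h1
      linarith [hy.sum_pos]
    refine ⟨⟨hy.isH, by rw [hc]; exact hy.nn, fun k => ?_, by rw [hc]; exact hy.a2⟩, hc, ?_⟩
    · by_cases hk : k = i
      · rw [hk]; exact hi.le
      · rw [h.1 k hk]; exact hy.sn k
    · rintro ⟨b', k⟩ hu
      cases b'
      · rw [ht_false] at hu ⊢; rw [hc]; exact hu
      · rw [ht_true] at hu ⊢
        by_cases hk : k = i
        · rw [hk]; linarith
        · rw [h.1 k hk]; exact hu
  · rw [frel_true] at h
    rw [ht_true] at h0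
    have h0' : form y (F i) = 0 := by linarith
    have hfix : refl (F i) y = y := refl_of_orth h0'
    have hc : coord F' y = coord F y := by
      have h3 := coord_ap hF (reflI (F i) (hF.unit i)) y
      rw [ap_reflI, reflI_apply, hfix] at h3
      rw [h, h3]
    have hf : ∀ k, form y (F' k) = form y (F k) := by
      intro k
      rw [h]
      show form y (refl (F i) (F k)) = _
      conv_lhs => rw [← hfix]
      rw [form_refl (hF.unit i)]
    refine ⟨⟨hy.isH, by rw [hc]; exact hy.nn, fun k => by rw [hf]; exact hy.sn k,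
      by rw [hc]; exact hy.a2⟩, hc, ?_⟩
    rintro ⟨b', k⟩ hu
    cases b'
    · rw [ht_false] at hu ⊢; rw [hc]; exact hu
    · rw [ht_true] at hu ⊢; rw [hf]; exact hu

lemma frel_TR {s : Gn} {F F' G G' : Fr} (hF : IsFr F) (hF' : IsFr F') (hG : IsFr G)
    (hG' : IsFr G') (h : Frel s F F') (hg : Frel s G G') {y : V4}
    (hy : Cell F y) (h0 : ht F s y = 0) : TR F' G' y = TR F G y := by
  obtain ⟨b, i⟩ := s
  have hfc := frel_cell hF hF' h hy h0
  have hc := hfc.2.1
  cases b
  · rw [frel_false] at h hg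
    rw [ht_false] at h0
    have hnc : nc F' y = nc F y := by unfold nc; rw [hc]
    have ha := hy.cellP hF
    have ha' := hfc.1.cellP hF'
    rw [hnc] at ha'
    obtain ⟨θ, hr⟩ := tr_rel ha hF.gd hG.gd
    have hz : nc F y i = 0 := (nc_eq_zero_iff hy i).mpr h0
    have hz' : tr (gm F) (gm G) (nc F y) i = 0 :=
      (hr.pos_iff ha hF.gd hG.gd i).1.mpr hz
    have hag : ∀ (F F' : Fr), (∀ k, k ≠ i → F' k = F k) → ∀ a : Fin 4 → ℝ, a i = 0 → ∀ k,
        k ≠ i → sv (gm F') a k = sv (gm F) a k := by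
      intro F F' h a ha k hk
      rw [sv_apply, sv_apply]
      refine Finset.sum_congr rfl fun l _ => ?_
      by_cases hl : l = i
      · rw [hl, ha, mul_zero, mul_zero]
      · rw [gm_apply, gm_apply, h k hk, h l hl]
    have htr : tr (gm F') (gm G') (nc F y) = tr (gm F) (gm G) (nc F y) := by
      refine tr_unique (θ := θ) ha' hF'.gd hG'.gd ⟨hr.nn, fun k => ?_, hr.sum, hr.t0, hr.t1,
        fun k => ?_⟩
      · by_cases hk : k = i
        · have h1 := sv_ge hG'.gd hr.nn k
          rw [hk, hz', hr.sum] at h1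
          rw [hk]; linarith
        · rw [hag G G' hg.1 _ hz' k hk]; exact hr.sn k
      · by_cases hk : k = i
        · rw [hk, hz, hz']; ring
        · rw [hag G G' hg.1 _ hz' k hk, hag F F' h.1 _ hz k hk]; exact hr.rel k
    unfold TR
    rw [hnc, htr]
    congr 1
    refine Finset.sum_congr rfl fun k _ => ?_
    by_cases hk : k = i
    · rw [hk, hz', zero_smul, zero_smul]
    · rw [hg.1 k hk]
  · rw [frel_true] at h hg
    rw [ht_true] at h0
    have h0' : form y (F i) = 0 := by linarith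
    have hfix : refl (F i) y = y := refl_of_orth h0'
    have h1 := TR_ap hF (G := G) (reflI (F i) (hF.unit i)) (reflI (G i) (hG.unit i)) y
    rw [ap_reflI, ap_reflI, reflI_apply, reflI_apply, hfix, ← h, ← hg] at h1
    rw [h1]
    exact refl_of_orth ((TR_form_zero hF hG hy i).mpr h0')

end TR

/-! ### Continuity -/

lemma continuous_fmat : Continuous fmat := by
  refine continuous_matrix fun i j => ?_
  exact (continuous_apply i).comp (continuous_apply j)

lemma continuous_gm : Continuous gm := by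
  refine continuous_matrix fun i j => ?_
  exact (continuous_form (continuous_apply i) (continuous_apply j)).neg

lemma continuousOn_coord : ContinuousOn (fun p : Fr × V4 => coord p.1 p.2)
    {p | (fmat p.1).det ≠ 0} := by
  have h : (fun p : Fr × V4 => coord p.1 p.2) = fun p =>
      ((fmat p.1).det)⁻¹ • ((fmat p.1).adjugate.mulVec p.2) := by
    funext p
    rw [coord, Matrix.inv_def, Ring.inverse_eq_inv', Matrix.smul_mulVec]
  rw [h]
  have hf : Continuous fun p : Fr × V4 => fmat p.1 := continuous_fmat.comp continuous_fst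
  refine ContinuousOn.smul (ContinuousOn.inv₀ (hf.matrix_det.continuousOn) fun p hp => hp) ?_
  exact (hf.matrix_adjugate.matrix_mulVec continuous_snd).continuousOn

lemma continuous_coord_right (F : Fr) : Continuous fun y => coord F y := by
  unfold coord
  exact Continuous.matrix_mulVec continuous_const continuous_id

lemma continuous_comb : Continuous fun p : Fr × (Fin 4 → ℝ) => comb p.1 p.2 := by
  unfold comb
  refine continuous_finsetSum _ fun i _ => ?_
  exact ((continuous_apply i).comp continuous_snd).smul ((continuous_apply i).comp continuous_fst)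

lemma continuousOn_TR : ContinuousOn (fun p : Fr × Fr × V4 => TR p.1 p.2.1 p.2.2)
    {p | IsFr p.1 ∧ IsFr p.2.1 ∧ Cell p.1 p.2.2} := by
  unfold TR
  refine continuous_nrm ?_ ?_
  · have h1 : ContinuousOn (fun p : Fr × Fr × V4 => coord p.1 p.2.2)
        {p | IsFr p.1 ∧ IsFr p.2.1 ∧ Cell p.1 p.2.2} :=
      continuousOn_coord.comp (f := fun p : Fr × Fr × V4 => ((p.1, p.2.2) : Fr × V4))
        (by fun_prop) fun p hp => hp.1.det_ne
    have hsum : ContinuousOn (fun p : Fr × Fr × V4 => ∑ i, coord p.1 p.2.2 i)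
        {p | IsFr p.1 ∧ IsFr p.2.1 ∧ Cell p.1 p.2.2} :=
      continuousOn_finsetSum _ fun i _ => (continuous_apply i).comp_continuousOn h1
    have h2 : ContinuousOn (fun p : Fr × Fr × V4 => nc p.1 p.2.2)
        {p | IsFr p.1 ∧ IsFr p.2.1 ∧ Cell p.1 p.2.2} := by
      unfold nc
      exact (hsum.inv₀ fun p hp => hp.2.2.sum_pos.ne').smul h1
    have h3 : ContinuousOn (fun p : Fr × Fr × V4 => tr (gm p.1) (gm p.2.1) (nc p.1 p.2.2))
        {p | IsFr p.1 ∧ IsFr p.2.1 ∧ Cell p.1 p.2.2} := by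
      refine continuousOn_tr.comp (f := fun p : Fr × Fr × V4 =>
        ((gm p.1, gm p.2.1, nc p.1 p.2.2) : Matrix (Fin 4) (Fin 4) ℝ ×
          Matrix (Fin 4) (Fin 4) ℝ × (Fin 4 → ℝ))) ?_ ?_
      · exact (continuous_gm.comp continuous_fst).continuousOn.prodMk
          ((continuous_gm.comp (continuous_fst.comp continuous_snd)).continuousOn.prodMk h2)
      · intro p hp
        exact ⟨hp.1.gd, hp.2.1.gd, hp.2.2.cellP hp.1⟩
    exact continuous_comb.comp_continuousOn
      ((continuous_fst.comp continuous_snd).continuousOn.prodMk h3)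
  · intro p hp
    exact (tr_cellP (hp.2.2.cellP hp.1) hp.1.gd hp.2.1.gd).tl hp.2.1

end Run7.h606
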