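import Pool.Agent.Run7.h606.Gram

namespace Run7.h606

open Filter Topology

/-- Normalised coordinates of a point of a truncated tetrahedron off its edges. -/
structure CellP (b : Matrix (Fin 4) (Fin 4) ℝ) (a : Fin 4 → ℝ) : Prop where
  nn : ∀ i, 0 ≤ a i
  sn : ∀ i, 0 ≤ sv b a i
  sum : ∑ i, a i = 1
  a2 : ∀ i j, i ≠ j → 0 < a i ∨ 0 < a j
  s2 : ∀ i j, i ≠ j → 0 < sv b a i ∨ 0 < sv b a j

lemma sv_ge {b : Matrix (Fin 4) (Fin 4) ℝ} (hb : GD b) {a : Fin 4 → ℝ} (ha : ∀ i, 0 ≤ a i)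
    (i : Fin 4) : ∑ j, a j - 2 * a i ≤ sv b a i := by
  rw [sv_apply, ← Finset.add_sum_erase _ _ (Finset.mem_univ i),
    ← Finset.add_sum_erase (f := fun j => b i j * a j) _ (Finset.mem_univ i), hb.diag]
  have : ∑ x ∈ Finset.univ.erase i, a x ≤ ∑ x ∈ Finset.univ.erase i, b i x * a x := by
    refine Finset.sum_le_sum fun j hj => ?_
    have := hb.one_le i j (Finset.ne_of_mem_erase hj).symm
    nlinarith [ha j]
  linarith

lemma sv_symm {b : Matrix (Fin 4) (Fin 4) ℝ} (hb : ∀ i j, b i j = b j i) (a c : Fin 4 → ℝ) :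
    ∑ i, c i * sv b a i = ∑ i, a i * sv b c i := by
  simp only [sv_apply, Finset.mul_sum]
  rw [Finset.sum_comm]
  refine Finset.sum_congr rfl fun i _ => Finset.sum_congr rfl fun j _ => ?_
  rw [hb j i]; ring

lemma sv_sub (b : Matrix (Fin 4) (Fin 4) ℝ) (a c : Fin 4 → ℝ) :
    sv b (a - c) = sv b a - sv b c := by simp [sv, Matrix.mulVec_sub]
lemma sv_smul (b : Matrix (Fin 4) (Fin 4) ℝ) (k : ℝ) (a : Fin 4 → ℝ) :
    sv b (k • a) = k • sv b a := by simp [sv, Matrix.mulVec_smul]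

/-- The transport relation between the cells of two Gram data. -/
structure Rel (s a : Fin 4 → ℝ) (b' : Matrix (Fin 4) (Fin 4) ℝ) (a' : Fin 4 → ℝ) (θ : ℝ) :
    Prop where
  nn : ∀ i, 0 ≤ a' i
  sn : ∀ i, 0 ≤ sv b' a' i
  sum : ∑ i, a' i = 1
  t0 : 0 ≤ θ
  t1 : θ ≤ 1
  rel : ∀ i, (1 - θ) * (a' i * s i) = θ * (a i * sv b' a' i)

variable {b b' : Matrix (Fin 4) (Fin 4) ℝ} {a a' a'' : Fin 4 → ℝ} {θ θ' : ℝ}

lemma Rel.theta_pos (ha : CellP b a) (hb' : GD b') (h : Rel (sv b a) a b' a' θ) : 0 < θ := by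
  rcases h.t0.lt_or_eq with h0 | h0
  · exact h0
  exfalso
  have h1 : ∀ i, a' i * sv b a i = 0 := by
    intro i; have := h.rel i; rw [← h0] at this; linarith
  obtain ⟨j, hj⟩ : ∃ j, a' j ≠ 0 := by
    by_contra hc; push Not at hc
    have := h.sum; simp [hc] at this
  have hsj : sv b a j = 0 := (mul_eq_zero.mp (h1 j)).resolve_left hj
  have hz : ∀ i, i ≠ j → a' i = 0 := by
    intro i hi
    have : 0 < sv b a i := by
      rcases ha.s2 i j hi with h | h
      · exact h
      · rw [hsj] at h; exact absurd h (lt_irrefl _)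
    exact (mul_eq_zero.mp (h1 i)).resolve_right this.ne'
  have h2 := h.sn j
  rw [sv_apply, Finset.sum_eq_single j (fun i _ hi => by rw [hz i hi, mul_zero]) (by simp),
    hb'.diag] at h2
  have h3 := h.nn j
  apply hj; linarith

lemma exists_special {a : Fin 4 → ℝ} (h0 : ∀ i, 0 ≤ a i) (h : ∀ i j, i ≠ j → 0 < a i ∨ 0 < a j) :
    ∃ j, ∀ i, i ≠ j → 0 < a i := by
  by_cases hc : ∃ j, a j = 0
  · obtain ⟨j, hj⟩ := hc
    refine ⟨j, fun i hi => ?_⟩
    rcases h i j hi with h | h
    · exact h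
    · rw [hj] at h; exact absurd h (lt_irrefl _)
  · push Not at hc
    exact ⟨0, fun i _ => lt_of_le_of_ne (h0 i) (hc i).symm⟩

lemma exists_other_two (j : Fin 4) : ∃ k l m : Fin 4, k ≠ j ∧ l ≠ j ∧ m ≠ j ∧ k ≠ l ∧ k ≠ m ∧
    l ≠ m ∧ (Finset.univ : Finset (Fin 4)) = {j, k, l, m} := by
  fin_cases j
  · exact ⟨1, 2, 3, by decide, by decide, by decide, by decide, by decide, by decide, by decide⟩
  · exact ⟨0, 2, 3, by decide, by decide, by decide, by decide, by decide, by decide, by decide⟩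
  · exact ⟨0, 1, 3, by decide, by decide, by decide, by decide, by decide, by decide, by decide⟩
  · exact ⟨0, 1, 2, by decide, by decide, by decide, by decide, by decide, by decide, by decide⟩

lemma Rel.theta_lt (ha : CellP b a) (hb' : GD b') (h : Rel (sv b a) a b' a' θ) : θ < 1 := by
  rcases h.t1.lt_or_eq with h0 | h0
  · exact h0
  exfalso
  obtain ⟨j, hj⟩ := exists_special ha.nn ha.a2
  have h1 : ∀ i, i ≠ j → 1 / 2 ≤ a' i := by
    intro i hi
    have := h.rel i
    rw [h0] at this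
    have h2 : a i * sv b' a' i = 0 := by linarith
    have h3 := (mul_eq_zero.mp h2).resolve_left (hj i hi).ne'
    have h4 := sv_ge hb' h.nn i
    rw [h.sum, h3] at h4; linarith
  obtain ⟨k, l, m, hk, hl, hm, hkl, hkm, hlm, hU⟩ := exists_other_two j
  have hs := h.sum
  rw [hU, Finset.sum_insert (by simp [hk.symm, hl.symm, hm.symm]),
    Finset.sum_insert (by simp [hkl, hkm]), Finset.sum_insert (by simp [hlm]),
    Finset.sum_singleton] at hs
  have := h1 k hk; have := h1 l hl; have := h1 m hm; have := h.nn j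
  linarith

lemma Rel.pos_iff (ha : CellP b a) (hb : GD b) (hb' : GD b') (h : Rel (sv b a) a b' a' θ)
    (i : Fin 4) : (a' i = 0 ↔ a i = 0) ∧ (sv b' a' i = 0 ↔ sv b a i = 0) := by
  have t0 := h.theta_pos ha hb'
  have t1 := h.theta_lt ha hb'
  have hr := h.rel i
  have g1 := sv_ge hb ha.nn i
  rw [ha.sum] at g1
  have g2 := sv_ge hb' h.nn i
  rw [h.sum] at g2
  refine ⟨⟨fun h0 => ?_, fun h0 => ?_⟩, ⟨fun h0 => ?_, fun h0 => ?_⟩⟩
  · rw [h0] at hr g2
    have : θ * (a i * sv b' a' i) = 0 := by rw [← hr]; ring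
    rcases mul_eq_zero.mp this with h | h
    · linarith
    · rcases mul_eq_zero.mp h with h | h
      · exact h
      · linarith
  · rw [h0] at hr g1
    have : (1 - θ) * (a' i * sv b a i) = 0 := by rw [hr]; ring
    rcases mul_eq_zero.mp this with h | h
    · linarith
    · rcases mul_eq_zero.mp h with h | h
      · exact h
      · linarith
  · rw [h0] at hr
    have h3 : (1 - θ) * (a' i * sv b a i) = 0 := by rw [hr]; ring
    rcases mul_eq_zero.mp h3 with h | h
    · linarith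
    · rcases mul_eq_zero.mp h with h | h
      · rw [h, h0] at g2; linarith
      · exact h
  · rw [h0] at hr
    have h3 : θ * (a i * sv b' a' i) = 0 := by rw [← hr]; ring
    rcases mul_eq_zero.mp h3 with h | h
    · linarith
    · rcases mul_eq_zero.mp h with h | h
      · rw [h, h0] at g1; linarith
      · exact h

lemma Rel.cellP (ha : CellP b a) (hb : GD b) (hb' : GD b') (h : Rel (sv b a) a b' a' θ) :
    CellP b' a' := by
  refine ⟨h.nn, h.sn, h.sum, fun i j hij => ?_, fun i j hij => ?_⟩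
  · rcases ha.a2 i j hij with h1 | h1
    · left; exact lt_of_le_of_ne (h.nn i) fun h2 => h1.ne' ((h.pos_iff ha hb hb' i).1.mp h2.symm)
    · right; exact lt_of_le_of_ne (h.nn j) fun h2 => h1.ne' ((h.pos_iff ha hb hb' j).1.mp h2.symm)
  · rcases ha.s2 i j hij with h1 | h1
    · left; exact lt_of_le_of_ne (h.sn i) fun h2 => h1.ne' ((h.pos_iff ha hb hb' i).2.mp h2.symm)
    · right; exact lt_of_le_of_ne (h.sn j) fun h2 => h1.ne' ((h.pos_iff ha hb hb' j).2.mp h2.symm)

lemma Rel.theta_unique (ha : CellP b a) (hb : GD b) (hb' : GD b')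
    (h1 : Rel (sv b a) a b' a' θ) (h2 : Rel (sv b a) a b' a'' θ') : θ = θ' := by
  have t0 := h1.theta_pos ha hb'
  have t1 := h1.theta_lt ha hb'
  have u0 := h2.theta_pos ha hb'
  have u1 := h2.theta_lt ha hb'
  have hs := sv_symm hb'.symm a' a''
  -- each term
  have key : ∀ i, θ * θ' * (a'' i * sv b' a' i - a' i * sv b' a'' i) =
      (if a i = 0 then 0 else (θ' * (1 - θ) - θ * (1 - θ')) * (a' i * a'' i * sv b a i / a i)) := by
    intro i
    split_ifs with h0
    · rw [((h1.pos_iff ha hb hb' i).1).mpr h0, ((h2.pos_iff ha hb hb' i).1).mpr h0]; ring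
    · have r1 := h1.rel i
      have r2 := h2.rel i
      have e1 : θ * sv b' a' i = (1 - θ) * (a' i * sv b a i) / a i := by
        rw [r1]; field_simp
      have e2 : θ' * sv b' a'' i = (1 - θ') * (a'' i * sv b a i) / a i := by
        rw [r2]; field_simp
      have : θ * θ' * (a'' i * sv b' a' i - a' i * sv b' a'' i) =
        θ' * a'' i * (θ * sv b' a' i) - θ * a' i * (θ' * sv b' a'' i) := by ring
      rw [this, e1, e2]; field_simp
  have hsum : ∑ i, θ * θ' * (a'' i * sv b' a' i - a' i * sv b' a'' i) = 0 := by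
    rw [← Finset.mul_sum, Finset.sum_sub_distrib, hs, sub_self, mul_zero]
  rw [Finset.sum_congr rfl fun i _ => key i] at hsum
  have hsum2 : (θ' * (1 - θ) - θ * (1 - θ')) *
      ∑ i, (if a i = 0 then 0 else (a' i * a'' i * sv b a i / a i)) = 0 := by
    rw [Finset.mul_sum]
    refine Eq.trans (Finset.sum_congr rfl fun i _ => ?_) hsum
    rw [mul_ite, mul_zero]
  have hpos : 0 < ∑ i, (if a i = 0 then 0 else (a' i * a'' i * sv b a i / a i)) := by
    obtain ⟨j, hj⟩ := exists_special ha.nn ha.a2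
    obtain ⟨j', hj'⟩ := exists_special ha.sn ha.s2
    obtain ⟨k, hk1, hk2⟩ : ∃ k : Fin 4, k ≠ j ∧ k ≠ j' :=
      (by decide : ∀ j j' : Fin 4, ∃ k, k ≠ j ∧ k ≠ j') j j'
    refine Finset.sum_pos' (fun i _ => ?_) ⟨k, Finset.mem_univ k, ?_⟩
    · split_ifs
      · exact le_refl _
      · exact div_nonneg (mul_nonneg (mul_nonneg (h1.nn i) (h2.nn i)) (ha.sn i)) (ha.nn i)
    · have ak := hj k hk1
      have sk := hj' k hk2
      rw [if_neg ak.ne']
      have p1 : 0 < a' k := lt_of_le_of_ne (h1.nn k) fun h => ak.ne'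
        ((h1.pos_iff ha hb hb' k).1.mp h.symm)
      have p2 : 0 < a'' k := lt_of_le_of_ne (h2.nn k) fun h => ak.ne'
        ((h2.pos_iff ha hb hb' k).1.mp h.symm)
      positivity
  rcases mul_eq_zero.mp hsum2 with h | h
  · linarith
  · exact absurd h hpos.ne'

lemma Rel.unique (ha : CellP b a) (hb : GD b) (hb' : GD b')
    (h1 : Rel (sv b a) a b' a' θ) (h2 : Rel (sv b a) a b' a'' θ') : a' = a'' := by
  have hθ := h1.theta_unique ha hb hb' h2
  subst hθ
  have t0 := h1.theta_pos ha hb'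
  -- positivity on the support
  have p1 : ∀ i, a i ≠ 0 → 0 < a' i := fun i hi =>
    lt_of_le_of_ne (h1.nn i) fun h => hi ((h1.pos_iff ha hb hb' i).1.mp h.symm)
  -- minimal ratio
  obtain ⟨j, hj⟩ := exists_special ha.nn ha.a2
  obtain ⟨k0, hk0⟩ : ∃ k : Fin 4, k ≠ j := (by decide : ∀ j : Fin 4, ∃ k, k ≠ j) j
  have hne : (Finset.univ.filter fun i : Fin 4 => a i ≠ 0).Nonempty :=
    ⟨k0, by simp; exact (hj k0 hk0).ne'⟩
  obtain ⟨i0, hi0, hmin⟩ := Finset.exists_min_image _ (fun i => a'' i / a' i) hne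
  simp only [Finset.mem_filter, Finset.mem_univ, true_and] at hi0 hmin
  set κ := a'' i0 / a' i0 with hκ
  set z := a'' - κ • a' with hz
  have hz0 : z i0 = 0 := by
    simp only [hz, Pi.sub_apply, Pi.smul_apply, smul_eq_mul, hκ]
    field_simp [(p1 i0 hi0).ne']; ring
  have hzn : ∀ i, 0 ≤ z i := by
    intro i
    by_cases hi : a i = 0
    · have e1 := ((h1.pos_iff ha hb hb' i).1).mpr hi
      have e2 := ((h2.pos_iff ha hb hb' i).1).mpr hi
      simp [hz, e1, e2]
    · have := hmin i hi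
      rw [le_div_iff₀ (p1 i hi)] at this
      simp only [hz, Pi.sub_apply, Pi.smul_apply, smul_eq_mul]; linarith
  have hrel : θ * (a i0 * sv b' z i0) = 0 := by
    have r1 := h1.rel i0
    have r2 := h2.rel i0
    have : θ * (a i0 * sv b' z i0) = θ * (a i0 * sv b' a'' i0) - κ * (θ * (a i0 * sv b' a' i0)) := by
      rw [hz, sv_sub, sv_smul]; simp only [Pi.sub_apply, Pi.smul_apply, smul_eq_mul]; ring
    rw [this, ← r1, ← r2]
    have : a'' i0 = κ * a' i0 := by
      have := hz0; simp only [hz, Pi.sub_apply, Pi.smul_apply, smul_eq_mul] at this; linarith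
    rw [this]; ring
  have hsz : sv b' z i0 = 0 := by
    rcases mul_eq_zero.mp hrel with h | h
    · linarith
    · exact (mul_eq_zero.mp h).resolve_left hi0
  have hge := sv_ge hb' hzn i0
  rw [hsz, hz0] at hge
  have hsum0 : ∑ j, z j = 0 :=
    le_antisymm (by linarith) (Finset.sum_nonneg fun i _ => hzn i)
  have hzz : ∀ i, z i = 0 := fun i =>
    (Finset.sum_eq_zero_iff_of_nonneg fun i _ => hzn i).mp hsum0 i (Finset.mem_univ i)
  have hκ1 : κ = 1 := by
    have : ∑ i, z i = ∑ i, a'' i - κ * ∑ i, a' i := by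
      simp only [hz, Pi.sub_apply, Pi.smul_apply, smul_eq_mul, Finset.sum_sub_distrib,
        Finset.mul_sum]
    rw [hsum0, h1.sum, h2.sum] at this; linarith
  funext i
  have := hzz i
  simp only [hz, Pi.sub_apply, Pi.smul_apply, smul_eq_mul, hκ1] at this
  linarith

end Run7.h606
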