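import Pool.Agent.Run7.h606.Trans

namespace Run7.h606

open Filter Topology Matrix

/-! ### Existence -/

noncomputable def rh (a s : Fin 4 → ℝ) (y : ℝ) (i : Fin 4) : ℝ :=
  Real.exp y * a i / (Real.exp y * a i + s i)

noncomputable def Mt (b' : Matrix (Fin 4) (Fin 4) ℝ) (a s : Fin 4 → ℝ) (y : ℝ) :
    Matrix (Fin 4) (Fin 4) ℝ :=
  Matrix.of fun i j => (if i = j then 0 else b' i j) * (Real.sqrt (rh a s y i) *
    Real.sqrt (rh a s y j))

def Sph : Set (Fin 4 → ℝ) := {c | ∑ i, c i ^ 2 = 1}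

lemma isCompact_Sph : IsCompact Sph := by
  refine Metric.isCompact_of_isClosed_isBounded ?_ ?_
  · exact isClosed_eq (by fun_prop) continuous_const
  · refine (Metric.isBounded_closedBall (x := (0 : Fin 4 → ℝ)) (r := 1)).subset fun c hc => ?_
    rw [mem_closedBall_zero_iff, pi_norm_le_iff_of_nonneg zero_le_one]
    intro i
    rw [Real.norm_eq_abs]
    have h1 : c i ^ 2 ≤ ∑ j, c j ^ 2 :=
      Finset.single_le_sum (f := fun j => c j ^ 2) (fun j _ => sq_nonneg _) (Finset.mem_univ i)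
    rw [show ∑ j, c j ^ 2 = 1 from hc] at h1
    exact abs_le_one_iff_mul_self_le_one.mpr (by nlinarith)

lemma Sph_nonempty : Sph.Nonempty := ⟨Pi.single 0 1, by
  simp [Sph, Fin.sum_univ_four]⟩

variable {b b' : Matrix (Fin 4) (Fin 4) ℝ} {a s : Fin 4 → ℝ}

/-- The conditions on a pair `(a, s)` used below. -/
structure PairOK (a s : Fin 4 → ℝ) : Prop where
  nn : ∀ i, 0 ≤ a i
  sn : ∀ i, 0 ≤ s i
  pos : ∀ i, 0 < a i + s i
  le1 : ∀ i, a i ≤ 1
  a2 : ∀ i j, i ≠ j → 0 < a i ∨ 0 < a j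
  s2 : ∀ i j, i ≠ j → 0 < s i ∨ 0 < s j

lemma CellP.pairOK (ha : CellP b a) (hb : GD b) : PairOK a (sv b a) := by
  refine ⟨ha.nn, ha.sn, fun i => ?_, fun i => ?_, ha.a2, ha.s2⟩
  · have g1 := sv_ge hb ha.nn i
    rw [ha.sum] at g1
    have := ha.nn i
    rcases this.lt_or_eq with h | h
    · linarith [ha.sn i]
    · rw [← h] at g1 ⊢; linarith
  · rw [← ha.sum]
    exact Finset.single_le_sum (fun j _ => ha.nn j) (Finset.mem_univ i)

lemma rh_den (h : PairOK a s) (y : ℝ) (i : Fin 4) : 0 < Real.exp y * a i + s i := by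
  have h1 := Real.exp_pos y
  rcases (h.nn i).lt_or_eq with h2 | h2
  · have := mul_pos h1 h2; linarith [h.sn i]
  · have := h.pos i; rw [← h2] at this ⊢; linarith

lemma rh_nonneg (h : PairOK a s) (y : ℝ) (i : Fin 4) : 0 ≤ rh a s y i :=
  div_nonneg (mul_nonneg (Real.exp_pos y).le (h.nn i)) (rh_den h y i).le

lemma rh_le_one (h : PairOK a s) (y : ℝ) (i : Fin 4) : rh a s y i ≤ 1 := by
  unfold rh; rw [div_le_one (rh_den h y i)]; linarith [h.sn i]

lemma continuous_rh (h : PairOK a s) (i : Fin 4) : Continuous fun y => rh a s y i := by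
  unfold rh
  exact Continuous.div (by fun_prop) (by fun_prop) fun y => (rh_den h y i).ne'

lemma continuous_Mt (h : PairOK a s) : Continuous fun y => Mt b' a s y := by
  refine continuous_matrix fun i j => ?_
  simp only [Mt, Matrix.of_apply]
  exact continuous_const.mul ((continuous_rh h i).sqrt.mul (continuous_rh h j).sqrt)

lemma continuous_quad (h : PairOK a s) :
    Continuous ↿(fun (y : ℝ) (c : Fin 4 → ℝ) => c ⬝ᵥ (Mt b' a s y *ᵥ c)) := by
  have h1 : Continuous fun p : ℝ × (Fin 4 → ℝ) => Mt b' a s p.1 :=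
    (continuous_Mt h).comp continuous_fst
  exact Continuous.dotProduct continuous_snd (h1.matrix_mulVec continuous_snd)

lemma quad_eq (y : ℝ) (c : Fin 4 → ℝ) : c ⬝ᵥ (Mt b' a s y *ᵥ c) =
    ∑ i, ∑ j, Mt b' a s y i j * (c i * c j) := by
  simp only [dotProduct, Matrix.mulVec, Finset.mul_sum]
  exact Finset.sum_congr rfl fun i _ => Finset.sum_congr rfl fun j _ => by ring

lemma Mt_nonneg (hb' : GD b') (y : ℝ) (i j : Fin 4) : 0 ≤ Mt b' a s y i j := by
  simp only [Mt, Matrix.of_apply]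
  split_ifs with h
  · simp
  · have := hb'.one_le i j h
    positivity

lemma low (h : PairOK a s) (hb' : GD b') :
    ∃ y : ℝ, ∀ c ∈ Sph, c ⬝ᵥ (Mt b' a s y *ᵥ c) ≤ 1 := by
  obtain ⟨j0, hj0⟩ := exists_special h.sn h.s2
  -- a bound for `b'`
  obtain ⟨B, hB1, hB⟩ : ∃ B : ℝ, 1 ≤ B ∧ ∀ i j, b' i j ≤ B := by
    refine ⟨1 + ∑ i, ∑ j, |b' i j|, ?_, fun i j => ?_⟩
    · have : 0 ≤ ∑ i, ∑ j, |b' i j| :=
        Finset.sum_nonneg fun i _ => Finset.sum_nonneg fun j _ => abs_nonneg _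
      linarith
    · have h1 : |b' i j| ≤ ∑ j, |b' i j| :=
        Finset.single_le_sum (f := fun j => |b' i j|) (fun j _ => abs_nonneg _)
          (Finset.mem_univ j)
      have h2 : ∑ j, |b' i j| ≤ ∑ i, ∑ j, |b' i j| :=
        Finset.single_le_sum (f := fun i => ∑ j, |b' i j|)
          (fun i _ => Finset.sum_nonneg fun j _ => abs_nonneg _) (Finset.mem_univ i)
      linarith [le_abs_self (b' i j)]
  -- a lower bound for `s`
  obtain ⟨k, l, m, hk, hl, hm, -, -, -, hU⟩ := exists_other_two j0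
  obtain ⟨σ, hσ0, hσ⟩ : ∃ σ : ℝ, 0 < σ ∧ ∀ i, i ≠ j0 → σ ≤ s i := by
    refine ⟨min (s k) (min (s l) (s m)), lt_min (hj0 k hk) (lt_min (hj0 l hl) (hj0 m hm)),
      fun i hi => ?_⟩
    have : i ∈ ({j0, k, l, m} : Finset (Fin 4)) := hU ▸ Finset.mem_univ i
    simp only [Finset.mem_insert, Finset.mem_singleton] at this
    rcases this with h | h | h | h
    · exact absurd h hi
    · rw [h]; exact min_le_left _ _
    · rw [h]; exact (min_le_right _ _).trans (min_le_left _ _)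
    · rw [h]; exact (min_le_right _ _).trans (min_le_right _ _)
  have hBpos : 0 < B := by linarith
  refine ⟨Real.log (σ / (16 * B ^ 2)), fun c hc => ?_⟩
  set y := Real.log (σ / (16 * B ^ 2)) with hy
  have hey : Real.exp y = σ / (16 * B ^ 2) := Real.exp_log (by positivity)
  have hw1 : ∀ i, Real.sqrt (rh a s y i) ≤ 1 := fun i =>
    Real.sqrt_le_iff.mpr ⟨zero_le_one, by simpa using rh_le_one h y i⟩
  have hw2 : ∀ i, i ≠ j0 → Real.sqrt (rh a s y i) ≤ 1 / (4 * B) := by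
    intro i hi
    rw [Real.sqrt_le_left (by positivity)]
    unfold rh
    rw [div_le_iff₀ (rh_den h y i), hey]
    have h1 := hσ i hi
    have h2 := h.le1 i
    have h3 := h.nn i
    have h4 : (1 / (4 * B)) ^ 2 = 1 / (16 * B ^ 2) := by field_simp; norm_num
    rw [h4]
    have h5 : σ / (16 * B ^ 2) * a i ≤ 1 / (16 * B ^ 2) * s i := by
      have : σ / (16 * B ^ 2) * a i = 1 / (16 * B ^ 2) * (σ * a i) := by ring
      rw [this]
      refine mul_le_mul_of_nonneg_left ?_ (by positivity)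
      nlinarith
    have h6 : 0 ≤ 1 / (16 * B ^ 2) * (σ / (16 * B ^ 2) * a i) := by positivity
    linarith
  have hM : ∀ i j, Mt b' a s y i j ≤ 1 / 4 := by
    intro i j
    simp only [Mt, Matrix.of_apply]
    split_ifs with hij
    · simp
    · have hb1 := hB i j
      have hb2 := hb'.one_le i j hij
      have key : Real.sqrt (rh a s y i) * Real.sqrt (rh a s y j) ≤ 1 / (4 * B) := by
        by_cases hi : i = j0
        · have hj : j ≠ j0 := fun hj => hij (hi.trans hj.symm)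
          calc _ ≤ 1 * (1 / (4 * B)) := mul_le_mul (hw1 i) (hw2 j hj) (Real.sqrt_nonneg _)
                zero_le_one
            _ = _ := one_mul _
        · calc _ ≤ (1 / (4 * B)) * 1 := mul_le_mul (hw2 i hi) (hw1 j) (Real.sqrt_nonneg _)
                (by positivity)
            _ = _ := mul_one _
      calc b' i j * (Real.sqrt (rh a s y i) * Real.sqrt (rh a s y j))
          ≤ B * (1 / (4 * B)) := mul_le_mul hb1 key (by positivity) hBpos.le
        _ = 1 / 4 := by field_simp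
  rw [quad_eq]
  have h1 : ∑ i, ∑ j, Mt b' a s y i j * (c i * c j) ≤ ∑ i, ∑ j, 1 / 4 * (|c i| * |c j|) := by
    refine Finset.sum_le_sum fun i _ => Finset.sum_le_sum fun j _ => ?_
    calc Mt b' a s y i j * (c i * c j) ≤ Mt b' a s y i j * |c i * c j| :=
          mul_le_mul_of_nonneg_left (le_abs_self _) (Mt_nonneg hb' y i j)
      _ ≤ 1 / 4 * |c i * c j| := mul_le_mul_of_nonneg_right (hM i j) (abs_nonneg _)
      _ = _ := by rw [abs_mul]
  refine h1.trans ?_
  have hc' : |c 0| ^ 2 + |c 1| ^ 2 + |c 2| ^ 2 + |c 3| ^ 2 = 1 := by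
    have : ∑ i, c i ^ 2 = 1 := hc
    rw [Fin.sum_univ_four] at this
    simpa [sq_abs] using this
  simp only [Fin.sum_univ_four]
  nlinarith [sq_nonneg (|c 0| - |c 1|), sq_nonneg (|c 0| - |c 2|), sq_nonneg (|c 0| - |c 3|),
    sq_nonneg (|c 1| - |c 2|), sq_nonneg (|c 1| - |c 3|), sq_nonneg (|c 2| - |c 3|)]

lemma high (h : PairOK a s) (hb' : GD b') :
    ∃ y : ℝ, ∃ c ∈ Sph, 1 ≤ c ⬝ᵥ (Mt b' a s y *ᵥ c) := by
  obtain ⟨j0, hj0⟩ := exists_special h.nn h.a2
  obtain ⟨k, l, m, hk, hl, hm, hkl, hkm, hlm, hU⟩ := exists_other_two j0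
  obtain ⟨τ, hτ0, hτ⟩ : ∃ τ : ℝ, 0 < τ ∧ ∀ i, i ≠ j0 → s i ≤ τ * a i := by
    refine ⟨1 + s k / a k + s l / a l + s m / a m, ?_, fun i hi => ?_⟩
    · have := div_nonneg (h.sn k) (h.nn k)
      have := div_nonneg (h.sn l) (h.nn l)
      have := div_nonneg (h.sn m) (h.nn m)
      linarith
    · have h1 := div_nonneg (h.sn k) (h.nn k)
      have h2 := div_nonneg (h.sn l) (h.nn l)
      have h3 := div_nonneg (h.sn m) (h.nn m)
      have : i ∈ ({j0, k, l, m} : Finset (Fin 4)) := hU ▸ Finset.mem_univ i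
      simp only [Finset.mem_insert, Finset.mem_singleton] at this
      have hai := hj0 i hi
      have h4 : s i = s i / a i * a i := by field_simp
      rw [h4]
      refine mul_le_mul_of_nonneg_right ?_ hai.le
      rcases this with h' | h' | h' | h'
      · exact absurd h' hi
      all_goals rw [h']; linarith
  refine ⟨Real.log τ, fun i => if i = j0 then 0 else 1 / Real.sqrt 3, ?_, ?_⟩
  · show ∑ i, (if i = j0 then (0:ℝ) else 1 / Real.sqrt 3) ^ 2 = 1
    rw [hU, Finset.sum_insert (by simp [hk.symm, hl.symm, hm.symm]),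
      Finset.sum_insert (by simp [hkl, hkm]), Finset.sum_insert (by simp [hlm]),
      Finset.sum_singleton, if_pos rfl, if_neg hk, if_neg hl, if_neg hm]
    rw [div_pow, Real.sq_sqrt (by norm_num)]; norm_num
  · set y := Real.log τ with hy
    have hey : Real.exp y = τ := Real.exp_log hτ0
    have hw : ∀ i, i ≠ j0 → 1 / 2 ≤ rh a s y i := by
      intro i hi
      unfold rh
      rw [div_le_div_iff₀ (by norm_num) (rh_den h y i), hey]
      have := hτ i hi; linarith
    have hww : ∀ i j, i ≠ j0 → j ≠ j0 →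
        1 / 2 ≤ Real.sqrt (rh a s y i) * Real.sqrt (rh a s y j) := by
      intro i j hi hj
      rw [← Real.sqrt_mul (rh_nonneg h y i)]
      apply Real.le_sqrt_of_sq_le
      have h1 := hw i hi
      have h2 := hw j hj
      nlinarith
    have hM : ∀ i j, i ≠ j → i ≠ j0 → j ≠ j0 → 1 / 2 ≤ Mt b' a s y i j := by
      intro i j hij hi hj
      simp only [Mt, Matrix.of_apply]
      rw [if_neg hij]
      have := hww i j hi hj
      have := hb'.one_le i j hij
      nlinarith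
    rw [quad_eq]
    have hterm : ∀ i j : Fin 4, 0 ≤ Mt b' a s y i j *
        ((if i = j0 then (0:ℝ) else 1 / Real.sqrt 3) *
          (if j = j0 then (0:ℝ) else 1 / Real.sqrt 3)) := by
      intro i j
      refine mul_nonneg (Mt_nonneg hb' y i j) (mul_nonneg ?_ ?_) <;> split_ifs <;> positivity
    have h33 : (1 / Real.sqrt 3) * (1 / Real.sqrt 3) = (1:ℝ) / 3 := by
      rw [div_mul_div_comm, Real.mul_self_sqrt (by norm_num)]; norm_num
    have hrow : ∀ i p q : Fin 4, i ≠ j0 → p ≠ j0 → q ≠ j0 → i ≠ p → i ≠ q → p ≠ q →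
        1 / 3 ≤ ∑ j, Mt b' a s y i j *
        ((if i = j0 then (0:ℝ) else 1 / Real.sqrt 3) *
          (if j = j0 then (0:ℝ) else 1 / Real.sqrt 3)) := by
      intro i p q hi hp hq hip hiq hpq
      have hsub : ({p, q} : Finset (Fin 4)) ⊆ Finset.univ := Finset.subset_univ _
      refine le_trans ?_ (Finset.sum_le_sum_of_subset_of_nonneg hsub fun j _ _ => hterm i j)
      rw [Finset.sum_pair hpq, if_neg hi, if_neg hp, if_neg hq, h33]
      have := hM i p hip hi hp
      have := hM i q hiq hi hq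
      linarith
    have hsub : ({k, l, m} : Finset (Fin 4)) ⊆ Finset.univ := Finset.subset_univ _
    refine le_trans ?_ (Finset.sum_le_sum_of_subset_of_nonneg hsub fun i _ _ =>
      Finset.sum_nonneg fun j _ => hterm i j)
    rw [Finset.sum_insert (by simp [hkl, hkm]), Finset.sum_pair hlm]
    have e1 := hrow k l m hk hl hm hkl hkm hlm
    have e2 := hrow l k m hl hk hm hkl.symm hlm hkm
    have e3 := hrow m k l hm hk hl hkm.symm hlm.symm hkl
    linarith

lemma exists_eig (h : PairOK a s) (hb' : GD b') :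
    ∃ y : ℝ, ∃ c : Fin 4 → ℝ, (∀ i, 0 ≤ c i) ∧ c ∈ Sph ∧ Mt b' a s y *ᵥ c = c := by
  -- the largest value on the sphere
  set mm : ℝ → ℝ := fun y => sSup ((fun c => c ⬝ᵥ (Mt b' a s y *ᵥ c)) '' Sph) with hmm
  have hcont : Continuous mm := isCompact_Sph.continuous_sSup (continuous_quad h)
  have hcy : ∀ y, Continuous fun c : Fin 4 → ℝ => c ⬝ᵥ (Mt b' a s y *ᵥ c) := fun y =>
    (continuous_quad h).comp (Continuous.prodMk continuous_const continuous_id)
  have hbdd : ∀ y, BddAbove ((fun c => c ⬝ᵥ (Mt b' a s y *ᵥ c)) '' Sph) := fun y =>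
    (isCompact_Sph.image (hcy y)).bddAbove
  have h1 : ∃ y, mm y ≤ 1 := by
    obtain ⟨y, hy⟩ := low h hb'
    refine ⟨y, csSup_le (Sph_nonempty.image _) ?_⟩
    rintro _ ⟨c, hc, rfl⟩
    exact hy c hc
  have h2 : ∃ y, 1 ≤ mm y := by
    obtain ⟨y, c, hc, hyc⟩ := high h hb'
    exact ⟨y, le_csSup_of_le (hbdd y) ⟨c, hc, rfl⟩ hyc⟩
  obtain ⟨y, hy⟩ := mem_range_of_exists_le_of_exists_ge hcont h1 h2
  obtain ⟨c0, hc0, hc0'⟩ := isCompact_Sph.exists_sSup_image_eq Sph_nonempty (hcy y).continuousOn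
  have hmax : ∀ c ∈ Sph, c ⬝ᵥ (Mt b' a s y *ᵥ c) ≤ 1 := by
    intro c hc
    rw [← hy]; exact le_csSup (hbdd y) ⟨c, hc, rfl⟩
  have hc01 : c0 ⬝ᵥ (Mt b' a s y *ᵥ c0) = 1 := by rw [← hy]; exact hc0'.symm
  -- pass to the absolute value
  set c : Fin 4 → ℝ := fun i => |c0 i| with hc
  have hcS : c ∈ Sph := by
    show ∑ i, |c0 i| ^ 2 = 1
    simp only [sq_abs]; exact hc0
  have hc1 : c ⬝ᵥ (Mt b' a s y *ᵥ c) = 1 := by
    refine le_antisymm (hmax c hcS) ?_
    rw [← hc01, quad_eq, quad_eq]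
    refine Finset.sum_le_sum fun i _ => Finset.sum_le_sum fun j _ => ?_
    refine mul_le_mul_of_nonneg_left ?_ (Mt_nonneg hb' y i j)
    rw [hc, ← abs_mul]; exact le_abs_self _
  refine ⟨y, c, fun i => abs_nonneg _, hcS, ?_⟩
  -- positive semidefiniteness of `1 - M`
  have hsymm : (Mt b' a s y).IsHermitian := by
    ext i j
    simp only [Matrix.conjTranspose_apply, Mt, Matrix.of_apply, star_trivial]
    by_cases hij : i = j
    · rw [hij]
    · rw [if_neg hij, if_neg (Ne.symm hij), hb'.symm j i]; ring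
  have hpsd : (1 - Mt b' a s y).PosSemidef := by
    refine Matrix.PosSemidef.of_dotProduct_mulVec_nonneg (Matrix.isHermitian_one.sub hsymm) ?_
    intro d
    rw [Matrix.sub_mulVec, Matrix.one_mulVec, dotProduct_sub, star_trivial, sub_nonneg]
    by_cases hd : ∑ i, d i ^ 2 = 0
    · have : d = 0 := by
        funext i
        have := (Finset.sum_eq_zero_iff_of_nonneg fun i _ => sq_nonneg (d i)).mp hd i
          (Finset.mem_univ i)
        simpa using this
      rw [this]; simp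
    · have hdpos : 0 < ∑ i, d i ^ 2 :=
        lt_of_le_of_ne (Finset.sum_nonneg fun i _ => sq_nonneg _) (Ne.symm hd)
      set N := Real.sqrt (∑ i, d i ^ 2) with hN
      have hNpos : 0 < N := Real.sqrt_pos.mpr hdpos
      have hN2 : N ^ 2 = ∑ i, d i ^ 2 := Real.sq_sqrt hdpos.le
      have hmem : (N⁻¹ • d) ∈ Sph := by
        show ∑ i, (N⁻¹ • d) i ^ 2 = 1
        simp only [Pi.smul_apply, smul_eq_mul, mul_pow]
        rw [← Finset.mul_sum, ← hN2]; field_simp
      have := hmax _ hmem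
      rw [Matrix.mulVec_smul, dotProduct_smul, smul_dotProduct, smul_eq_mul, smul_eq_mul] at this
      have h3 : d ⬝ᵥ d = N ^ 2 := by
        rw [hN2]; simp [dotProduct, sq]
      rw [h3]
      have h4 : N⁻¹ * (N⁻¹ * (d ⬝ᵥ (Mt b' a s y *ᵥ d))) * N ^ 2 =
        d ⬝ᵥ (Mt b' a s y *ᵥ d) := by field_simp
      nlinarith [sq_nonneg N]
  have hzero : star c ⬝ᵥ ((1 - Mt b' a s y) *ᵥ c) = 0 := by
    rw [Matrix.sub_mulVec, Matrix.one_mulVec, dotProduct_sub, star_trivial, hc1]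
    have : c ⬝ᵥ c = 1 := by
      have : ∑ i, c i ^ 2 = 1 := hcS
      simpa [dotProduct, sq] using this
    rw [this]; ring
  have := (hpsd.dotProduct_mulVec_zero_iff c).mp hzero
  rw [Matrix.sub_mulVec, Matrix.one_mulVec] at this
  exact (sub_eq_zero.mp this).symm

lemma exists_rel {a : Fin 4 → ℝ} (ha : CellP b a) (hb : GD b) (hb' : GD b') :
    ∃ a' θ, Rel (sv b a) a b' a' θ := by
  set s := sv b a with hs
  have hok : PairOK a s := ha.pairOK hb
  obtain ⟨y, c, hc0, hcS, hcM⟩ := exists_eig hok hb'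
  set w : Fin 4 → ℝ := fun i => Real.sqrt (rh a s y i) with hw
  set α : Fin 4 → ℝ := fun i => w i * c i with hα
  have hα0 : ∀ i, 0 ≤ α i := fun i => mul_nonneg (Real.sqrt_nonneg _) (hc0 i)
  have hsv : ∀ i, sv b' α i + α i = ∑ j, (if i = j then 0 else b' i j) * α j := by
    intro i
    rw [sv_apply, ← Finset.add_sum_erase _ _ (Finset.mem_univ i),
      ← Finset.add_sum_erase (f := fun j => (if i = j then 0 else b' i j) * α j) _
        (Finset.mem_univ i), hb'.diag]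
    have : ∑ x ∈ Finset.univ.erase i, b' i x * α x =
        ∑ x ∈ Finset.univ.erase i, (if i = x then 0 else b' i x) * α x := by
      refine Finset.sum_congr rfl fun j hj => ?_
      rw [if_neg (Finset.ne_of_mem_erase hj).symm]
    rw [this]; simp
  have hwc : ∀ i, w i * (sv b' α i + α i) = c i := by
    intro i
    rw [hsv]
    conv_rhs => rw [← hcM]
    simp only [Matrix.mulVec, dotProduct, Mt, Matrix.of_apply, Finset.mul_sum]
    refine Finset.sum_congr rfl fun j _ => ?_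
    simp only [hα, hw]; ring
  have hw2 : ∀ i, w i * w i = rh a s y i := fun i => Real.mul_self_sqrt (rh_nonneg hok y i)
  have hrel : ∀ i, α i * s i = Real.exp y * (a i * sv b' α i) := by
    intro i
    have h1 : rh a s y i * (sv b' α i + α i) = α i := by
      rw [← hw2, mul_assoc, hwc]
    have h2 : rh a s y i * (Real.exp y * a i + s i) = Real.exp y * a i := by
      unfold rh; rw [div_mul_cancel₀ _ (rh_den hok y i).ne']
    have h3 : Real.exp y * a i * (sv b' α i + α i) = α i * (Real.exp y * a i + s i) := by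
      calc Real.exp y * a i * (sv b' α i + α i)
          = (rh a s y i * (Real.exp y * a i + s i)) * (sv b' α i + α i) := by rw [h2]
        _ = (rh a s y i * (sv b' α i + α i)) * (Real.exp y * a i + s i) := by ring
        _ = _ := by rw [h1]
    linarith
  have hsn : ∀ i, 0 ≤ sv b' α i := by
    intro i
    rcases (hok.nn i).lt_or_eq with hi | hi
    · have h1 := hrel i
      have h2 : 0 ≤ α i * s i := mul_nonneg (hα0 i) (hok.sn i)
      rw [h1] at h2
      have h3 : 0 < Real.exp y * a i := mul_pos (Real.exp_pos y) hi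
      by_contra hneg
      push Not at hneg
      nlinarith
    · have h1 : w i = 0 := by
        simp only [hw, rh, ← hi]; simp
      have h2 : α i = 0 := by simp only [hα, h1, zero_mul]
      have h3 := hsv i
      rw [h2, add_zero] at h3
      rw [h3]
      refine Finset.sum_nonneg fun j _ => mul_nonneg ?_ (hα0 j)
      split_ifs with hij
      · exact le_refl _
      · linarith [hb'.one_le i j hij]
  have hsum : 0 < ∑ i, α i := by
    refine lt_of_le_of_ne (Finset.sum_nonneg fun i _ => hα0 i) fun h0 => ?_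
    have hz : ∀ i, α i = 0 := fun i =>
      (Finset.sum_eq_zero_iff_of_nonneg fun i _ => hα0 i).mp h0.symm i (Finset.mem_univ i)
    have hcz : ∀ i, c i = 0 := by
      intro i
      rw [← hwc i, hsv i, Finset.sum_eq_zero fun j _ => by rw [hz j, mul_zero], mul_zero]
    have : ∑ i, c i ^ 2 = 1 := hcS
    simp [hcz] at this
  refine ⟨(∑ i, α i)⁻¹ • α, Real.exp y / (1 + Real.exp y), ?_⟩
  have hey := Real.exp_pos y
  refine ⟨fun i => ?_, fun i => ?_, ?_, by positivity, ?_, fun i => ?_⟩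
  · exact mul_nonneg (inv_nonneg.mpr hsum.le) (hα0 i)
  · rw [sv_smul]; exact mul_nonneg (inv_nonneg.mpr hsum.le) (hsn i)
  · simp only [Pi.smul_apply, smul_eq_mul]
    rw [← Finset.mul_sum, inv_mul_cancel₀ hsum.ne']
  · rw [div_le_one (by positivity)]; linarith
  · rw [sv_smul]
    simp only [Pi.smul_apply, smul_eq_mul]
    have h1 : 1 - Real.exp y / (1 + Real.exp y) = 1 / (1 + Real.exp y) := by
      field_simp; ring
    rw [h1]
    have := hrel i
    field_simp
    linarith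

/-! ### The transport map and its continuity -/

/-- The transported coordinates, together with the parameter `θ`. -/
noncomputable def trp (b b' : Matrix (Fin 4) (Fin 4) ℝ) (a : Fin 4 → ℝ) :
    (Fin 4 → ℝ) × ℝ := by
  classical
  exact if h : ∃ q : (Fin 4 → ℝ) × ℝ, Rel (sv b a) a b' q.1 q.2 then h.choose else 0

noncomputable def tr (b b' : Matrix (Fin 4) (Fin 4) ℝ) (a : Fin 4 → ℝ) : Fin 4 → ℝ :=
  (trp b b' a).1

lemma trp_spec {a : Fin 4 → ℝ} (ha : CellP b a) (hb : GD b) (hb' : GD b') :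
    Rel (sv b a) a b' (trp b b' a).1 (trp b b' a).2 := by
  classical
  have h : ∃ q : (Fin 4 → ℝ) × ℝ, Rel (sv b a) a b' q.1 q.2 := by
    obtain ⟨a', θ, h⟩ := exists_rel ha hb hb'
    exact ⟨(a', θ), h⟩
  unfold trp
  rw [dif_pos h]
  exact h.choose_spec

lemma continuous_sv : Continuous fun p : Matrix (Fin 4) (Fin 4) ℝ × (Fin 4 → ℝ) =>
    sv p.1 p.2 := continuous_fst.matrix_mulVec continuous_snd

lemma continuousOn_trp : ContinuousOn
    (fun p : Matrix (Fin 4) (Fin 4) ℝ × Matrix (Fin 4) (Fin 4) ℝ × (Fin 4 → ℝ) =>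
      trp p.1 p.2.1 p.2.2) {p | GD p.1 ∧ GD p.2.1 ∧ CellP p.1 p.2.2} := by
  intro p0 hp0
  obtain ⟨hb, hb', ha⟩ := hp0
  -- the closed set
  set C : Set ((Matrix (Fin 4) (Fin 4) ℝ × Matrix (Fin 4) (Fin 4) ℝ × (Fin 4 → ℝ)) ×
      ((Fin 4 → ℝ) × ℝ)) :=
    {z | Rel (sv z.1.1 z.1.2.2) z.1.2.2 z.1.2.1 z.2.1 z.2.2} with hC
  have hCcl : IsClosed C := by
    have hs : Continuous fun z : (Matrix (Fin 4) (Fin 4) ℝ × Matrix (Fin 4) (Fin 4) ℝ ×
      (Fin 4 → ℝ)) × ((Fin 4 → ℝ) × ℝ) => sv z.1.1 z.1.2.2 :=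
      continuous_sv.comp (by fun_prop : Continuous fun z : (Matrix (Fin 4) (Fin 4) ℝ ×
        Matrix (Fin 4) (Fin 4) ℝ × (Fin 4 → ℝ)) × ((Fin 4 → ℝ) × ℝ) => (z.1.1, z.1.2.2))
    have hs' : Continuous fun z : (Matrix (Fin 4) (Fin 4) ℝ × Matrix (Fin 4) (Fin 4) ℝ ×
      (Fin 4 → ℝ)) × ((Fin 4 → ℝ) × ℝ) => sv z.1.2.1 z.2.1 :=
      continuous_sv.comp (by fun_prop : Continuous fun z : (Matrix (Fin 4) (Fin 4) ℝ ×
        Matrix (Fin 4) (Fin 4) ℝ × (Fin 4 → ℝ)) × ((Fin 4 → ℝ) × ℝ) => (z.1.2.1, z.2.1))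
    have hsi : ∀ i, Continuous fun z : (Matrix (Fin 4) (Fin 4) ℝ × Matrix (Fin 4) (Fin 4) ℝ ×
      (Fin 4 → ℝ)) × ((Fin 4 → ℝ) × ℝ) => sv z.1.1 z.1.2.2 i := fun i =>
      (continuous_apply i).comp hs
    have hsi' : ∀ i, Continuous fun z : (Matrix (Fin 4) (Fin 4) ℝ × Matrix (Fin 4) (Fin 4) ℝ ×
      (Fin 4 → ℝ)) × ((Fin 4 → ℝ) × ℝ) => sv z.1.2.1 z.2.1 i := fun i =>
      (continuous_apply i).comp hs'
    have hai : ∀ i, Continuous fun z : (Matrix (Fin 4) (Fin 4) ℝ × Matrix (Fin 4) (Fin 4) ℝ ×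
      (Fin 4 → ℝ)) × ((Fin 4 → ℝ) × ℝ) => z.1.2.2 i := fun i => by fun_prop
    have hai' : ∀ i, Continuous fun z : (Matrix (Fin 4) (Fin 4) ℝ × Matrix (Fin 4) (Fin 4) ℝ ×
      (Fin 4 → ℝ)) × ((Fin 4 → ℝ) × ℝ) => z.2.1 i := fun i => by fun_prop
    have hθ : Continuous fun z : (Matrix (Fin 4) (Fin 4) ℝ × Matrix (Fin 4) (Fin 4) ℝ ×
      (Fin 4 → ℝ)) × ((Fin 4 → ℝ) × ℝ) => z.2.2 := by fun_prop
    have : C = {z | ∀ i, 0 ≤ z.2.1 i} ∩ ({z | ∀ i, 0 ≤ sv z.1.2.1 z.2.1 i} ∩
      ({z | ∑ i, z.2.1 i = 1} ∩ ({z | 0 ≤ z.2.2} ∩ ({z | z.2.2 ≤ 1} ∩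
      {z | ∀ i, (1 - z.2.2) * (z.2.1 i * sv z.1.1 z.1.2.2 i) =
        z.2.2 * (z.1.2.2 i * sv z.1.2.1 z.2.1 i)})))) := by
      ext z
      constructor
      · intro h; exact ⟨h.nn, h.sn, h.sum, h.t0, h.t1, h.rel⟩
      · rintro ⟨h1, h2, h3, h4, h5, h6⟩; exact ⟨h1, h2, h3, h4, h5, h6⟩
    rw [this]
    refine IsClosed.inter ?_ (IsClosed.inter ?_ (IsClosed.inter ?_ (IsClosed.inter ?_
      (IsClosed.inter ?_ ?_))))
    · simp only [Set.ofPred_forall]
      exact isClosed_iInter fun i => isClosed_le continuous_const (hai' i)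
    · simp only [Set.ofPred_forall]
      exact isClosed_iInter fun i => isClosed_le continuous_const (hsi' i)
    · exact isClosed_eq (continuous_finsetSum _ fun i _ => hai' i) continuous_const
    · exact isClosed_le continuous_const hθ
    · exact isClosed_le hθ continuous_const
    · simp only [Set.ofPred_forall]
      exact isClosed_iInter fun i => isClosed_eq
        ((continuous_const.sub hθ).mul ((hai' i).mul (hsi i)))
        (hθ.mul ((hai i).mul (hsi' i)))
  -- compactness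
  have hK : IsCompact ((stdSimplex ℝ (Fin 4)) ×ˢ (Set.Icc (0:ℝ) 1)) :=
    (isCompact_stdSimplex ℝ (Fin 4)).prod isCompact_Icc
  refine hK.tendsto_nhds_of_unique_mapClusterPt ?_ ?_
  · filter_upwards [self_mem_nhdsWithin] with p hp
    have := trp_spec hp.2.2 hp.1 hp.2.1
    exact ⟨⟨this.nn, this.sum⟩, this.t0, this.t1⟩
  · intro q _ hq
    rw [mapClusterPt_iff_ultrafilter] at hq
    obtain ⟨U, hU1, hU2⟩ := hq
    have hUp : Tendsto (fun p : Matrix (Fin 4) (Fin 4) ℝ × Matrix (Fin 4) (Fin 4) ℝ ×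
      (Fin 4 → ℝ) => p) U (𝓝 p0) := hU1.trans nhdsWithin_le_nhds
    have hmem : ∀ᶠ p in (U : Filter _), (p, trp p.1 p.2.1 p.2.2) ∈ C := by
      have : ∀ᶠ p in 𝓝[{p | GD p.1 ∧ GD p.2.1 ∧ CellP p.1 p.2.2}] p0,
          (p, trp p.1 p.2.1 p.2.2) ∈ C := by
        filter_upwards [self_mem_nhdsWithin] with p hp
        exact trp_spec hp.2.2 hp.1 hp.2.1
      exact hU1 this
    have hlim := hCcl.mem_of_tendsto (hUp.prodMk_nhds hU2) hmem
    have h1 : Rel (sv p0.1 p0.2.2) p0.2.2 p0.2.1 q.1 q.2 := hlim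
    have h2 := trp_spec ha hb hb'
    exact Prod.ext (h1.unique ha hb hb' h2) (h1.theta_unique ha hb hb' h2)

lemma continuousOn_tr : ContinuousOn
    (fun p : Matrix (Fin 4) (Fin 4) ℝ × Matrix (Fin 4) (Fin 4) ℝ × (Fin 4 → ℝ) =>
      tr p.1 p.2.1 p.2.2) {p | GD p.1 ∧ GD p.2.1 ∧ CellP p.1 p.2.2} :=
  continuous_fst.comp_continuousOn continuousOn_trp

end Run7.h606
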